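import Mathlib

set_option autoImplicit false

namespace Pool.Agent.H515.KS

/-- the configurations: a cycle of length `n - φ` -/
def Cfg (n k q : ℕ) : Prop := ∃ φ j c : ℕ, φ < n ∧ 2 * j ≤ φ ∧ j ≤ k ∧ k + j ≤ n ∧
  (∀ s, j ≤ s → s + j ≤ φ → s ≤ k → Nat.gcd (n - φ) (k - s) ∣ c) ∧
  q ∣ (n - φ) / Nat.gcd (n - φ) (c * if φ = 2 * j ∧ j ≠ 0 then 2 else 1)

theorem dvd_div_gcd {p M w a b : ℕ} (hp : p.Prime) (hM : M ≠ 0) (h1 : p ^ (a + b) ∣ M) (h2 : ¬ p ^ (a + 1) ∣ w) :
    p ^ b ∣ M / Nat.gcd M w := by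
  have hg : Nat.gcd M w ≠ 0 := fun h => hM (Nat.eq_zero_of_gcd_eq_zero_left h)
  obtain ⟨t, ht⟩ := Nat.gcd_dvd_left M w
  have h3 : M / Nat.gcd M w = t := Nat.div_eq_of_eq_mul_right (Nat.pos_of_ne_zero hg) ht
  rw [h3]
  obtain ⟨a', g', hg', hg2⟩ := Nat.exists_eq_pow_mul_and_not_dvd hg p hp.ne_one
  have h4 : a' ≤ a := by
    by_contra hlt
    push Not at hlt
    apply h2
    exact ((pow_dvd_pow p hlt).trans (Dvd.intro _ hg2.symm)).trans (Nat.gcd_dvd_right M w)
  have h5 : p ^ a' * p ^ (a - a' + b) ∣ p ^ a' * (g' * t) := by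
    rw [← pow_add, ← mul_assoc, ← hg2, ← ht]
    have : a' + (a - a' + b) = a + b := by omega
    rw [this]
    exact h1
  have h6 := Nat.dvd_of_mul_dvd_mul_left (pow_pos hp.pos a') h5
  have h7 : Nat.Coprime (p ^ (a - a' + b)) g' := Nat.Coprime.pow_left _ ((Nat.Prime.coprime_iff_not_dvd hp).2 hg')
  exact (pow_dvd_pow p (by omega)).trans (h7.dvd_of_dvd_mul_left h6)

theorem cfgE {n k y q : ℕ} (hy : 1 ≤ y) (hyk : y ≤ k) (hn : 2 * k ≤ n)
    (hq : q ∣ (n - 2 * k + 2 * y) / Nat.gcd (n - 2 * k + 2 * y) (Nat.gcd (n - 2 * k + 2 * y) y * if y = k then 1 else 2)) :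
    Cfg n k q := by
  refine ⟨2 * (k - y), k - y, Nat.gcd (n - 2 * k + 2 * y) y, by omega, le_rfl, by omega, by omega, ?_, ?_⟩
  · intro s h1 h2 h3
    have h4 : s = k - y := by omega
    have h5 : n - 2 * (k - y) = n - 2 * k + 2 * y := by omega
    have h6 : k - s = y := by omega
    rw [h5, h6]
  · have h5 : n - 2 * (k - y) = n - 2 * k + 2 * y := by omega
    have h6 : (if 2 * (k - y) = 2 * (k - y) ∧ k - y ≠ 0 then 2 else 1 : ℕ) = if y = k then 1 else 2 := by
      by_cases h : y = k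
      · rw [if_pos h, if_neg]
        rintro ⟨-, h7⟩
        omega
      · rw [if_neg h, if_pos]
        exact ⟨rfl, by omega⟩
    rw [h5, h6]
    exact hq

theorem cfgO {n k y q : ℕ} (hy : 2 ≤ y) (hyk : y ≤ k) (hn : 2 * k ≤ n)
    (hq : q ∣ (n - 2 * k + (2 * y - 1)) / Nat.gcd (n - 2 * k + (2 * y - 1))
      (Nat.gcd (n - 2 * k + (2 * y - 1)) y * Nat.gcd (n - 2 * k + (2 * y - 1)) (y - 1))) :
    Cfg n k q := by
  have h5 : n - (2 * (k - y) + 1) = n - 2 * k + (2 * y - 1) := by omega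
  refine ⟨2 * (k - y) + 1, k - y, Nat.gcd (n - 2 * k + (2 * y - 1)) y * Nat.gcd (n - 2 * k + (2 * y - 1)) (y - 1),
    by omega, by omega, by omega, by omega, ?_, ?_⟩
  · intro s h1 h2 h3
    rw [h5]
    have h4 : s = k - y ∨ s = k - y + 1 := by omega
    rcases h4 with h4 | h4
    · have h6 : k - s = y := by omega
      rw [h6]
      exact Dvd.intro _ rfl
    · have h6 : k - s = y - 1 := by omega
      rw [h6]
      exact Dvd.intro_left _ rfl
  · have h6 : (if 2 * (k - y) + 1 = 2 * (k - y) ∧ k - y ≠ 0 then 2 else 1 : ℕ) = 1 := by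
      rw [if_neg]
      rintro ⟨h7, -⟩
      omega
    rw [h5, h6, mul_one]
    exact hq

/-- primes larger than `k` -/
theorem cfg_large {n k p b i : ℕ} (hk : 2 ≤ k) (hn : 2 * k ≤ n) (hp : p.Prime) (hpk : k < p) (hi : i ≤ 2 * k - 2)
    (hd : p ^ b ∣ n - i) : Cfg n k (p ^ b) := by
  have hnd : ∀ y, 1 ≤ y → y ≤ k → ¬ p ∣ y := by
    intro y h1 h2 h3
    have := Nat.le_of_dvd h1 h3
    omega
  rcases Nat.even_or_odd' i with ⟨i', hi' | hi'⟩
  · have h5 : n - 2 * k + 2 * (k - i') = n - i := by omega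
    apply cfgE (y := k - i') (by omega) (by omega) hn
    rw [h5]
    refine dvd_div_gcd (a := 0) hp (by omega) (by rw [zero_add]; exact hd) ?_
    rw [zero_add, pow_one]
    intro h
    rcases (Nat.Prime.dvd_mul hp).1 h with h | h
    · exact hnd (k - i') (by omega) (by omega) (h.trans (Nat.gcd_dvd_right _ _))
    · split_ifs at h
      · exact hnd 1 le_rfl (by omega) h
      · exact hnd 2 (by omega) hk h
  · have h5 : n - 2 * k + (2 * (k - i') - 1) = n - i := by omega
    apply cfgO (y := k - i') (by omega) (by omega) hn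
    rw [h5]
    refine dvd_div_gcd (a := 0) hp (by omega) (by rw [zero_add]; exact hd) ?_
    rw [zero_add, pow_one]
    intro h
    rcases (Nat.Prime.dvd_mul hp).1 h with h | h
    · exact hnd (k - i') (by omega) (by omega) (h.trans (Nat.gcd_dvd_right _ _))
    · exact hnd (k - i' - 1) (by omega) (by omega) (h.trans (Nat.gcd_dvd_right _ _))

theorem exists_y {q : ℕ} (hq : Odd q) (N : ℕ) : ∃ y, 1 ≤ y ∧ y ≤ q ∧ q ∣ N + 2 * y := by
  obtain ⟨u, hu⟩ := hq
  have h1 := Nat.mod_add_div N q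
  have h2 := Nat.mod_lt N (by omega : 0 < q)
  generalize N % q = r at h1 h2
  generalize N / q = t at h1
  rcases Nat.even_or_odd' r with ⟨r', hr | hr⟩
  · refine ⟨q - r', by omega, by omega, t + 2, ?_⟩
    have h3 : q * (t + 2) = q * t + 2 * q := by ring
    omega
  · refine ⟨u - r', by omega, by omega, t + 1, ?_⟩
    have h3 : q * (t + 1) = q * t + q := by ring
    omega

/-- odd prime powers up to `k` -/
theorem cfg_small {n k p b : ℕ} (hn : 2 * k ≤ n) (hp : p.Prime) (hp2 : p ≠ 2) (hb : b ≠ 0)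
    (hpk : p ^ b ≤ k) : Cfg n k (p ^ b) := by
  have hodd : Odd p := hp.odd_of_ne_two hp2
  have hq : Odd (p ^ b) := hodd.pow
  have hpq : p ∣ p ^ b := dvd_pow_self p hb
  have hp2' : ¬ p ∣ 2 := by
    intro h
    exact hp2 ((Nat.prime_dvd_prime_iff_eq hp Nat.prime_two).1 h)
  have hp1 : ¬ p ∣ 1 := fun h => hp.one_lt.ne' (Nat.dvd_one.1 h)
  by_cases hN : p ∣ n - 2 * k
  · -- odd type
    obtain ⟨y, h1, h2, h3⟩ := exists_y hq (n - 2 * k + p ^ b - 1)
    have hpos : 0 < p ^ b := pow_pos hp.pos b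
    have h4 : p ^ b ∣ n - 2 * k + (2 * y - 1) := by
      have h5 : n - 2 * k + p ^ b - 1 + 2 * y = n - 2 * k + (2 * y - 1) + p ^ b := by omega
      rw [h5] at h3
      exact (Nat.dvd_add_left (dvd_refl _)).1 h3
    have h6 : p ∣ 2 * y - 1 := (Nat.dvd_add_right hN).1 (hpq.trans h4)
    have h7 : ¬ p ∣ y := by
      intro h
      have h8 : p ∣ 2 * y - (2 * y - 1) := Nat.dvd_sub (h.mul_left 2) h6
      have h9 : 2 * y - (2 * y - 1) = 1 := by omega
      rw [h9] at h8
      exact hp1 h8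
    have h8 : ¬ p ∣ y - 1 := by
      intro h
      have h8 : p ∣ (2 * y - 1) - 2 * (y - 1) := Nat.dvd_sub h6 (h.mul_left 2)
      have h9 : (2 * y - 1) - 2 * (y - 1) = 1 := by omega
      rw [h9] at h8
      exact hp1 h8
    have h9 : y ≠ 1 := by
      rintro rfl
      exact h8 (dvd_zero p)
    apply cfgO (y := y) (by omega) (by omega) hn
    refine dvd_div_gcd (a := 0) hp (by omega) (by rw [zero_add]; exact h4) ?_
    rw [zero_add, pow_one]
    intro h
    rcases (Nat.Prime.dvd_mul hp).1 h with h | h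
    · exact h7 (h.trans (Nat.gcd_dvd_right _ _))
    · exact h8 (h.trans (Nat.gcd_dvd_right _ _))
  · obtain ⟨y, h1, h2, h3⟩ := exists_y hq (n - 2 * k)
    have h4 : ¬ p ∣ y := by
      intro h
      exact hN ((Nat.dvd_add_left (h.mul_left 2)).1 (hpq.trans h3))
    apply cfgE (y := y) h1 (by omega) hn
    refine dvd_div_gcd (a := 0) hp (by omega) (by rw [zero_add]; exact h3) ?_
    rw [zero_add, pow_one]
    intro h
    rcases (Nat.Prime.dvd_mul hp).1 h with h | h
    · exact h4 (h.trans (Nat.gcd_dvd_right _ _))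
    · split_ifs at h
      · exact hp1 h
      · exact hp2' h

/-- the prime `2` -/
theorem cfg_two {n k : ℕ} (hk : 2 ≤ k) (hn : 2 * k ≤ n) (h : k = 2 → n % 4 ≠ 3) : Cfg n k 2 := by
  obtain ⟨N, hN⟩ : ∃ N, n - 2 * k = N := ⟨_, rfl⟩
  have hnN : n = N + 2 * k := by omega
  rcases Nat.even_or_odd' N with ⟨N', hN' | hN'⟩
  · obtain ⟨f, g, hg, hkf⟩ := Nat.exists_eq_pow_mul_and_not_dvd (by omega : k ≠ 0) 2 (by norm_num)
    have h2k : ¬ 2 ^ (f + 1) ∣ k := by
      intro h
      rw [hkf, pow_succ] at h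
      exact hg (Nat.dvd_of_mul_dvd_mul_left (pow_pos (by norm_num) f) h)
    by_cases hf : 2 ^ (f + 1) ∣ N
    · apply cfgE (y := k) (by omega) le_rfl hn
      rw [hN, if_pos rfl, mul_one]
      have := dvd_div_gcd (p := 2) (M := N + 2 * k) (w := Nat.gcd (N + 2 * k) k) (a := f) (b := 1) Nat.prime_two
        (by omega) (by
          apply Dvd.dvd.add hf
          rw [pow_succ, mul_comm]
          exact mul_dvd_mul_left 2 (Dvd.intro _ hkf.symm)) (fun h => h2k (h.trans (Nat.gcd_dvd_right _ _)))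
      simpa using this
    · have hN0 : N ≠ 0 := fun h => hf (h ▸ dvd_zero _)
      obtain ⟨e, N1, hN1, hNe⟩ := Nat.exists_eq_pow_mul_and_not_dvd hN0 2 (by norm_num)
      have he1 : e ≠ 0 := by
        rintro rfl
        rw [pow_zero, one_mul] at hNe
        omega
      have hef : e ≤ f := by
        by_contra hlt
        push Not at hlt
        apply hf
        rw [hNe]
        exact (pow_dvd_pow 2 hlt).trans (dvd_mul_right _ _)
      obtain ⟨e', rfl⟩ := Nat.exists_eq_succ_of_ne_zero he1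
      have h3 : 2 ^ (e' + 1) ≤ k := by
        calc 2 ^ (e' + 1) ≤ 2 ^ f := Nat.pow_le_pow_right (by norm_num) hef
          _ ≤ k := Nat.le_of_dvd (by omega) (Dvd.intro _ hkf.symm)
      have h4 : 2 ^ (e' + 1) = 2 * 2 ^ e' := by ring
      have h5 : 0 < 2 ^ e' := pow_pos (by norm_num) _
      apply cfgE (y := 2 ^ e') (by omega) (by omega) hn
      rw [hN, if_neg (by omega)]
      have h6 : 2 ^ (e' + 1 + 1) ∣ N + 2 * 2 ^ e' := by
        rw [hNe, Nat.succ_eq_add_one, ← h4]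
        have h7 : 2 ^ (e' + 1) * N1 + 2 ^ (e' + 1) = 2 ^ (e' + 1) * (N1 + 1) := by ring
        rw [h7, pow_succ _ (e' + 1)]
        apply mul_dvd_mul_left
        omega
      have := dvd_div_gcd (p := 2) (M := N + 2 * 2 ^ e') (w := Nat.gcd (N + 2 * 2 ^ e') (2 ^ e') * 2) (a := e' + 1)
        (b := 1) Nat.prime_two (by omega) h6 (by
          intro h
          have h8 := h.trans (mul_dvd_mul_right (Nat.gcd_dvd_right (N + 2 * 2 ^ e') (2 ^ e')) 2)
          have h9 := Nat.le_of_dvd (by omega) h8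
          have h10 : 2 ^ (e' + 1 + 1) = 4 * 2 ^ e' := by ring
          omega)
      simpa using this
  · have h4 : N' % 2 = 0 ∨ N' % 2 = 1 := by omega
    rcases h4 with h4 | h4
    · apply cfgO (y := 2) le_rfl hk hn
      rw [hN]
      have := dvd_div_gcd (p := 2) (M := N + (2 * 2 - 1)) (w := Nat.gcd (N + (2 * 2 - 1)) 2 * Nat.gcd (N + (2 * 2 - 1)) (2 - 1))
        (a := 1) (b := 1) Nat.prime_two (by omega) (by norm_num; omega) (by
          intro h
          have h8 := h.trans (mul_dvd_mul (Nat.gcd_dvd_right (N + (2 * 2 - 1)) 2) (Nat.gcd_dvd_right (N + (2 * 2 - 1)) (2 - 1)))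
          norm_num at h8)
      simpa using this
    · have hk3 : 3 ≤ k := by
        by_contra hlt
        have h5 : k = 2 := by omega
        have h6 := h h5
        omega
      apply cfgO (y := 3) (by omega) hk3 hn
      rw [hN]
      have := dvd_div_gcd (p := 2) (M := N + (2 * 3 - 1)) (w := Nat.gcd (N + (2 * 3 - 1)) 3 * Nat.gcd (N + (2 * 3 - 1)) (3 - 1))
        (a := 1) (b := 1) Nat.prime_two (by omega) (by norm_num; omega) (by
          intro h
          have h8 := h.trans (mul_dvd_mul (Nat.gcd_dvd_right (N + (2 * 3 - 1)) 3) (Nat.gcd_dvd_right (N + (2 * 3 - 1)) (3 - 1)))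
          norm_num at h8)
      simpa using this

end Pool.Agent.H515.KS
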