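import Pool.Agent.H515.KS.Main3

set_option autoImplicit false

namespace Pool.Agent.H515.KS

open Module NumberField
open Pool.Agent.R493.CR (S)

theorem combine_two {G : Type} [CommGroup G] {a b R : ℕ} (hab : Nat.Coprime a b)
    (f : Multiplicative (Fin R → ZMod a) →* G) (hf : Function.Injective f)
    (g : Multiplicative (Fin R → ZMod b) →* G) (hg : Function.Injective g) :
    ∃ h : Multiplicative (Fin R → ZMod (a * b)) →* G, Function.Injective h := by
  let e := ZMod.chineseRemainder hab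
  let ca : (Fin R → ZMod (a * b)) →+ (Fin R → ZMod a) :=
    ((AddMonoidHom.fst (ZMod a) (ZMod b)).comp e.toAddEquiv.toAddMonoidHom).compLeft (Fin R)
  let cb : (Fin R → ZMod (a * b)) →+ (Fin R → ZMod b) :=
    ((AddMonoidHom.snd (ZMod a) (ZMod b)).comp e.toAddEquiv.toAddMonoidHom).compLeft (Fin R)
  have hfa : ∀ x, f x ^ a = 1 := by
    intro x
    rw [← map_pow, show x ^ a = 1 from ?_, map_one]
    apply Multiplicative.toAdd.injective
    funext i
    show a • (Multiplicative.toAdd x) i = 0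
    simp
  have hgb : ∀ x, g x ^ b = 1 := by
    intro x
    rw [← map_pow, show x ^ b = 1 from ?_, map_one]
    apply Multiplicative.toAdd.injective
    funext i
    show b • (Multiplicative.toAdd x) i = 0
    simp
  refine ⟨(f.comp (AddMonoidHom.toMultiplicative ca)) * (g.comp (AddMonoidHom.toMultiplicative cb)), ?_⟩
  rw [injective_iff_map_eq_one]
  intro x hx
  have h1 : f (AddMonoidHom.toMultiplicative ca x) * g (AddMonoidHom.toMultiplicative cb x) = 1 := hx
  have h2 : f (AddMonoidHom.toMultiplicative ca x) ^ b = 1 := by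
    have := congrArg (· ^ b) h1
    simpa only [mul_pow, hgb, mul_one, one_pow] using this
  have h3 : f (AddMonoidHom.toMultiplicative ca x) = 1 := by
    have := Nat.dvd_gcd (orderOf_dvd_of_pow_eq_one (hfa (AddMonoidHom.toMultiplicative ca x)))
      (orderOf_dvd_of_pow_eq_one h2)
    rw [Nat.Coprime.gcd_eq_one hab, Nat.dvd_one, orderOf_eq_one_iff] at this
    exact this
  have h4 : g (AddMonoidHom.toMultiplicative cb x) = 1 := by
    rw [h3, one_mul] at h1
    exact h1
  have h5 : AddMonoidHom.toMultiplicative ca x = 1 := hf (by rw [h3, map_one])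
  have h6 : AddMonoidHom.toMultiplicative cb x = 1 := hg (by rw [h4, map_one])
  apply Multiplicative.toAdd.injective
  funext i
  have h7 : (e (Multiplicative.toAdd x i)).1 = 0 := congrFun (congrArg Multiplicative.toAdd h5) i
  have h8 : (e (Multiplicative.toAdd x i)).2 = 0 := congrFun (congrArg Multiplicative.toAdd h6) i
  have h9 : e (Multiplicative.toAdd x i) = 0 := Prod.ext h7 h8
  exact (map_eq_zero_iff e e.injective).1 h9

theorem combine {G : Type} [CommGroup G] {I : Type} [DecidableEq I] (R : ℕ) (μ : I → ℕ) (s : Finset I)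
    (hcop : ∀ i ∈ s, ∀ l ∈ s, i ≠ l → Nat.Coprime (μ i) (μ l))
    (h : ∀ i ∈ s, ∃ f : Multiplicative (Fin R → ZMod (μ i)) →* G, Function.Injective f) :
    ∃ f : Multiplicative (Fin R → ZMod (∏ i ∈ s, μ i)) →* G, Function.Injective f := by
  induction s using Finset.induction_on with
  | empty =>
    refine ⟨1, ?_⟩
    intro x y _
    apply Multiplicative.toAdd.injective
    funext i
    have : Subsingleton (ZMod (∏ i ∈ (∅ : Finset I), μ i)) := by
      rw [Finset.prod_empty]
      infer_instance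
    exact Subsingleton.elim _ _
  | insert a s ha ih =>
    obtain ⟨g, hg⟩ := ih (fun i hi l hl => hcop i (Finset.mem_insert_of_mem hi) l (Finset.mem_insert_of_mem hl))
      (fun i hi => h i (Finset.mem_insert_of_mem hi))
    obtain ⟨f, hf⟩ := h a (Finset.mem_insert_self _ _)
    rw [Finset.prod_insert ha]
    apply combine_two _ f hf g hg
    apply Nat.Coprime.prod_right
    intro i hi
    exact hcop a (Finset.mem_insert_self _ _) i (Finset.mem_insert_of_mem hi) (fun h => ha (h ▸ hi))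

/-- Every prime power `q` dividing exactly `m` comes from a ramification type: a cycle of length `n - φ`. -/
theorem master {n k m : ℕ} (hm : m ≠ 0) (hn : 1 ≤ n) (hkn : k ≤ n)
    (h : ∀ p b, p.Prime → p ^ b ∣ m → b ≠ 0 → ∃ φ j c : ℕ, φ < n ∧ 2 * j ≤ φ ∧ j ≤ k ∧ k + j ≤ n ∧
      (∀ s, j ≤ s → s + j ≤ φ → s ≤ k → Nat.gcd (n - φ) (k - s) ∣ c) ∧
      p ^ b ∣ (n - φ) / Nat.gcd (n - φ) (c * if φ = 2 * j ∧ j ≠ 0 then 2 else 1)) :
    S (n.choose k) m := by
  classical
  have h' : ∀ p : m.primeFactors, ∃ φ j c : ℕ, φ < n ∧ 2 * j ≤ φ ∧ j ≤ k ∧ k + j ≤ n ∧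
      (∀ s, j ≤ s → s + j ≤ φ → s ≤ k → Nat.gcd (n - φ) (k - s) ∣ c) ∧
      (p : ℕ) ^ (m.factorization p) ∣ (n - φ) / Nat.gcd (n - φ) (c * if φ = 2 * j ∧ j ≠ 0 then 2 else 1) := by
    intro p
    have hp := Nat.prime_of_mem_primeFactors p.2
    apply h p _ hp (Nat.ordProj_dvd m p)
    exact (hp.factorization_pos_of_dvd hm (Nat.dvd_of_mem_primeFactors p.2)).ne'
  choose φ j c h1 h2 h3 h4 h5 h6 using h'
  intro R
  obtain ⟨K, i1, i2, hd, hf⟩ := family (I := m.primeFactors) n k (fun p => n - φ p) φ j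
    (fun p => (p : ℕ) ^ (m.factorization p)) (fun p => (c p : ℤ)) hn hkn
    (fun p => by have := h1 p; omega) (fun p => by have := h1 p; omega) h2 h3 h4
    (fun p s hs1 hs2 hs3 => by exact_mod_cast h5 p s hs1 hs2 hs3)
    (fun p => pow_ne_zero _ (Nat.prime_of_mem_primeFactors p.2).ne_zero)
    (by
      intro p t ht
      have hM : n - φ p ≠ 0 := by have := h1 p; omega
      have h7 := h6 p
      obtain ⟨w, hw⟩ : ∃ w, w = c p * if φ p = 2 * j p ∧ j p ≠ 0 then 2 else 1 := ⟨_, rfl⟩
      rw [← hw] at h7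
      have h8 : (c p : ℤ) * (if φ p = 2 * j p ∧ j p ≠ 0 then 2 else 1) = (w : ℤ) := by
        rw [hw]
        split_ifs <;> push_cast <;> rfl
      rw [h8] at ht
      have h9 : ((n - φ p : ℕ) : ℤ) = (Nat.gcd (n - φ p) w : ℤ) * (((n - φ p) / Nat.gcd (n - φ p) w : ℕ) : ℤ) := by
        rw [← Nat.cast_mul, Nat.mul_div_cancel' (Nat.gcd_dvd_left _ _)]
      have hg : Nat.gcd (n - φ p) w ≠ 0 := fun h => hM (Nat.eq_zero_of_gcd_eq_zero_left h)
      have h10 : ((((n - φ p) / Nat.gcd (n - φ p) w : ℕ) : ℤ)) ∣ ((w / Nat.gcd (n - φ p) w : ℕ) : ℤ) * t := by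
        have h11 : (w : ℤ) = (Nat.gcd (n - φ p) w : ℤ) * ((w / Nat.gcd (n - φ p) w : ℕ) : ℤ) := by
          rw [← Nat.cast_mul, Nat.mul_div_cancel' (Nat.gcd_dvd_right _ _)]
        have h12 : ((n - φ p : ℕ) : ℤ) ∣ w * t := ht
        rw [h9, h11, mul_assoc] at h12
        exact Int.dvd_of_mul_dvd_mul_left (by exact_mod_cast hg) h12
      have hc : Nat.Coprime ((n - φ p) / Nat.gcd (n - φ p) w) (w / Nat.gcd (n - φ p) w) :=
        Nat.coprime_div_gcd_div_gcd (Nat.pos_of_ne_zero hg)
      have h13 := (Nat.isCoprime_iff_coprime.2 hc).dvd_of_dvd_mul_left h10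
      exact dvd_trans (by exact_mod_cast h7) h13) R
  refine ⟨K, i1, i2, hd, ?_⟩
  have key := combine R (fun p : m.primeFactors => (p : ℕ) ^ (m.factorization p)) Finset.univ
    (by
      intro p _ l _ hpl
      apply Nat.Coprime.pow
      rw [Nat.coprime_primes (Nat.prime_of_mem_primeFactors p.2) (Nat.prime_of_mem_primeFactors l.2)]
      exact fun h => hpl (Subtype.ext h)) (fun p _ => hf p)
  have hprod : ∏ p : m.primeFactors, (p : ℕ) ^ (m.factorization p) = m := by
    rw [Finset.prod_coe_sort m.primeFactors (fun p => p ^ m.factorization p)]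
    exact Nat.prod_factorization_pow_eq_self hm
  rw [hprod] at key
  exact key

end Pool.Agent.H515.KS
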