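import Pool.Agent.H515.KS.Wt

set_option autoImplicit false
set_option linter.unusedSectionVars false

namespace Pool.Agent.H515.KS

theorem mem_wt {n j : ℕ} {u v : Fin j → Fin n} {E : Finset (Fin j)} {x : Fin n} :
    x ∈ wt u v E ↔ (∃ m, m ∈ E ∧ v m = x) ∨ ∃ m, m ∉ E ∧ u m = x := by
  unfold wt
  rw [Finset.mem_image]
  constructor
  · rintro ⟨m, -, hm⟩
    by_cases h : m ∈ E
    · rw [if_pos h] at hm
      exact Or.inl ⟨m, h, hm⟩
    · rw [if_neg h] at hm
      exact Or.inr ⟨m, h, hm⟩
  · rintro (⟨m, h, hm⟩ | ⟨m, h, hm⟩)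
    · exact ⟨m, Finset.mem_univ m, by rw [if_pos h]; exact hm⟩
    · exact ⟨m, Finset.mem_univ m, by rw [if_neg h]; exact hm⟩

theorem closed_last {j : ℕ} {E : Finset (Fin (j + 1))} (h : ∀ l ∈ E, l ≠ Fin.last j → l + 1 ∈ E) {i : Fin (j + 1)}
    (hi : i ∈ E) : ∀ d : ℕ, ∀ hd : i.val + d < j + 1, (⟨i.val + d, hd⟩ : Fin (j + 1)) ∈ E := by
  intro d
  induction d with
  | zero => intro hd; exact hi
  | succ d ih =>
    intro hd
    have h1 := ih (by omega)
    have h2 : (⟨i.val + d, by omega⟩ : Fin (j + 1)) ≠ Fin.last j := by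
      intro h3
      have := congrArg Fin.val h3
      simp at this
      omega
    have h3 := h _ h1 h2
    have h4 : (⟨i.val + d, by omega⟩ : Fin (j + 1)) + 1 = ⟨i.val + (d + 1), hd⟩ := by
      apply Fin.ext
      rw [Fin.val_add_one_of_lt]
      · simp only
        omega
      · exact lt_of_le_of_ne (Fin.le_last _) h2
    rwa [h4] at h3

/-- the sum for the cycle -/
theorem sum_cycle (j : ℕ) : ∑ E : Finset (Fin (j + 1)), (-1 : ℤ) ^ E.card *
    ∏ l, ((if l ∉ E then 1 else 0) - (if l + 1 ∈ E then 1 else 0)) = 2 := by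
  classical
  have h0 : ∀ E : Finset (Fin (j + 1)), E ≠ ∅ → E ≠ Finset.univ →
      (-1 : ℤ) ^ E.card * ∏ l, ((if l ∉ E then (1 : ℤ) else 0) - (if l + 1 ∈ E then 1 else 0)) = 0 := by
    intro E h1 h2
    apply mul_eq_zero_of_right
    by_contra hne
    rw [Finset.prod_eq_zero_iff] at hne
    push Not at hne
    have hcl : ∀ l ∈ E, l + 1 ∈ E := by
      intro l hl
      by_contra hcon
      apply hne l (Finset.mem_univ l)
      simp [hl, hcon]
    obtain ⟨i, hi⟩ := Finset.nonempty_iff_ne_empty.2 h1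
    have h3 := closed_last (fun l hl _ => hcl l hl) hi (j - i.val) (by omega)
    have h4 : (⟨i.val + (j - i.val), by omega⟩ : Fin (j + 1)) = Fin.last j := by
      apply Fin.ext
      simp
      omega
    rw [h4] at h3
    have h5 := hcl _ h3
    rw [Fin.last_add_one] at h5
    apply h2
    rw [Finset.eq_univ_iff_forall]
    intro x
    have hx := x.2
    have h6 := closed_last (fun l hl _ => hcl l hl) h5 x.val (by rw [Fin.val_zero]; omega)
    have h7 : (⟨(0 : Fin (j + 1)).val + x.val, by rw [Fin.val_zero]; omega⟩ : Fin (j + 1)) = x := by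
      apply Fin.ext
      simp
    rwa [h7] at h6
  have hne : (∅ : Finset (Fin (j + 1))) ≠ Finset.univ := by
    intro h
    have := congrArg Finset.card h
    simp at this
  rw [← Finset.add_sum_erase _ _ (Finset.mem_univ (∅ : Finset (Fin (j + 1)))),
    ← Finset.add_sum_erase _ _ (Finset.mem_erase.2 ⟨hne.symm, Finset.mem_univ (Finset.univ : Finset (Fin (j + 1)))⟩),
    Finset.sum_eq_zero]
  · simp only [Finset.card_empty, pow_zero, Finset.notMem_empty, not_false_eq_true, if_true, if_false, sub_zero,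
      Finset.prod_const_one, mul_one, Finset.card_univ, Fintype.card_fin, Finset.mem_univ, not_true_eq_false,
      zero_sub, Finset.prod_const, add_zero]
    rw [← mul_pow]
    norm_num
  · intro E hE
    rw [Finset.mem_erase, Finset.mem_erase] at hE
    exact h0 E hE.2.1 hE.1

/-- the sum for the path -/
theorem sum_path (j : ℕ) : ∑ E : Finset (Fin (j + 1)), (-1 : ℤ) ^ E.card *
    ∏ l, ((if l ∉ E then 1 else 0) - (if l + 1 ≠ 0 ∧ l + 1 ∈ E then 1 else 0)) = 1 := by
  classical
  have h0 : ∀ E : Finset (Fin (j + 1)), E ≠ ∅ →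
      (-1 : ℤ) ^ E.card * ∏ l, ((if l ∉ E then (1 : ℤ) else 0) - (if l + 1 ≠ 0 ∧ l + 1 ∈ E then 1 else 0)) = 0 := by
    intro E h1
    apply mul_eq_zero_of_right
    by_contra hne
    rw [Finset.prod_eq_zero_iff] at hne
    push Not at hne
    have hcl : ∀ l ∈ E, l + 1 ≠ 0 ∧ l + 1 ∈ E := by
      intro l hl
      by_contra hcon
      apply hne l (Finset.mem_univ l)
      rw [if_neg (by simpa using hl), if_neg hcon, sub_zero]
    obtain ⟨i, hi⟩ := Finset.nonempty_iff_ne_empty.2 h1
    have h3 := closed_last (fun l hl _ => (hcl l hl).2) hi (j - i.val) (by omega)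
    have h4 : (⟨i.val + (j - i.val), by omega⟩ : Fin (j + 1)) = Fin.last j := by
      apply Fin.ext
      simp
      omega
    rw [h4] at h3
    have h5 := (hcl _ h3).1
    rw [Fin.last_add_one] at h5
    exact h5 rfl
  rw [← Finset.add_sum_erase _ _ (Finset.mem_univ (∅ : Finset (Fin (j + 1)))), Finset.sum_eq_zero]
  · simp
  · intro E hE
    exact h0 E (Finset.ne_of_mem_erase hE)

/-- the value for the cycle -/
theorem aw_cycle {n j : ℕ} {a b : Fin (j + 1) → Fin n} (ha : Function.Injective a) (hb : Function.Injective b)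
    (hab : ∀ i l, a i ≠ b l) : aw a b ∅ a (fun m => b (m - 1)) = 2 := by
  unfold aw
  refine (Finset.sum_congr rfl fun E _ => ?_).trans (sum_cycle j)
  congr 1
  unfold fw
  refine Finset.prod_congr rfl fun l _ => ?_
  rw [Finset.empty_union]
  have h1 : a l ∈ wt a (fun m => b (m - 1)) E ↔ l ∉ E := by
    rw [mem_wt]
    constructor
    · rintro (⟨m, _, h⟩ | ⟨m, hm, h⟩)
      · exact absurd h.symm (hab _ _)
      · rwa [← ha h]
    · intro h
      exact Or.inr ⟨l, h, rfl⟩
  have h2 : b l ∈ wt a (fun m => b (m - 1)) E ↔ l + 1 ∈ E := by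
    rw [mem_wt]
    constructor
    · rintro (⟨m, hm, h⟩ | ⟨m, _, h⟩)
      · rw [← hb h, sub_add_cancel]
        exact hm
      · exact absurd h (hab _ _)
    · intro h
      exact Or.inl ⟨l + 1, h, by rw [add_sub_cancel_right]⟩
  rw [if_congr h1 rfl rfl, if_congr h2 rfl rfl]

/-- the value for the path -/
theorem aw_path {n j : ℕ} {a b : Fin (j + 1) → Fin n} (ha : Function.Injective a) (hb : Function.Injective b)
    (hab : ∀ i l, a i ≠ b l) (c : Fin n) (hca : ∀ i, c ≠ a i) (hcb : ∀ i, c ≠ b i) :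
    aw a b ∅ a (fun m => if m = 0 then c else b (m - 1)) = 1 := by
  unfold aw
  refine (Finset.sum_congr rfl fun E _ => ?_).trans (sum_path j)
  congr 1
  unfold fw
  refine Finset.prod_congr rfl fun l _ => ?_
  rw [Finset.empty_union]
  have h1 : a l ∈ wt a (fun m => if m = 0 then c else b (m - 1)) E ↔ l ∉ E := by
    rw [mem_wt]
    constructor
    · rintro (⟨m, _, h⟩ | ⟨m, hm, h⟩)
      · split_ifs at h
        · exact absurd h (hca _)
        · exact absurd h.symm (hab _ _)
      · rwa [← ha h]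
    · intro h
      exact Or.inr ⟨l, h, rfl⟩
  have h2 : b l ∈ wt a (fun m => if m = 0 then c else b (m - 1)) E ↔ (l + 1 ≠ 0 ∧ l + 1 ∈ E) := by
    rw [mem_wt]
    constructor
    · rintro (⟨m, hm, h⟩ | ⟨m, _, h⟩)
      · split_ifs at h with h0
        · exact absurd h (hcb _)
        · rw [← hb h, sub_add_cancel]
          exact ⟨h0, hm⟩
      · exact absurd h (hab _ _)
    · rintro ⟨h0, h⟩
      exact Or.inl ⟨l + 1, h, by rw [if_neg h0, add_sub_cancel_right]⟩
  rw [if_congr h1 rfl rfl, if_congr h2 rfl rfl]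

end Pool.Agent.H515.KS
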