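import Pool.Agent.H450.GG.Trans

set_option autoImplicit false
set_option linter.unusedSectionVars false

namespace Pool.Agent.H515.KS

open Polynomial Module Pool.Agent.H450.GG

/-- `n` algebraic integers which are permuted by the automorphisms, transitively on the sets of `k` of them. -/
structure Cf (A : Type) [Field A] [CharZero A] (n k : ℕ) where
  θ : Fin n → A
  inj : Function.Injective θ
  int : ∀ i, IsIntegral ℤ (θ i)
  perm : ∀ (σ : A ≃ₐ[ℚ] A) (i : Fin n), ∃ j, σ (θ i) = θ j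
  S0 : Finset (Fin n)
  h0 : S0.card = k
  hom : ∀ T : Finset (Fin n), T.card = k → ∃ σ : A ≃ₐ[ℚ] A, ∀ i ∈ S0, ∃ j ∈ T, σ (θ i) = θ j

namespace Cf

section
variable {A : Type} [Field A] [CharZero A] [Algebra.IsAlgebraic ℚ A] [IsAlgClosed A] {n k : ℕ} (c : Cf A n k)

/-- the action on the indices -/
noncomputable def pm (σ : A ≃ₐ[ℚ] A) (i : Fin n) : Fin n := (c.perm σ i).choose

theorem pm_spec (σ : A ≃ₐ[ℚ] A) (i : Fin n) : σ (c.θ i) = c.θ (c.pm σ i) := (c.perm σ i).choose_spec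

theorem pm_eq {σ : A ≃ₐ[ℚ] A} {i j : Fin n} (h : σ (c.θ i) = c.θ j) : c.pm σ i = j :=
  c.inj (by rw [← c.pm_spec, h])

theorem pm_inj (σ : A ≃ₐ[ℚ] A) : Function.Injective (c.pm σ) := by
  intro i j h
  have h1 := c.pm_spec σ i
  rw [h, ← c.pm_spec σ j] at h1
  exact c.inj (σ.injective h1)

/-- the action on the sets of indices -/
noncomputable def im (σ : A ≃ₐ[ℚ] A) (S : Finset (Fin n)) : Finset (Fin n) := S.image (c.pm σ)

theorem card_im (σ : A ≃ₐ[ℚ] A) (S : Finset (Fin n)) : (c.im σ S).card = S.card :=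
  Finset.card_image_of_injective _ (c.pm_inj σ)

theorem im_insert (σ : A ≃ₐ[ℚ] A) (i : Fin n) (S : Finset (Fin n)) :
    c.im σ (insert i S) = insert (c.pm σ i) (c.im σ S) := Finset.image_insert _ _ _

theorem mem_im (σ : A ≃ₐ[ℚ] A) {i : Fin n} {S : Finset (Fin n)} : c.pm σ i ∈ c.im σ S ↔ i ∈ S := by
  unfold im
  rw [Finset.mem_image]
  constructor
  · rintro ⟨j, hj, h⟩
    rwa [← c.pm_inj σ h]
  · intro h
    exact ⟨i, h, rfl⟩

theorem pm_trans (σ τ : A ≃ₐ[ℚ] A) (i : Fin n) : c.pm (σ.trans τ) i = c.pm τ (c.pm σ i) :=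
  c.pm_eq (by rw [AlgEquiv.trans_apply, c.pm_spec, c.pm_spec])

theorem im_trans (σ τ : A ≃ₐ[ℚ] A) (S : Finset (Fin n)) : c.im (σ.trans τ) S = c.im τ (c.im σ S) := by
  unfold im
  rw [Finset.image_image]
  exact Finset.image_congr fun i _ => c.pm_trans σ τ i

theorem pm_refl (i : Fin n) : c.pm AlgEquiv.refl i = i := c.pm_eq rfl

theorem im_refl (S : Finset (Fin n)) : c.im AlgEquiv.refl S = S := by
  unfold im
  have : c.pm AlgEquiv.refl = id := funext c.pm_refl
  rw [this, Finset.image_id]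

/-- an automorphism moving `S0` to a given set -/
theorem exists_s (S : Finset (Fin n)) (h : S.card = k) : ∃ σ : A ≃ₐ[ℚ] A, c.im σ c.S0 = S := by
  obtain ⟨σ, hσ⟩ := c.hom S h
  refine ⟨σ, ?_⟩
  apply Finset.eq_of_subset_of_card_le
  · intro j hj
    obtain ⟨i, hi, rfl⟩ := Finset.mem_image.1 hj
    obtain ⟨j, hj, h1⟩ := hσ i hi
    rw [c.pm_eq h1]
    exact hj
  · rw [c.card_im, c.h0, h]

open Classical in
noncomputable def s (S : Finset (Fin n)) : A ≃ₐ[ℚ] A :=
  if h : S.card = k then (c.exists_s S h).choose else AlgEquiv.refl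

theorem s_spec {S : Finset (Fin n)} (h : S.card = k) : c.im (c.s S) c.S0 = S := by
  unfold s
  rw [dif_pos h]
  exact (c.exists_s S h).choose_spec

/-- the generators -/
noncomputable def e (S : Finset (Fin n)) (r : ℕ) : A := ∏ i ∈ S, ((r : A) - c.θ i)

theorem act_e (σ : A ≃ₐ[ℚ] A) (S : Finset (Fin n)) (r : ℕ) : σ (c.e S r) = c.e (c.im σ S) r := by
  unfold e im
  rw [map_prod, Finset.prod_image (fun x _ y _ h => c.pm_inj σ h)]
  refine Finset.prod_congr rfl fun i _ => ?_
  rw [map_sub, map_natCast, c.pm_spec]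

theorem e_int (S : Finset (Fin n)) (r : ℕ) : IsIntegral ℤ (c.e S r) :=
  IsIntegral.prod _ fun i _ => (by
    have : IsIntegral ℤ ((r : ℤ) : A) := isIntegral_algebraMap
    simpa using this : IsIntegral ℤ (r : A)).sub (c.int i)

/-- the field of the set `S0` -/
noncomputable def K : IntermediateField ℚ A :=
  IntermediateField.adjoin ℚ (Set.range fun r : Fin (n + 1) => c.e c.S0 r)

theorem e_mem (r : Fin (n + 1)) : c.e c.S0 r ∈ c.K := IntermediateField.subset_adjoin _ _ ⟨r, rfl⟩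

instance fd : FiniteDimensional ℚ c.K :=
  have : Finite (Set.range fun r : Fin (n + 1) => c.e c.S0 r) := Set.finite_range _
  IntermediateField.finiteDimensional_adjoin (fun x _ => Algebra.IsIntegral.isIntegral x)

instance nf : NumberField c.K where
  to_charZero := inferInstance
  to_finiteDimensional := c.fd

theorem eq_on {σ τ : A ≃ₐ[ℚ] A} (h : c.im σ c.S0 = c.im τ c.S0) {α : A} (hα : α ∈ c.K) :
    σ α = τ α := by
  unfold K at hα
  induction hα using IntermediateField.adjoin_induction with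
  | mem a ha =>
    obtain ⟨r, rfl⟩ := ha
    simp only
    rw [c.act_e, c.act_e, h]
  | algebraMap q => rw [AlgEquiv.commutes, AlgEquiv.commutes]
  | add a b _ _ ha hb => rw [map_add, map_add, ha, hb]
  | inv a _ ha => rw [map_inv₀, map_inv₀, ha]
  | mul a b _ _ ha hb => rw [map_mul, map_mul, ha, hb]

theorem eq_s (σ : A ≃ₐ[ℚ] A) {α : A} (hα : α ∈ c.K) : σ α = c.s (c.im σ c.S0) α :=
  c.eq_on (c.s_spec (by rw [c.card_im, c.h0])).symm hα

theorem act_s (τ : A ≃ₐ[ℚ] A) {S : Finset (Fin n)} (hS : S.card = k) {α : A} (hα : α ∈ c.K) :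
    τ (c.s S α) = c.s (c.im τ S) α := by
  have h1 : ((c.s S).trans τ) α = c.s (c.im τ S) α := by
    apply c.eq_on _ hα
    rw [c.im_trans, c.s_spec hS, c.s_spec (by rw [c.card_im, hS])]
  rw [← h1, AlgEquiv.trans_apply]

theorem s_ne_zero {α : A} (hα : α ≠ 0) (S : Finset (Fin n)) : c.s S α ≠ 0 := (_root_.map_ne_zero _).2 hα

/-- the sets are separated by the generators -/
theorem sep {S T : Finset (Fin n)} (h : ∀ r : Fin (n + 1), c.e S r = c.e T r) : S = T := by
  classical
  have hdeg : ∀ S : Finset (Fin n), (∏ i ∈ S, (X - C (c.θ i))).degree <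
      (((Finset.range (n + 1)).card : ℕ) : WithBot ℕ) := by
    intro S
    rw [degree_prod]
    simp only [degree_X_sub_C, Finset.sum_const, nsmul_eq_mul, mul_one, Finset.card_range]
    have : S.card < n + 1 := Nat.lt_succ_of_le ((Finset.card_le_univ S).trans (by rw [Fintype.card_fin]))
    exact_mod_cast this
  have h1 : ∏ i ∈ S, (X - C (c.θ i)) = ∏ i ∈ T, (X - C (c.θ i)) := by
    apply Polynomial.eq_of_degrees_lt_of_eval_finset_eq ((Finset.range (n + 1)).image (fun r : ℕ => (r : A)))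
    · rw [Finset.card_image_of_injective _ Nat.cast_injective]
      exact hdeg S
    · rw [Finset.card_image_of_injective _ Nat.cast_injective]
      exact hdeg T
    · intro x hx
      obtain ⟨r, hr, rfl⟩ := Finset.mem_image.1 hx
      rw [eval_prod, eval_prod]
      simp only [eval_sub, eval_X, eval_C]
      exact h ⟨r, Finset.mem_range.1 hr⟩
  have key : ∀ S T : Finset (Fin n), ∏ i ∈ S, (X - C (c.θ i)) = ∏ i ∈ T, (X - C (c.θ i)) → S ⊆ T := by
    intro S T h i hi
    have h2 := congrArg (Polynomial.eval (c.θ i)) h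
    rw [eval_prod, eval_prod, Finset.prod_eq_zero hi (by simp), eq_comm, Finset.prod_eq_zero_iff] at h2
    obtain ⟨j, hj, h3⟩ := h2
    simp only [eval_sub, eval_X, eval_C] at h3
    rwa [c.inj (sub_eq_zero.1 h3)]
  exact Finset.Subset.antisymm (key S T h1) (key T S h1.symm)

/-- every embedding of a subfield extends -/
theorem exists_ext (F : IntermediateField ℚ A) (φ : F →ₐ[ℚ] A) : ∃ σ : A ≃ₐ[ℚ] A, ∀ z : F, σ z = φ z := by
  have hn : Normal ℚ A := normal_A (A := A)
  have hK : Algebra.IsAlgebraic F A := Algebra.IsAlgebraic.tower_top (K := ℚ) F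
  obtain ⟨ψ, hψ⟩ := IsAlgClosed.surjective_domRestrict_of_isAlgebraic (K := ℚ) (L := F) (M := A) (E := A) φ
  refine ⟨AlgEquiv.ofBijective ψ (Algebra.IsAlgebraic.algHom_bijective ψ), ?_⟩
  intro z
  rw [← hψ]
  rfl

/-- The degree of `K`. -/
theorem finrank_K : finrank ℚ c.K = n.choose k := by
  classical
  rw [← AlgHom.card ℚ c.K A]
  have hcard : n.choose k = Nat.card {S : Finset (Fin n) // S ∈ Finset.powersetCard k Finset.univ} := by
    rw [Nat.card_eq_fintype_card, Fintype.card_coe, Finset.card_powersetCard, Finset.card_univ, Fintype.card_fin]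
  rw [hcard, eq_comm, ← Nat.card_eq_fintype_card]
  let F : {S : Finset (Fin n) // S ∈ Finset.powersetCard k Finset.univ} → (c.K →ₐ[ℚ] A) :=
    fun S => ((c.s S.1 : A →ₐ[ℚ] A)).comp c.K.val
  apply Nat.card_eq_of_bijective F
  constructor
  · intro S T hST
    apply Subtype.ext
    have hS := (Finset.mem_powersetCard.1 S.2).2
    have hT := (Finset.mem_powersetCard.1 T.2).2
    apply c.sep
    intro r
    have h1 := DFunLike.congr_fun hST ⟨c.e c.S0 r, c.e_mem r⟩
    have h2 : c.s S.1 (c.e c.S0 r) = c.s T.1 (c.e c.S0 r) := h1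
    rwa [c.act_e, c.act_e, c.s_spec hS, c.s_spec hT] at h2
  · intro φ
    obtain ⟨σ, hσ⟩ := exists_ext c.K φ
    refine ⟨⟨c.im σ c.S0, ?_⟩, ?_⟩
    · rw [Finset.mem_powersetCard]
      exact ⟨Finset.subset_univ _, by rw [c.card_im, c.h0]⟩
    · ext z
      rw [← hσ z]
      exact (c.eq_s σ z.2).symm

/-- the splitting field -/
noncomputable def L : IntermediateField ℚ A := IntermediateField.adjoin ℚ (Set.range c.θ)

theorem θ_mem (i : Fin n) : c.θ i ∈ c.L := IntermediateField.subset_adjoin _ _ ⟨i, rfl⟩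

instance fdL : FiniteDimensional ℚ c.L :=
  have : Finite (Set.range c.θ) := Set.finite_range _
  IntermediateField.finiteDimensional_adjoin (fun x _ => Algebra.IsIntegral.isIntegral x)

instance nfL : NumberField c.L where
  to_charZero := inferInstance
  to_finiteDimensional := c.fdL

theorem act_L (σ : A ≃ₐ[ℚ] A) {x : A} (hx : x ∈ c.L) : σ x ∈ c.L := by
  have h1 : c.L.map (σ : A →ₐ[ℚ] A) ≤ c.L := by
    unfold L
    rw [IntermediateField.adjoin_map, IntermediateField.adjoin_le_iff]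
    rintro z ⟨_, ⟨i, rfl⟩, rfl⟩
    show σ (c.θ i) ∈ _
    rw [c.pm_spec]
    exact c.θ_mem _
  exact h1 ⟨x, hx, rfl⟩

theorem e_mem_L (S : Finset (Fin n)) (r : ℕ) : c.e S r ∈ c.L :=
  prod_mem fun i _ => sub_mem (natCast_mem _ r) (c.θ_mem i)

theorem K_le_L : c.K ≤ c.L := by
  unfold K
  rw [IntermediateField.adjoin_le_iff]
  rintro _ ⟨r, rfl⟩
  exact c.e_mem_L _ _

theorem s_mem {α : A} (hα : α ∈ c.K) (S : Finset (Fin n)) : c.s S α ∈ c.L := c.act_L _ (c.K_le_L hα)

theorem finrank_L_le : finrank ℚ c.L ≤ n ^ n := by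
  classical
  rw [← AlgHom.card ℚ c.L A]
  have h1 : ∀ φ : c.L →ₐ[ℚ] A, ∃ f : Fin n → Fin n, ∀ i, φ ⟨c.θ i, c.θ_mem i⟩ = c.θ (f i) := by
    intro φ
    obtain ⟨σ, hσ⟩ := exists_ext c.L φ
    exact ⟨c.pm σ, fun i => by rw [← hσ]; exact c.pm_spec σ i⟩
  choose F hF using h1
  have hinj : Function.Injective F := by
    intro φ ψ h
    obtain ⟨σ, hσ⟩ := exists_ext c.L φ
    obtain ⟨τ, hτ⟩ := exists_ext c.L ψ
    ext z
    rw [← hσ z, ← hτ z]
    have hz : (z : A) ∈ IntermediateField.adjoin ℚ (Set.range c.θ) := z.2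
    generalize (z : A) = w at hz
    induction hz using IntermediateField.adjoin_induction with
    | mem a ha =>
      obtain ⟨i, rfl⟩ := ha
      have h2 := hσ ⟨c.θ i, c.θ_mem i⟩
      have h3 := hτ ⟨c.θ i, c.θ_mem i⟩
      rw [hF] at h2 h3
      rw [h2, h3, h]
    | algebraMap q => rw [AlgEquiv.commutes, AlgEquiv.commutes]
    | add a b _ _ ha hb => rw [map_add, map_add, ha, hb]
    | inv a _ ha => rw [map_inv₀, map_inv₀, ha]
    | mul a b _ _ ha hb => rw [map_mul, map_mul, ha, hb]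
  calc Fintype.card (c.L →ₐ[ℚ] A) ≤ Fintype.card (Fin n → Fin n) := Fintype.card_le_of_injective F hinj
    _ = n ^ n := by simp

end

end Cf

end Pool.Agent.H515.KS
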