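import Pool.Agent.H515.KS.Field
import Pool.Agent.H450.GG.Rel

set_option autoImplicit false
set_option linter.unusedSectionVars false

namespace Pool.Agent.H515.KS

open Polynomial Module NumberField Pool.Agent.H450.GG
open scoped nonZeroDivisors

section
variable {R : Type*} [CommRing R] [IsDomain R] {w : R →*₀ ℝ} (hw : IsNA w)
include hw

theorem cont_span_le {S : Set R} {t : ℝ} (ht : 0 ≤ t) (h : ∀ x ∈ S, w x ≤ t) : cont w (Ideal.span S) ≤ t := by
  apply cont_le hw
  intro z hz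
  induction hz using Submodule.span_induction with
  | mem a ha => exact h a ha
  | zero => rw [map_zero]; exact ht
  | add a b _ _ ha hb => exact (hw.na a b).trans (max_le ha hb)
  | smul a b _ hb =>
    rw [smul_eq_mul, map_mul]
    calc w a * w b ≤ 1 * t := mul_le_mul (hw.le a) hb (hw.nonneg b) zero_le_one
      _ = t := one_mul t

theorem cont_le_one (I : Ideal R) : cont w I ≤ 1 := cont_le hw fun x _ => hw.le x

theorem cont_eq_one {I : Ideal R} {x : R} (hx : x ∈ I) (h : w x = 1) : cont w I = 1 :=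
  le_antisymm (cont_le_one hw I) (by rw [← h]; exact le_cont hw hx)

theorem cont_sup (I J : Ideal R) : cont w (I ⊔ J) = max (cont w I) (cont w J) := by
  apply le_antisymm
  · apply cont_le hw
    intro z hz
    obtain ⟨x, hx, y, hy, rfl⟩ := Submodule.mem_sup.1 hz
    exact (hw.na x y).trans (max_le_max (le_cont hw hx) (le_cont hw hy))
  · apply max_le
    · exact cont_le hw fun x hx => le_cont hw (Ideal.mem_sup_left hx)
    · exact cont_le hw fun x hx => le_cont hw (Ideal.mem_sup_right hx)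

end

/-- congruent products -/
theorem W_prod_sub {A : Type} [Field A] [CharZero A] [Algebra.IsAlgebraic ℚ A] (p : ℕ) [Fact p.Prime]
    {ι : Type} (s : Finset ι) (x y : ι → A) (t : ℝ) (ht : 0 ≤ t) (hx : ∀ i ∈ s, W p (x i) ≤ 1)
    (hy : ∀ i ∈ s, W p (y i) ≤ 1) (h : ∀ i ∈ s, W p (x i - y i) ≤ t) :
    W p (∏ i ∈ s, x i - ∏ i ∈ s, y i) ≤ t := by
  classical
  induction s using Finset.induction_on with
  | empty => simpa [W_zero] using ht
  | insert a s ha ih =>
    rw [Finset.prod_insert ha, Finset.prod_insert ha]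
    have h1 := ih (fun i hi => hx i (Finset.mem_insert_of_mem hi)) (fun i hi => hy i (Finset.mem_insert_of_mem hi))
      (fun i hi => h i (Finset.mem_insert_of_mem hi))
    have h2 : x a * ∏ i ∈ s, x i - y a * ∏ i ∈ s, y i =
        x a * (∏ i ∈ s, x i - ∏ i ∈ s, y i) + (x a - y a) * ∏ i ∈ s, y i := by ring
    have h3 : W p (∏ i ∈ s, y i) ≤ 1 := by
      rw [W_prod]
      exact Finset.prod_le_one (fun i _ => W_nonneg p _) (fun i hi => hy i (Finset.mem_insert_of_mem hi))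
    rw [h2]
    refine (W_add_le p _ _).trans (max_le ?_ ?_)
    · rw [W_mul]
      calc W p (x a) * W p (∏ i ∈ s, x i - ∏ i ∈ s, y i) ≤ 1 * t :=
            mul_le_mul (hx a (Finset.mem_insert_self a s)) h1 (W_nonneg p _) zero_le_one
        _ = t := one_mul t
    · rw [W_mul]
      calc W p (x a - y a) * W p (∏ i ∈ s, y i) ≤ t * 1 :=
            mul_le_mul (h a (Finset.mem_insert_self a s)) h3 (W_nonneg p _) ht
        _ = t := mul_one t

/-- the approximate values of the roots -/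
noncomputable def ep {n φ : ℕ} (a : Fin φ → Fin n) (i : Fin n) : ℕ :=
  open Classical in if h : ∃ j, a j = i then (h.choose : ℕ) + 1 else 0

theorem ep_a {n φ : ℕ} {a : Fin φ → Fin n} (ha : Function.Injective a) (j : Fin φ) : ep a (a j) = (j : ℕ) + 1 := by
  have h : ∃ j', a j' = a j := ⟨j, rfl⟩
  unfold ep
  rw [dif_pos h, ha h.choose_spec]

theorem ep_small {n φ : ℕ} {a : Fin φ → Fin n} {i : Fin n} (h : ∀ j, i ≠ a j) : ep a i = 0 := by
  unfold ep
  rw [dif_neg]
  rintro ⟨j, hj⟩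
  exact h j hj.symm

theorem ep_le {n φ : ℕ} (a : Fin φ → Fin n) (i : Fin n) : ep a i ≤ φ := by
  unfold ep
  split_ifs with h
  · exact h.choose.2
  · exact Nat.zero_le _

/-- The prime `p` has type `(M, φ)`: the roots number `a 0, …, a (φ - 1)` are near `1, …, φ`, the other are small. -/
structure Ty {A : Type} [Field A] [CharZero A] [Algebra.IsAlgebraic ℚ A] {n k : ℕ} (c : Cf A n k) (M φ : ℕ)
    (p : ℕ) [Fact p.Prime] (a : Fin φ → Fin n) : Prop where
  big : 2 * (n + 1) ^ (n + 1) < p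
  inj : Function.Injective a
  near : ∀ j, W p (c.θ (a j) - (((j : ℕ) + 1 : ℕ) : A)) ≤ (p : ℝ)⁻¹
  qa : ∀ j, c.θ (a j) ∈ Q A p
  small : ∀ i, (∀ j, i ≠ a j) → W p (c.θ i) ^ M = (p : ℝ)⁻¹

/-- the fixed roots -/
def fx {n φ : ℕ} (a : Fin φ → Fin n) : Finset (Fin n) := Finset.univ.image a

theorem mem_fx {n φ : ℕ} {a : Fin φ → Fin n} {i : Fin n} : i ∈ fx a ↔ ∃ j, a j = i := by
  simp [fx]

theorem not_mem_fx {n φ : ℕ} {a : Fin φ → Fin n} {i : Fin n} : i ∉ fx a ↔ ∀ j, i ≠ a j := by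
  rw [mem_fx]
  push Not
  exact ⟨fun h j => (h j).symm, fun h j => (h j).symm⟩

/-- the reduction of the generators -/
noncomputable def cv {n φ : ℕ} (k : ℕ) (a : Fin φ → Fin n) (F : Finset (Fin n)) (r : ℕ) : ℤ :=
  (r : ℤ) ^ (k - F.card) * ∏ i ∈ F, ((r : ℤ) - ep a i)

theorem cv_eq {n φ k : ℕ} (a : Fin φ → Fin n) {S : Finset (Fin n)} (hS : S.card = k) (r : ℕ) :
    ∏ i ∈ S, ((r : ℤ) - ep a i) = cv k a (S ∩ fx a) r := by
  unfold cv
  rw [← Finset.prod_inter_mul_prod_sdiff S (fx a), mul_comm]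
  congr 1
  have h1 : ∀ i ∈ S \ fx a, ((r : ℤ) - ep a i) = r := by
    intro i hi
    rw [ep_small (not_mem_fx.1 (Finset.mem_sdiff.1 hi).2)]
    simp
  rw [Finset.prod_congr rfl h1, Finset.prod_const]
  congr 1
  have h2 := Finset.card_inter_add_card_sdiff S (fx a)
  omega

theorem abs_prod_le {ι : Type} (s : Finset ι) (f : ι → ℤ) (B : ℕ) (h : ∀ i ∈ s, (f i).natAbs ≤ B) :
    (∏ i ∈ s, f i).natAbs ≤ B ^ s.card := by
  classical
  induction s using Finset.induction_on with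
  | empty => simp
  | insert a s ha ih =>
    rw [Finset.prod_insert ha, Int.natAbs_mul, Finset.card_insert_of_notMem ha, pow_succ, mul_comm]
    exact Nat.mul_le_mul (ih fun i hi => h i (Finset.mem_insert_of_mem hi)) (h a (Finset.mem_insert_self a s))

/-- The types are separated. -/
theorem cv_sep {n φ k : ℕ} {a : Fin φ → Fin n} (ha : Function.Injective a) (hk : k ≤ n)
    {F G : Finset (Fin n)} (hF : F ⊆ fx a) (hG : G ⊆ fx a) (hFk : F.card ≤ k) (hGk : G.card ≤ k)
    (h : ∀ r : Fin (n + 1), cv k a F r = cv k a G r) : F = G := by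
  classical
  have hmon : ∀ F : Finset (Fin n), (X ^ (k - F.card) * ∏ i ∈ F, (X - C ((ep a i : ℕ) : ℤ)) : ℤ[X]).Monic :=
    fun F => (monic_X_pow _).mul (monic_prod_of_monic _ _ fun i _ => monic_X_sub_C _)
  have hnd : ∀ F : Finset (Fin n), F.card ≤ k →
      (X ^ (k - F.card) * ∏ i ∈ F, (X - C ((ep a i : ℕ) : ℤ)) : ℤ[X]).natDegree = k := by
    intro F hF
    rw [(monic_X_pow _).natDegree_mul (monic_prod_of_monic _ _ fun i _ => monic_X_sub_C _), natDegree_X_pow,
      natDegree_prod_of_monic _ _ fun i _ => monic_X_sub_C _,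
      Finset.sum_congr rfl fun i _ => natDegree_X_sub_C _]
    simp
    omega
  have hdeg : ∀ F : Finset (Fin n), F.card ≤ k →
      (X ^ (k - F.card) * ∏ i ∈ F, (X - C ((ep a i : ℕ) : ℤ)) : ℤ[X]).degree <
      (((Finset.range (n + 1)).card : ℕ) : WithBot ℕ) := by
    intro F hF
    rw [degree_eq_natDegree (hmon F).ne_zero, hnd F hF, Finset.card_range]
    exact_mod_cast Nat.lt_succ_of_le hk
  have h1 : (X ^ (k - F.card) * ∏ i ∈ F, (X - C ((ep a i : ℕ) : ℤ)) : ℤ[X]) =
      X ^ (k - G.card) * ∏ i ∈ G, (X - C ((ep a i : ℕ) : ℤ)) := by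
    apply Polynomial.eq_of_degrees_lt_of_eval_finset_eq ((Finset.range (n + 1)).image (fun r : ℕ => (r : ℤ)))
    · rw [Finset.card_image_of_injective _ Nat.cast_injective]
      exact hdeg F hFk
    · rw [Finset.card_image_of_injective _ Nat.cast_injective]
      exact hdeg G hGk
    · intro x hx
      obtain ⟨r, hr, rfl⟩ := Finset.mem_image.1 hx
      rw [eval_mul, eval_mul, eval_prod, eval_prod]
      simp only [eval_sub, eval_X, eval_C, eval_pow]
      exact h ⟨r, Finset.mem_range.1 hr⟩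
  have key : ∀ F G : Finset (Fin n), F ⊆ fx a → G ⊆ fx a →
      (X ^ (k - F.card) * ∏ i ∈ F, (X - C ((ep a i : ℕ) : ℤ)) : ℤ[X]) =
      X ^ (k - G.card) * ∏ i ∈ G, (X - C ((ep a i : ℕ) : ℤ)) → F ⊆ G := by
    intro F G hF hG h i hi
    have h2 := congrArg (Polynomial.eval ((ep a i : ℕ) : ℤ)) h
    rw [eval_mul, eval_mul, eval_prod, eval_prod, Finset.prod_eq_zero hi (by simp), mul_zero, eq_comm,
      mul_eq_zero] at h2
    obtain ⟨j, rfl⟩ := mem_fx.1 (hF hi)
    rw [ep_a ha] at h2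
    rcases h2 with h2 | h2
    · rw [eval_pow, eval_X] at h2
      exact absurd (eq_zero_of_pow_eq_zero h2) (by positivity)
    · rw [Finset.prod_eq_zero_iff] at h2
      obtain ⟨l, hl, h3⟩ := h2
      obtain ⟨l', rfl⟩ := mem_fx.1 (hG hl)
      rw [ep_a ha] at h3
      simp only [eval_sub, eval_X, eval_C] at h3
      have h4 : j = l' := by
        apply Fin.ext
        push_cast at h3
        omega
      rw [h4]
      exact hl
  exact Finset.Subset.antisymm (key F G hF hG h1) (key G F hG hF h1.symm)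

theorem cv_abs {n φ k : ℕ} (a : Fin φ → Fin n) (hφ : φ ≤ n) (hk : k ≤ n) (F : Finset (Fin n)) (hF : F.card ≤ k)
    (r : Fin (n + 1)) : (cv k a F r).natAbs ≤ (n + 1) ^ (n + 1) := by
  unfold cv
  rw [Int.natAbs_mul, Int.natAbs_pow]
  have h1 : (∏ i ∈ F, (((r : ℕ) : ℤ) - ep a i)).natAbs ≤ (n + 1) ^ F.card := by
    apply abs_prod_le
    intro i _
    have := ep_le a i
    have := r.2
    omega
  have h2 : (((r : ℕ) : ℤ).natAbs) ^ (k - F.card) ≤ (n + 1) ^ (k - F.card) := by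
    apply Nat.pow_le_pow_left
    have := r.2
    omega
  calc _ ≤ (n + 1) ^ (k - F.card) * (n + 1) ^ F.card := Nat.mul_le_mul h2 h1
    _ = (n + 1) ^ k := by rw [← pow_add]; congr 1; omega
    _ ≤ (n + 1) ^ (n + 1) := Nat.pow_le_pow_right (by omega) (by omega)

namespace Cf

section
variable {A : Type} [Field A] [CharZero A] [Algebra.IsAlgebraic ℚ A] [IsAlgClosed A] {n k : ℕ} (c : Cf A n k)

theorem of_int {F : IntermediateField ℚ A} {z : F} (h : IsIntegral ℤ (z : A)) : IsIntegral ℤ z :=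
  (isIntegral_algHom_iff (IntermediateField.val F |>.restrictScalars ℤ) Subtype.val_injective).1 h

theorem int_of {F : IntermediateField ℚ A} {z : F} (hz : IsIntegral ℤ z) : IsIntegral ℤ (z : A) :=
  hz.map (IntermediateField.val F |>.restrictScalars ℤ)

/-- integral generators -/
noncomputable def eo (r : Fin (n + 1)) : 𝓞 c.K := ⟨⟨c.e c.S0 r, c.e_mem r⟩, of_int (c.e_int _ _)⟩

/-- the absolute values of `K` -/
noncomputable def wv (p : ℕ) [Fact p.Prime] (S : Finset (Fin n)) : 𝓞 c.K →*₀ ℝ where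
  toFun z := W p (c.s S ((z : c.K) : A))
  map_zero' := by simp [W_zero]
  map_one' := by simp [W_one]
  map_mul' := by intro x y; simp [W_mul]

theorem wv_apply (p : ℕ) [Fact p.Prime] (S : Finset (Fin n)) (z : 𝓞 c.K) :
    c.wv p S z = W p (c.s S ((z : c.K) : A)) := rfl

theorem wv_na (p : ℕ) [Fact p.Prime] (S : Finset (Fin n)) : IsNA (c.wv p S) where
  na x y := by
    rw [wv_apply, wv_apply, wv_apply]
    push_cast
    rw [map_add]
    exact W_add_le p _ _
  le x := by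
    rw [wv_apply]
    apply W_integral
    exact (int_of x.2).map ((c.s S : A →ₐ[ℚ] A).restrictScalars ℤ)
  nonneg x := W_nonneg p _
  ne x hx := by
    rw [wv_apply]
    intro h
    rw [W_eq_zero, map_eq_zero] at h
    apply hx
    have h1 : (x : c.K) = 0 := Subtype.ext h
    exact_mod_cast h1

theorem wv_e (p : ℕ) [Fact p.Prime] {S : Finset (Fin n)} (hS : S.card = k) (r : Fin (n + 1)) (z : ℤ) :
    c.wv p S (c.eo r - z) = W p (c.e S r - z) := by
  rw [wv_apply]
  push_cast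
  have h1 : ((c.eo r : c.K) : A) = c.e c.S0 r := rfl
  rw [h1, map_sub, c.act_e, c.s_spec hS]
  congr 2
  simp

theorem wv_nat (p : ℕ) [Fact p.Prime] (S : Finset (Fin n)) (q : ℕ) : c.wv p S (q : 𝓞 c.K) = W p (q : A) := by
  rw [wv_apply]
  congr 1
  push_cast
  exact map_natCast _ _

theorem W_theta_le (p : ℕ) [Fact p.Prime] (i : Fin n) : W p (c.θ i) ≤ 1 := W_integral p (c.int i)

theorem wv_other (p q : ℕ) [Fact p.Prime] (hq : q.Prime) (hpq : p ≠ q) (S : Finset (Fin n)) :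
    c.wv p S (q : 𝓞 c.K) = 1 := by
  rw [wv_nat]
  have := W_int_eq (A := A) p (z := (q : ℤ)) (by
    intro h
    have h2 : p ∣ q := by exact_mod_cast h
    rcases (Nat.dvd_prime hq).1 h2 with h3 | h3
    · exact (Fact.out : p.Prime).one_lt.ne' h3
    · exact hpq h3)
  simpa using this

/-- the ideal detecting the type `F` -/
noncomputable def J {φ : ℕ} (a : Fin φ → Fin n) (p : ℕ) (F : Finset (Fin n)) : Ideal (𝓞 c.K) :=
  Ideal.span ({(p : 𝓞 c.K)} ∪ Set.range fun r : Fin (n + 1) => c.eo r - ((cv k a F r : ℤ) : 𝓞 c.K))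

theorem p_mem_J {φ : ℕ} (a : Fin φ → Fin n) (p : ℕ) (F : Finset (Fin n)) : (p : 𝓞 c.K) ∈ c.J a p F :=
  Ideal.subset_span (by simp)

/-- the ideals `E` and `Z` -/
noncomputable def E {φ : ℕ} (a : Fin φ → Fin n) (M p : ℕ) (F : Finset (Fin n)) : Ideal (𝓞 c.K) :=
  Ideal.span {(p : 𝓞 c.K)} ⊔ c.J a p F ^ M

noncomputable def Z {φ : ℕ} (a : Fin φ → Fin n) (p : ℕ) (F : Finset (Fin n)) : Ideal (𝓞 c.K) :=
  Ideal.span {c.eo 0} ⊔ c.J a p F ^ (k - F.card)

theorem J_other {φ : ℕ} (a : Fin φ → Fin n) (p q : ℕ) [Fact p.Prime] (hq : q.Prime) (hpq : p ≠ q)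
    (F S : Finset (Fin n)) : cont (c.wv p S) (c.J a q F) = 1 :=
  cont_eq_one (c.wv_na p S) (c.p_mem_J a q F) (c.wv_other p q hq hpq S)

theorem E_other {φ : ℕ} (a : Fin φ → Fin n) (M p q : ℕ) [Fact p.Prime] (hq : q.Prime) (hpq : p ≠ q)
    (F S : Finset (Fin n)) : cont (c.wv p S) (c.E a M q F) = 1 := by
  unfold E
  rw [cont_sup (c.wv_na p S), cont_pow (c.wv_na p S), c.J_other a p q hq hpq, one_pow]
  exact max_eq_right (cont_le_one (c.wv_na p S) _)

theorem Z_other {φ : ℕ} (a : Fin φ → Fin n) (p q : ℕ) [Fact p.Prime] (hq : q.Prime) (hpq : p ≠ q)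
    (F S : Finset (Fin n)) : cont (c.wv p S) (c.Z a q F) = 1 := by
  unfold Z
  rw [cont_sup (c.wv_na p S), cont_pow (c.wv_na p S), c.J_other a p q hq hpq, one_pow]
  exact max_eq_right (cont_le_one (c.wv_na p S) _)

theorem E_ne {φ : ℕ} (a : Fin φ → Fin n) (M p : ℕ) (hp : p ≠ 0) (F : Finset (Fin n)) : c.E a M p F ≠ 0 := by
  intro h
  have h1 : (p : 𝓞 c.K) ∈ c.E a M p F := Ideal.mem_sup_left (Ideal.subset_span rfl)
  rw [h] at h1
  have h2 : (p : 𝓞 c.K) = 0 := by simpa using h1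
  exact hp (by exact_mod_cast h2)

theorem Z_ne {φ : ℕ} (a : Fin φ → Fin n) (p : ℕ) (hp : p ≠ 0) (F : Finset (Fin n)) : c.Z a p F ≠ 0 := by
  intro h
  have h1 : (p : 𝓞 c.K) ^ (k - F.card) ∈ c.Z a p F :=
    Ideal.mem_sup_right (Ideal.pow_mem_pow (c.p_mem_J a p F) _)
  rw [h] at h1
  have h2 : (p : 𝓞 c.K) ^ (k - F.card) = 0 := by simpa using h1
  have h3 : (p : 𝓞 c.K) = 0 := eq_zero_of_pow_eq_zero h2
  exact hp (by exact_mod_cast h3)

variable {c} {M φ p : ℕ} [Fact p.Prime] {a : Fin φ → Fin n} (hA : Ty c M φ p a)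
include hA

theorem phi_le : φ ≤ n := by
  have := Fintype.card_le_of_injective a hA.inj
  simpa using this

theorem n_lt : n + 1 < p := by
  have h1 := hA.big
  have h2 : n + 1 ≤ (n + 1) ^ (n + 1) := Nat.le_self_pow (by omega) _
  omega

theorem W_small (hM : M ≠ 0) {i : Fin n} (h : i ∉ fx a) : W p (c.θ i) = rho M p := by
  have h := hA.small i (not_mem_fx.1 h)
  rw [← rho_pow hM p] at h
  exact (pow_left_inj₀ (W_nonneg p _) (rho_pos M p).le hM).1 h

theorem W_fix {i : Fin n} (h : i ∈ fx a) : W p (c.θ i) = 1 := by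
  obtain ⟨j, rfl⟩ := mem_fx.1 h
  have h1 := W_int_sub p (x := c.θ (a j)) (c := (((j : ℕ) + 1 : ℕ) : ℤ)) (d := 0) (by
    have h := hA.near j
    simp only [Int.cast_natCast]
    exact lt_of_le_of_lt h (inv_p_lt p)) (p_not_dvd_of_abs p (by push_cast; omega) (by
      have := phi_le hA
      have := n_lt hA
      have := j.2
      omega))
  simpa using h1

theorem W_near (hM : M ≠ 0) (i : Fin n) : W p (c.θ i - (ep a i : ℕ)) ≤ rho M p := by
  by_cases h : i ∈ fx a
  · obtain ⟨j, rfl⟩ := mem_fx.1 h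
    rw [ep_a hA.inj]
    exact (hA.near j).trans (le_rho hM p)
  · rw [ep_small (not_mem_fx.1 h), Nat.cast_zero, sub_zero, W_small hA hM h]

theorem W_e (hM : M ≠ 0) {S : Finset (Fin n)} (hS : S.card = k) (r : ℕ) :
    W p (c.e S r - ((cv k a (S ∩ fx a) r : ℤ) : A)) ≤ rho M p := by
  rw [← cv_eq a hS, Int.cast_prod]
  unfold e
  apply W_prod_sub p _ _ _ _ (rho_pos M p).le
  · intro i _
    refine (W_sub_le p _ _).trans (max_le ?_ (c.W_theta_le p i))
    have := W_int_le (A := A) p (r : ℤ)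
    simpa using this
  · intro i _
    exact W_int_le p _
  · intro i _
    have h1 : (r : A) - c.θ i - ((((r : ℤ) - ep a i : ℤ)) : A) = -(c.θ i - (ep a i : ℕ)) := by
      push_cast
      ring
    rw [h1, W_neg]
    exact W_near hA hM i

theorem W_e0 (hM : M ≠ 0) {S : Finset (Fin n)} (hS : S.card = k) :
    W p (c.e S 0) = rho M p ^ (k - (S ∩ fx a).card) := by
  unfold e
  rw [W_prod, ← Finset.prod_inter_mul_prod_sdiff S (fx a)]
  have h1 : ∀ i, W p (((0 : ℕ) : A) - c.θ i) = W p (c.θ i) := by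
    intro i
    rw [Nat.cast_zero, zero_sub, W_neg]
  simp only [h1]
  rw [Finset.prod_congr rfl (fun i hi => W_fix hA (Finset.mem_inter.1 hi).2),
    Finset.prod_congr rfl (fun i hi => W_small hA hM (Finset.mem_sdiff.1 hi).2)]
  rw [Finset.prod_const_one, one_mul, Finset.prod_const]
  congr 1
  have h2 := Finset.card_inter_add_card_sdiff S (fx a)
  omega

theorem J_same (hM : M ≠ 0) {S : Finset (Fin n)} (hS : S.card = k) :
    cont (c.wv p S) (c.J a p (S ∩ fx a)) ≤ rho M p := by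
  unfold J
  apply cont_span_le (c.wv_na p S) (rho_pos M p).le
  rintro x (hx | ⟨r, rfl⟩)
  · rw [Set.mem_singleton_iff] at hx
    rw [hx, wv_nat, W_p]
    exact le_rho hM p
  · simp only
    rw [c.wv_e p hS]
    exact W_e hA hM hS r

theorem J_diff (hM : M ≠ 0) {S F : Finset (Fin n)} (hS : S.card = k) (hF : F ⊆ fx a) (hFk : F.card ≤ k)
    (h : F ≠ S ∩ fx a) : cont (c.wv p S) (c.J a p F) = 1 := by
  have hk : k ≤ n := by
    rw [← hS]
    exact (Finset.card_le_univ S).trans (by rw [Fintype.card_fin])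
  have hSk : (S ∩ fx a).card ≤ k := by
    rw [← hS]
    exact Finset.card_le_card Finset.inter_subset_left
  obtain ⟨r, hr⟩ : ∃ r : Fin (n + 1), cv k a F r ≠ cv k a (S ∩ fx a) r := by
    by_contra hcon
    push Not at hcon
    exact h (cv_sep hA.inj hk hF Finset.inter_subset_right hFk hSk hcon)
  apply cont_eq_one (c.wv_na p S) (x := c.eo r - ((cv k a F r : ℤ) : 𝓞 c.K))
  · exact Ideal.subset_span (Or.inr ⟨r, rfl⟩)
  · rw [c.wv_e p hS]
    have h1 : W p (((cv k a (S ∩ fx a) r - cv k a F r : ℤ)) : A) = 1 := by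
      apply W_int_eq
      apply p_not_dvd_of_abs p (sub_ne_zero.2 hr.symm)
      have h2 := cv_abs a (phi_le hA) hk F hFk r
      have h3 := cv_abs a (phi_le hA) hk _ hSk r
      have h4 := hA.big
      omega
    have h2 : c.e S r - ((cv k a F r : ℤ) : A) =
        ((cv k a (S ∩ fx a) r - cv k a F r : ℤ) : A) + (c.e S r - ((cv k a (S ∩ fx a) r : ℤ) : A)) := by
      push_cast
      ring
    rw [h2, W_add_eq p, h1]
    rw [h1]
    exact lt_of_le_of_lt (W_e hA hM hS r) (rho_lt hM p)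

theorem E_same (hM : M ≠ 0) {S : Finset (Fin n)} (hS : S.card = k) :
    cont (c.wv p S) (c.E a M p (S ∩ fx a)) = rho M p ^ M := by
  unfold E
  rw [cont_sup (c.wv_na p S), cont_pow (c.wv_na p S), cont_singleton (c.wv_na p S), wv_nat, W_p, rho_pow hM]
  apply max_eq_left
  rw [← rho_pow hM p]
  exact pow_le_pow_left₀ (cont_nonneg (c.wv_na p S) _) (J_same hA hM hS) M

theorem E_diff (hM : M ≠ 0) {S F : Finset (Fin n)} (hS : S.card = k) (hF : F ⊆ fx a) (hFk : F.card ≤ k)
    (h : F ≠ S ∩ fx a) : cont (c.wv p S) (c.E a M p F) = 1 := by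
  unfold E
  rw [cont_sup (c.wv_na p S), cont_pow (c.wv_na p S), J_diff hA hM hS hF hFk h, one_pow]
  exact max_eq_right (cont_le_one (c.wv_na p S) _)

theorem Z_same (hM : M ≠ 0) {S : Finset (Fin n)} (hS : S.card = k) :
    cont (c.wv p S) (c.Z a p (S ∩ fx a)) = rho M p ^ (k - (S ∩ fx a).card) := by
  unfold Z
  rw [cont_sup (c.wv_na p S), cont_pow (c.wv_na p S), cont_singleton (c.wv_na p S)]
  have h1 := c.wv_e p hS 0 0
  rw [Int.cast_zero, Int.cast_zero, sub_zero, sub_zero] at h1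
  rw [h1, Fin.val_zero, W_e0 hA hM hS]
  apply max_eq_left
  exact pow_le_pow_left₀ (cont_nonneg (c.wv_na p S) _) (J_same hA hM hS) _

theorem Z_diff (hM : M ≠ 0) {S F : Finset (Fin n)} (hS : S.card = k) (hF : F ⊆ fx a) (hFk : F.card ≤ k)
    (h : F ≠ S ∩ fx a) : cont (c.wv p S) (c.Z a p F) = 1 := by
  unfold Z
  rw [cont_sup (c.wv_na p S), cont_pow (c.wv_na p S), J_diff hA hM hS hF hFk h, one_pow]
  exact max_eq_right (cont_le_one (c.wv_na p S) _)

/-- Ideals with given contents. -/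
theorem exists_ideals (hM : M ≠ 0) (G : Finset (Fin n) → ℤ)
    (hG : ∀ F, F ⊆ fx a → F.card ≤ k → (Nat.gcd M (k - F.card) : ℤ) ∣ G F) :
    ∃ B C : (Ideal (𝓞 c.K))⁰, (∀ S, S.card = k → cont (c.wv p S) (B : Ideal (𝓞 c.K)) / cont (c.wv p S) (C : Ideal (𝓞 c.K)) =
        rho M p ^ G (S ∩ fx a)) ∧
      ∀ (q : ℕ) [Fact q.Prime], p ≠ q → ∀ S, cont (c.wv q S) (B : Ideal (𝓞 c.K)) = 1 ∧
        cont (c.wv q S) (C : Ideal (𝓞 c.K)) = 1 := by
  classical
  have hp : p.Prime := Fact.out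
  have hxy : ∀ F, ∃ xy : ℤ × ℤ, F ⊆ fx a → F.card ≤ k → G F = xy.1 * (k - F.card : ℕ) + xy.2 * M := by
    intro F
    by_cases h : F ⊆ fx a ∧ F.card ≤ k
    · obtain ⟨t, ht⟩ := hG F h.1 h.2
      refine ⟨(t * Nat.gcdB M (k - F.card), t * Nat.gcdA M (k - F.card)), fun _ _ => ?_⟩
      rw [ht, Nat.gcd_eq_gcd_ab]
      ring
    · exact ⟨0, fun h1 h2 => absurd ⟨h1, h2⟩ h⟩
  choose xy hxy using hxy
  let T : Finset (Finset (Fin n)) := (fx a).powerset.filter (fun F => F.card ≤ k)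
  let I : Bool → Ideal (𝓞 c.K) := fun b => ∏ F ∈ T,
    (c.Z a p F ^ ((if b then (xy F).1 else -(xy F).1)).toNat *
      c.E a M p F ^ ((if b then (xy F).2 else -(xy F).2)).toNat)
  have hI : ∀ b, I b ∈ (Ideal (𝓞 c.K))⁰ := by
    intro b
    rw [mem_nonZeroDivisors_iff_ne_zero]
    apply Finset.prod_ne_zero_iff.2
    intro F _
    exact mul_ne_zero (pow_ne_zero _ (c.Z_ne a p hp.ne_zero F)) (pow_ne_zero _ (c.E_ne a M p hp.ne_zero F))
  refine ⟨⟨I true, hI true⟩, ⟨I false, hI false⟩, ?_, ?_⟩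
  · intro S hS
    have hw := c.wv_na p S
    have hST : S ∩ fx a ∈ T := by
      simp only [T, Finset.mem_filter, Finset.mem_powerset]
      exact ⟨Finset.inter_subset_right, by rw [← hS]; exact Finset.card_le_card Finset.inter_subset_left⟩
    have hc : ∀ b, cont (c.wv p S) (I b) =
        (rho M p ^ (k - (S ∩ fx a).card)) ^ ((if b then (xy (S ∩ fx a)).1 else -(xy (S ∩ fx a)).1)).toNat *
        (rho M p ^ M) ^ ((if b then (xy (S ∩ fx a)).2 else -(xy (S ∩ fx a)).2)).toNat := by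
      intro b
      simp only [I]
      rw [cont_prod hw, Finset.prod_eq_single (S ∩ fx a)]
      · rw [cont_mul hw, cont_pow hw, cont_pow hw, Z_same hA hM hS, E_same hA hM hS]
      · intro F hF hne
        simp only [T, Finset.mem_filter, Finset.mem_powerset] at hF
        rw [cont_mul hw, cont_pow hw, cont_pow hw, Z_diff hA hM hS hF.1 hF.2 hne, E_diff hA hM hS hF.1 hF.2 hne,
          one_pow, one_pow, one_mul]
      · intro h; exact absurd hST h
    show cont (c.wv p S) (I true) / cont (c.wv p S) (I false) = _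
    rw [hc, hc, hxy (S ∩ fx a) Finset.inter_subset_right (by rw [← hS]; exact Finset.card_le_card Finset.inter_subset_left)]
    simp only [if_true, Bool.false_eq_true, if_false]
    have hr := (rho_pos M p).ne'
    rw [← pow_mul, ← pow_mul, ← pow_mul, ← pow_mul, ← pow_add, ← pow_add, ← zpow_natCast, ← zpow_natCast,
      ← zpow_sub₀ hr]
    congr 1
    push_cast
    have e1 : ∀ z : ℤ, ((z.toNat : ℕ) : ℤ) - (((-z).toNat : ℕ) : ℤ) = z := by intro z; omega
    have h1 := e1 (xy (S ∩ fx a)).1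
    have h2 := e1 (xy (S ∩ fx a)).2
    generalize ((k - (S ∩ fx a).card : ℕ) : ℤ) = u
    rw [← h1, ← h2]
    simp only [Int.ofNat_toNat] at h1 h2 ⊢
    rw [h1, h2]
    linear_combination u * h1 + (M : ℤ) * h2
  · intro q _ hpq S
    have hw := c.wv_na q S
    have hc : ∀ b, cont (c.wv q S) (I b) = 1 := by
      intro b
      simp only [I]
      rw [cont_prod hw]
      apply Finset.prod_eq_one
      intro F _
      rw [cont_mul hw, cont_pow hw, cont_pow hw, c.Z_other a q p hp hpq.symm, c.E_other a M q p hp hpq.symm,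
        one_pow, one_pow, one_mul]
    exact ⟨hc true, hc false⟩

end

end Cf

end Pool.Agent.H515.KS
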