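import Pool.Agent.H515.KS.Idl

set_option autoImplicit false
set_option linter.unusedSectionVars false

namespace Pool.Agent.H515.KS

open Polynomial Module Pool.Agent.H450.GG

section
variable (p : ℕ) [Fact p.Prime]


theorem norm_aut (τ : (PadicAlgCl p) ≃ₐ[ℚ_[p]] (PadicAlgCl p)) (x : (PadicAlgCl p)) : ‖τ x‖ = ‖x‖ := (spectralNorm_eq_of_equiv τ _).symm

theorem norm_add_le_max' (x y : (PadicAlgCl p)) : ‖x + y‖ ≤ max ‖x‖ ‖y‖ := PadicAlgCl.isNonarchimedean p _ _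

theorem norm_sub_le_max' (x y : (PadicAlgCl p)) : ‖x - y‖ ≤ max ‖x‖ ‖y‖ := by
  rw [sub_eq_add_neg, ← norm_neg y]
  exact norm_add_le_max' p _ _

theorem norm_eq_of_sub_lt {x y : (PadicAlgCl p)} (h : ‖x - y‖ < ‖y‖) : ‖x‖ = ‖y‖ := by
  apply le_antisymm
  · have := norm_add_le_max' p (x - y) y
    rw [sub_add_cancel] at this
    exact this.trans (max_le h.le le_rfl)
  · by_contra hcon
    push Not at hcon
    have := norm_sub_le_max' p x (x - y)
    rw [sub_sub_cancel] at this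
    exact absurd this (not_le.2 (max_lt hcon h))

/-- one-units -/
def U1 (w : (PadicAlgCl p)) : Prop := ‖w - 1‖ < 1

variable {p}

theorem U1.norm {w : (PadicAlgCl p)} (h : U1 p w) : ‖w‖ = 1 := by
  have h1 : ‖w - 1‖ < ‖(1 : (PadicAlgCl p))‖ := by rw [norm_one]; exact h
  rw [norm_eq_of_sub_lt p h1, norm_one]

theorem U1.one : U1 p 1 := by unfold U1; simp

theorem U1.mul {w w' : (PadicAlgCl p)} (h : U1 p w) (h' : U1 p w') : U1 p (w * w') := by
  unfold U1 at *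
  have h1 : w * w' - 1 = w * (w' - 1) + (w - 1) := by ring
  rw [h1]
  refine (norm_add_le_max' p _ _).trans_lt (max_lt ?_ h)
  rw [norm_mul, U1.norm h, one_mul]
  exact h'

theorem U1.inv {w : (PadicAlgCl p)} (h : U1 p w) : U1 p w⁻¹ := by
  have hn := h.norm
  have h0 : w ≠ 0 := by
    rintro rfl
    rw [norm_zero] at hn
    exact zero_ne_one hn
  unfold U1 at *
  have h1 : w⁻¹ - 1 = -(w - 1) * w⁻¹ := by field_simp; ring
  rw [h1, norm_mul, norm_neg, norm_inv, hn, inv_one, mul_one]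
  exact h

theorem U1.ne {w : (PadicAlgCl p)} (h : U1 p w) : w ≠ 0 := by
  have hn := h.norm
  rintro rfl
  rw [norm_zero] at hn
  exact zero_ne_one hn

theorem U1.div {w w' : (PadicAlgCl p)} (h : U1 p w) (h' : U1 p w') : U1 p (w / w') := by
  rw [div_eq_mul_inv]
  exact h.mul h'.inv

theorem U1.pow {w : (PadicAlgCl p)} (h : U1 p w) (m : ℕ) : U1 p (w ^ m) := by
  induction m with
  | zero => rw [pow_zero]; exact U1.one
  | succ m ih => rw [pow_succ]; exact ih.mul h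

theorem U1.zpow {w : (PadicAlgCl p)} (h : U1 p w) (m : ℤ) : U1 p (w ^ m) := by
  cases m with
  | ofNat m => rw [Int.ofNat_eq_natCast, zpow_natCast]; exact h.pow m
  | negSucc m => rw [zpow_negSucc]; exact (h.pow _).inv

theorem U1.aut {w : (PadicAlgCl p)} (h : U1 p w) (τ : (PadicAlgCl p) ≃ₐ[ℚ_[p]] (PadicAlgCl p)) : U1 p (τ w) := by
  unfold U1 at *
  have h1 : τ w - 1 = τ (w - 1) := by rw [map_sub, map_one]
  rw [h1, norm_aut]
  exact h

theorem U1_of {x y : (PadicAlgCl p)} (hy : y ≠ 0) (h : ‖x - y‖ < ‖y‖) : U1 p (x / y) := by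
  unfold U1
  have h1 : x / y - 1 = (x - y) / y := by field_simp
  rw [h1, norm_div, div_lt_one (norm_pos_iff.2 hy)]
  exact h

theorem norm_int_lt {z : ℤ} : ‖(z : (PadicAlgCl p))‖ < 1 ↔ (p : ℤ) ∣ z := by
  have h1 : ((z : (PadicAlgCl p))) = ((z : ℚ_[p]) : (PadicAlgCl p)) := by simp
  rw [h1, PadicAlgCl.norm_extends, Padic.norm_intCast_lt_one_iff]

theorem norm_int_eq {z : ℤ} (h : ¬ (p : ℤ) ∣ z) : ‖(z : (PadicAlgCl p))‖ = 1 := by
  apply le_antisymm
  · have h1 : ((z : (PadicAlgCl p))) = ((z : ℚ_[p]) : (PadicAlgCl p)) := by simp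
    rw [h1, PadicAlgCl.norm_extends]
    exact Padic.norm_int_le_one z
  · by_contra hcon
    push Not at hcon
    exact h (norm_int_lt.1 hcon)

theorem norm_p : ‖(p : (PadicAlgCl p))‖ = (p : ℝ)⁻¹ := by
  have h1 : ((p : (PadicAlgCl p))) = ((p : ℚ_[p]) : (PadicAlgCl p)) := by simp
  rw [h1, PadicAlgCl.norm_extends]
  exact Padic.norm_p

theorem U1_int {z : ℤ} (h : (p : ℤ) ∣ z - 1) : U1 p (z : (PadicAlgCl p)) := by
  unfold U1
  have h1 : ((z : (PadicAlgCl p)) - 1) = ((z - 1 : ℤ) : (PadicAlgCl p)) := by push_cast; ring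
  rw [h1]
  exact norm_int_lt.2 h

theorem int_inv {z : ℤ} (h : ¬ (p : ℤ) ∣ z) : ∃ y : ℤ, (p : ℤ) ∣ z * y - 1 ∧ ¬ (p : ℤ) ∣ y := by
  have hp : Prime (p : ℤ) := Nat.prime_iff_prime_int.1 Fact.out
  obtain ⟨a, b, hab⟩ := (hp.coprime_iff_not_dvd.2 h)
  refine ⟨b, ⟨-a, by linear_combination hab⟩, ?_⟩
  intro hb
  apply hp.not_isUnit
  rw [isUnit_iff_dvd_one]
  rw [← hab]
  exact dvd_add (Dvd.intro_left a rfl) (hb.mul_right z)

/-- elements of `ℚ_p` -/
theorem padic_good (y : ℚ_[p]) (hy : y ≠ 0) :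
    ∃ (t c : ℤ), ¬ (p : ℤ) ∣ c ∧ U1 p ((y : (PadicAlgCl p)) / ((c : (PadicAlgCl p)) * (p : (PadicAlgCl p)) ^ t)) := by
  have hp0 : (p : ℚ_[p]) ≠ 0 := by exact_mod_cast (Fact.out : p.Prime).ne_zero
  have hpΩ : (p : (PadicAlgCl p)) ≠ 0 := by exact_mod_cast (Fact.out : p.Prime).ne_zero
  set t := y.valuation with ht
  set u : ℚ_[p] := y / (p : ℚ_[p]) ^ t with hu
  have hun : ‖u‖ = 1 := by
    rw [hu, norm_div, norm_zpow, Padic.norm_p, Padic.norm_eq_zpow_neg_valuation hy, inv_zpow', div_self]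
    exact zpow_ne_zero _ (by exact_mod_cast (Fact.out : p.Prime).ne_zero)
  obtain ⟨u', hu'⟩ : ∃ u' : ℤ_[p], (u' : ℚ_[p]) = u := ⟨⟨u, hun.le⟩, rfl⟩
  obtain ⟨m, hm, hmu⟩ := PadicInt.exists_mem_range u'
  have h1 : ‖u - (m : ℚ_[p])‖ < 1 := by
    have h2 : ‖(u' - (m : ℤ_[p]) : ℤ_[p])‖ < 1 := (PadicInt.mem_nonunits).1 hmu
    rw [PadicInt.norm_def] at h2
    push_cast at h2
    rw [hu'] at h2
    exact h2
  refine ⟨t, m, ?_, ?_⟩
  · intro hd
    have h2 : ‖((m : ℤ) : ℚ_[p])‖ < 1 := Padic.norm_intCast_lt_one_iff.2 hd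
    have h3 : ‖u‖ < 1 := by
      have h4 : u = (u - (m : ℚ_[p])) + (m : ℚ_[p]) := by ring
      rw [h4]
      refine (Padic.nonarchimedean _ _).trans_lt (max_lt h1 ?_)
      simpa using h2
    rw [hun] at h3
    exact lt_irrefl _ h3
  · have hy2 : y = u * (p : ℚ_[p]) ^ t := by
      rw [hu, div_mul_cancel₀ _ (zpow_ne_zero _ hp0)]
    have hmn : ‖((m : ℤ) : (PadicAlgCl p))‖ = 1 := by
      have h5 : ‖(((m : ℤ) : (PadicAlgCl p))) - ((u : ℚ_[p]) : (PadicAlgCl p))‖ < ‖((u : ℚ_[p]) : (PadicAlgCl p))‖ := by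
        rw [PadicAlgCl.norm_extends, hun, ← norm_neg]
        have h6 : -((((m : ℤ) : (PadicAlgCl p))) - ((u : ℚ_[p]) : (PadicAlgCl p))) = ((u - (m : ℚ_[p]) : ℚ_[p]) : (PadicAlgCl p)) := by
          push_cast
          simp
        rw [h6, PadicAlgCl.norm_extends]
        exact h1
      rw [norm_eq_of_sub_lt p h5, PadicAlgCl.norm_extends, hun]
    have hm0 : ((m : ℤ) : (PadicAlgCl p)) ≠ 0 := by
      intro h
      rw [h, norm_zero] at hmn
      exact zero_ne_one hmn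
    have h7 : ((y : ℚ_[p]) : (PadicAlgCl p)) / (((m : ℤ) : (PadicAlgCl p)) * (p : (PadicAlgCl p)) ^ t) = ((u : ℚ_[p]) : (PadicAlgCl p)) / ((m : ℤ) : (PadicAlgCl p)) := by
      rw [hy2]
      have h8 : ((u * (p : ℚ_[p]) ^ t : ℚ_[p]) : (PadicAlgCl p)) = ((u : ℚ_[p]) : (PadicAlgCl p)) * (p : (PadicAlgCl p)) ^ t := by
        push_cast
        simp
      rw [h8]
      have := zpow_ne_zero t hpΩ
      field_simp
    rw [h7]
    apply U1_of hm0
    rw [hmn]
    have h6 : ((u : ℚ_[p]) : (PadicAlgCl p)) - ((m : ℤ) : (PadicAlgCl p)) = ((u - (m : ℚ_[p]) : ℚ_[p]) : (PadicAlgCl p)) := by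
      push_cast
      simp
    rw [h6, PadicAlgCl.norm_extends]
    exact h1

/-- elements `c π ^ m` up to one-units -/
def Good (π z : (PadicAlgCl p)) : Prop := ∃ (m c : ℤ), ¬ (p : ℤ) ∣ c ∧ U1 p (z / ((c : (PadicAlgCl p)) * π ^ m))

theorem int_ne {c : ℤ} (h : ¬ (p : ℤ) ∣ c) : (c : (PadicAlgCl p)) ≠ 0 := by
  intro h0
  have := norm_int_eq (p := p) h
  rw [h0, norm_zero] at this
  exact zero_ne_one this

theorem Good.mul {π z z' : (PadicAlgCl p)} (hπ : π ≠ 0) (h : Good π z) (h' : Good π z') : Good π (z * z') := by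
  obtain ⟨m, c, hc, h⟩ := h
  obtain ⟨m', c', hc', h'⟩ := h'
  have hp : Prime (p : ℤ) := Nat.prime_iff_prime_int.1 Fact.out
  refine ⟨m + m', c * c', fun hd => (hp.dvd_or_dvd hd).elim hc hc', ?_⟩
  have h1 : z * z' / (((c * c' : ℤ) : (PadicAlgCl p)) * π ^ (m + m')) = (z / ((c : (PadicAlgCl p)) * π ^ m)) * (z' / ((c' : (PadicAlgCl p)) * π ^ m')) := by
    rw [zpow_add₀ hπ]
    push_cast
    rw [div_mul_div_comm]
    congr 1
    ring
  rw [h1]
  exact h.mul h'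

theorem Good.inv {π z : (PadicAlgCl p)} (h : Good π z) : Good π z⁻¹ := by
  obtain ⟨m, c, hc, h⟩ := h
  obtain ⟨c', hc1, hc2⟩ := int_inv hc
  refine ⟨-m, c', hc2, ?_⟩
  have h1 : z⁻¹ / ((c' : (PadicAlgCl p)) * π ^ (-m)) = (z / ((c : (PadicAlgCl p)) * π ^ m))⁻¹ * ((c * c' : ℤ) : (PadicAlgCl p))⁻¹ := by
    rw [inv_div, zpow_neg]
    push_cast
    have := int_ne hc
    have := int_ne hc2
    field_simp
  rw [h1]
  exact h.inv.mul (U1_int hc1).inv

theorem Good.pow {π z : (PadicAlgCl p)} (hπ : π ≠ 0) (h : Good π z) (n : ℕ) : Good π (z ^ n) := by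
  induction n with
  | zero =>
    refine ⟨0, 1, ?_, ?_⟩
    · intro hd
      exact (Nat.prime_iff_prime_int.1 (Fact.out : p.Prime)).not_isUnit (isUnit_of_dvd_one hd)
    · simp [U1.one]
  | succ n ih => rw [pow_succ]; exact ih.mul hπ h

theorem Good.zpow {π z : (PadicAlgCl p)} (hπ : π ≠ 0) (h : Good π z) (n : ℤ) : Good π (z ^ n) := by
  cases n with
  | ofNat n => rw [Int.ofNat_eq_natCast, zpow_natCast]; exact h.pow hπ n
  | negSucc n => rw [zpow_negSucc]; exact (h.pow hπ _).inv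

theorem Good.of_div {π z z' : (PadicAlgCl p)} (h : Good π z) (h1 : U1 p (z' / z)) (hz : z ≠ 0) : Good π z' := by
  obtain ⟨m, c, hc, h⟩ := h
  refine ⟨m, c, hc, ?_⟩
  have h2 : z' / ((c : (PadicAlgCl p)) * π ^ m) = (z' / z) * (z / ((c : (PadicAlgCl p)) * π ^ m)) := by
    field_simp
  rw [h2]
  exact h1.mul h

theorem Good.norm {π z : (PadicAlgCl p)} (h : Good π z) : ∃ m : ℤ, ‖z‖ = ‖π‖ ^ m := by
  obtain ⟨m, c, hc, h⟩ := h
  refine ⟨m, ?_⟩
  have h1 := h.norm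
  rw [norm_div, norm_mul, norm_int_eq hc, one_mul, norm_zpow] at h1
  have h2 : ‖π‖ ^ m ≠ 0 := by
    intro h0
    rw [h0, div_zero] at h1
    exact zero_ne_one h1
  exact (div_eq_one_iff_eq h2).1 h1

theorem good_int {π : (PadicAlgCl p)} {c : ℤ} (h : ¬ (p : ℤ) ∣ c) : Good π (c : (PadicAlgCl p)) := by
  refine ⟨0, c, h, ?_⟩
  have := int_ne h
  rw [zpow_zero, mul_one, div_self this]
  exact U1.one

theorem good_self {π : (PadicAlgCl p)} (hπ : π ≠ 0) : Good π π := by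
  refine ⟨1, 1, ?_, ?_⟩
  · intro hd
    exact (Nat.prime_iff_prime_int.1 (Fact.out : p.Prime)).not_isUnit (isUnit_of_dvd_one hd)
  · have : π / (((1 : ℤ) : (PadicAlgCl p)) * π ^ (1 : ℤ)) = 1 := by
      rw [zpow_one, Int.cast_one, one_mul, div_self hπ]
    rw [this]
    exact U1.one

theorem good_padic {π : (PadicAlgCl p)} (hπ : π ≠ 0) (hp : Good π (p : (PadicAlgCl p))) (y : ℚ_[p]) (hy : y ≠ 0) : Good π ((y : ℚ_[p]) : (PadicAlgCl p)) := by
  obtain ⟨t, c, hc, h⟩ := padic_good y hy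
  have hpΩ : (p : (PadicAlgCl p)) ≠ 0 := by exact_mod_cast (Fact.out : p.Prime).ne_zero
  exact ((good_int hc).mul hπ (hp.zpow hπ t)).of_div h (mul_ne_zero (int_ne hc) (zpow_ne_zero _ hpΩ))

/-- The elements of `ℚ_p(π)`. -/
theorem good_adjoin {π : (PadicAlgCl p)} {M : ℕ} (hM : M ≠ 0) (hπ : ‖π‖ ^ M = (p : ℝ)⁻¹) (hp : Good π (p : (PadicAlgCl p)))
    (hdeg : (minpoly ℚ_[p] π).natDegree ≤ M) {z : (PadicAlgCl p)} (hz : z ∈ IntermediateField.adjoin ℚ_[p] {π}) (hz0 : z ≠ 0) :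
    Good π z := by
  classical
  have hp1 : (1 : ℝ) < p := by exact_mod_cast (Fact.out : p.Prime).one_lt
  have hπ0 : π ≠ 0 := by
    rintro rfl
    rw [norm_zero, zero_pow hM] at hπ
    have : (0 : ℝ) < (p : ℝ)⁻¹ := by positivity
    linarith
  have hint : IsIntegral ℚ_[p] π := Algebra.IsIntegral.isIntegral π
  obtain ⟨f, hf1, hf2⟩ : ∃ f : ℚ_[p][X], f.natDegree < (minpoly ℚ_[p] π).natDegree ∧ z = aeval π f := by
    obtain ⟨f, hf1, hf2⟩ := (IntermediateField.adjoin.powerBasis hint).exists_eq_aeval ⟨z, hz⟩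
    refine ⟨f, hf1, ?_⟩
    have h1 := congrArg (IntermediateField.val _) hf2
    rw [← Polynomial.aeval_algHom_apply] at h1
    exact h1
  rw [aeval_eq_sum_range] at hf2
  set s := Finset.range (f.natDegree + 1) with hs
  set g : ℕ → (PadicAlgCl p) := fun i => f.coeff i • π ^ i with hg
  have hgn : ∀ i, f.coeff i ≠ 0 → ∃ t : ℤ, ‖g i‖ = ‖π‖ ^ ((M : ℤ) * t + i) := by
    intro i hi
    refine ⟨(f.coeff i).valuation, ?_⟩
    simp only [hg]
    rw [Algebra.smul_def, norm_mul, norm_pow, zpow_add₀ (norm_ne_zero_iff.2 hπ0), zpow_natCast]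
    congr 1
    have h2 : ‖(algebraMap ℚ_[p] (PadicAlgCl p)) (f.coeff i)‖ = ‖f.coeff i‖ := PadicAlgCl.norm_extends p _
    rw [h2, Padic.norm_eq_zpow_neg_valuation hi, zpow_mul, zpow_natCast, hπ, inv_zpow']
  obtain ⟨j, hj, hjmax⟩ : ∃ j ∈ s, ∀ i ∈ s, ‖g i‖ ≤ ‖g j‖ :=
    Finset.exists_max_image s (fun i => ‖g i‖) ⟨0, by simp [hs]⟩
  have hcj : f.coeff j ≠ 0 := by
    intro h0
    apply hz0
    rw [hf2]
    apply Finset.sum_eq_zero
    intro i hi
    have h1 := hjmax i hi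
    have h2 : ‖g j‖ = 0 := by simp [hg, h0]
    rw [h2] at h1
    exact norm_le_zero_iff.1 h1
  have hgj0 : g j ≠ 0 := by
    simp only [hg]
    exact smul_ne_zero hcj (pow_ne_zero _ hπ0)
  have hπlt : ‖π‖ < 1 := by
    by_contra hcon
    push Not at hcon
    have h1 := one_le_pow₀ hcon (n := M)
    rw [hπ] at h1
    have h2 : (p : ℝ)⁻¹ < 1 := inv_lt_one_of_one_lt₀ hp1
    linarith
  have hlt : ∀ i ∈ s, i ≠ j → ‖g i‖ < ‖g j‖ := by
    intro i hi hij
    apply lt_of_le_of_ne (hjmax i hi)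
    intro heq
    by_cases hci : f.coeff i = 0
    · have h2 : ‖g i‖ = 0 := by simp [hg, hci]
      rw [h2] at heq
      exact hgj0 (norm_eq_zero.1 heq.symm)
    · obtain ⟨t, ht⟩ := hgn i hci
      obtain ⟨t', ht'⟩ := hgn j hcj
      rw [ht, ht'] at heq
      have h3 := zpow_right_injective₀ (norm_pos_iff.2 hπ0) hπlt.ne heq
      have hi' := Finset.mem_range.1 hi
      have hj' := Finset.mem_range.1 hj
      have hiM : i < M := by omega
      have hjM : j < M := by omega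
      apply hij
      have h4 : ((M : ℤ) * t + i) % M = ((M : ℤ) * t' + j) % M := by rw [h3]
      rw [Int.add_comm, Int.add_mul_emod_self_left, Int.add_comm, Int.add_mul_emod_self_left] at h4
      have h5 : ((i : ℤ)) % M = i := Int.emod_eq_of_lt (by omega) (by omega)
      have h6 : ((j : ℤ)) % M = j := Int.emod_eq_of_lt (by omega) (by omega)
      rw [h5, h6] at h4
      exact_mod_cast h4
  have hdiff : ‖z - g j‖ < ‖g j‖ := by
    rw [hf2, ← Finset.add_sum_erase s g hj, add_sub_cancel_left]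
    have key : ∀ t : Finset ℕ, (∀ i ∈ t, ‖g i‖ < ‖g j‖) → ‖∑ i ∈ t, g i‖ < ‖g j‖ := by
      intro t
      induction t using Finset.induction_on with
      | empty => intro _; simpa using norm_pos_iff.2 hgj0
      | insert a t ha ih =>
        intro h
        rw [Finset.sum_insert ha]
        exact (norm_add_le_max' p _ _).trans_lt (max_lt (h a (Finset.mem_insert_self a t))
          (ih fun i hi => h i (Finset.mem_insert_of_mem hi)))
    apply key
    intro i hi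
    exact hlt i (Finset.mem_of_mem_erase hi) (Finset.ne_of_mem_erase hi)
  have hgood : Good π (g j) := by
    simp only [hg]
    rw [Algebra.smul_def]
    exact (good_padic hπ0 hp _ hcj).mul hπ0 ((good_self hπ0).pow hπ0 j)
  exact hgood.of_div (U1_of hgj0 hdiff) hgj0

end

section
variable {A : Type} [Field A] [CharZero A] [Algebra.IsAlgebraic ℚ A] [IsAlgClosed A] (p : ℕ) [Fact p.Prime]

/-- Automorphisms of the algebraic closure of `ℚ_p` induce automorphisms of the algebraic numbers. -/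
theorem exists_restrict (τ : PadicAlgCl p ≃ₐ[ℚ_[p]] PadicAlgCl p) :
    ∃ t : A ≃ₐ[ℚ] A, ∀ x, psi p (t x) = τ (psi p x) := by
  let _ : Algebra A (PadicAlgCl p) := (psi (A := A) p : A →+* PadicAlgCl p).toAlgebra
  have : IsScalarTower ℚ A (PadicAlgCl p) :=
    IsScalarTower.of_algebraMap_eq (fun x => ((psi (A := A) p).commutes x).symm)
  have : Normal ℚ A := normal_A (A := A)
  let χ : PadicAlgCl p ≃ₐ[ℚ] PadicAlgCl p := τ.restrictScalars ℚ
  exact ⟨χ.restrictNormal A, fun x => χ.restrictNormal_commutes A x⟩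

/-- Elements fixed by the automorphisms over a subfield. -/
theorem mem_of_fixed_padic (F : IntermediateField ℚ_[p] (PadicAlgCl p)) (x : PadicAlgCl p)
    (h : ∀ τ : PadicAlgCl p ≃ₐ[ℚ_[p]] PadicAlgCl p, (∀ y ∈ F, τ y = y) → τ x = x) : x ∈ F := by
  have h2 : Algebra.IsAlgebraic F (PadicAlgCl p) := Algebra.IsAlgebraic.tower_top (K := ℚ_[p]) F
  have h3 : IsGalois F (PadicAlgCl p) := IsGalois.tower_top_intermediateField F
  have h1 : x ∈ (⊥ : IntermediateField F (PadicAlgCl p)) := by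
    rw [InfiniteGalois.mem_bot_iff_fixed]
    intro τ
    exact h (τ.restrictScalars ℚ_[p]) (fun y hy => τ.commutes ⟨y, hy⟩)
  rw [IntermediateField.mem_bot] at h1
  obtain ⟨y, rfl⟩ := h1
  exact y.2

end

end Pool.Agent.H515.KS
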