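import Pool.Agent.H515.KS.Idl
import Pool.Agent.H515.KS.Ev
import Pool.Agent.H450.GG.Rank

set_option autoImplicit false
set_option linter.unusedSectionVars false

namespace Pool.Agent.H515.KS

open Polynomial Module NumberField Pool.Agent.H450.GG
open scoped nonZeroDivisors

namespace Cf

section
variable {A : Type} [Field A] [CharZero A] [Algebra.IsAlgebraic ℚ A] [IsAlgClosed A] {n k : ℕ} (c : Cf A n k)
variable (M : ℕ) (σ : ℤ) {N j : ℕ} (P : Fin N → ℕ) [hP : ∀ κ, Fact (P κ).Prime] (al bl : Fin N → Fin j → Fin n)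

/-- the principal ideals attached to relations -/
structure Rel (z : A) (v : Fin N → ℤ) : Prop where
  mem : z ∈ c.K
  ne : z ≠ 0
  at_P : ∀ κ, ∀ S, S.card = k → W (P κ) (c.s S z) = rho M (P κ) ^ (σ * fw (al κ) (bl κ) S * v κ)
  off : ∀ (p : ℕ) [Fact p.Prime], (∀ κ, P κ ≠ p) → ∀ S, S.card = k → W p (c.s S z) = 1

variable {c M σ P al bl}

theorem Rel.div {z z' : A} {v v' : Fin N → ℤ} (h : Rel c M σ P al bl z v) (h' : Rel c M σ P al bl z' v') :
    Rel c M σ P al bl (z' / z) (v' - v) where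
  mem := div_mem h'.mem h.mem
  ne := div_ne_zero h'.ne h.ne
  at_P κ S hS := by
    rw [map_div₀, W_div, h.at_P κ S hS, h'.at_P κ S hS, ← zpow_sub₀ (rho_pos M (P κ)).ne']
    congr 1
    rw [Pi.sub_apply]
    ring
  off p _ hp S hS := by
    rw [map_div₀, W_div, h.off p hp S hS, h'.off p hp S hS, div_one]

theorem fw_inter {a b : Fin j → Fin n} {F : Finset (Fin n)} (ha : ∀ l, a l ∈ F) (hb : ∀ l, b l ∈ F)
    (S : Finset (Fin n)) : fw a b (S ∩ F) = fw a b S := by
  unfold fw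
  refine Finset.prod_congr rfl fun l _ => ?_
  simp only [Finset.mem_inter, ha l, hb l, and_true]

/-- relations between the classes -/
theorem rel_of_class {φ : ℕ} {a : Fin N → Fin φ → Fin n} (hinj : Function.Injective P)
    (h0 : ∀ κ l, al κ l ∈ fx (a κ)) (h1 : ∀ κ l, bl κ l ∈ fx (a κ))
    (B C : Fin N → (Ideal (𝓞 c.K))⁰)
    (hBC : ∀ κ, ∀ S, S.card = k → cont (c.wv (P κ) S) (B κ : Ideal (𝓞 c.K)) / cont (c.wv (P κ) S) (C κ : Ideal (𝓞 c.K)) =
        rho M (P κ) ^ (σ * fw (al κ) (bl κ) (S ∩ fx (a κ))))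
    (hoff : ∀ κ, ∀ (q : ℕ) [Fact q.Prime], P κ ≠ q → ∀ S, cont (c.wv q S) (B κ : Ideal (𝓞 c.K)) = 1 ∧
        cont (c.wv q S) (C κ : Ideal (𝓞 c.K)) = 1)
    (v : Fin N → ℤ)
    (h : ∏ κ, (ClassGroup.mk0 (B κ) * (ClassGroup.mk0 (C κ))⁻¹) ^ (v κ) = 1) :
    ∃ z, Rel c M σ P al bl z v := by
  classical
  obtain ⟨x, y, hx, hy, hxy⟩ := exists_quot _ _ v h
  have hx0 : (((x : c.K) : A)) ≠ 0 := by
    intro h0
    apply hx
    have h1 : (x : c.K) = 0 := Subtype.ext h0
    exact_mod_cast h1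
  have hy0 : (((y : c.K) : A)) ≠ 0 := by
    intro h0
    apply hy
    have h1 : (y : c.K) = 0 := Subtype.ext h0
    exact_mod_cast h1
  refine ⟨((y : c.K) : A) / ((x : c.K) : A), div_mem (y : c.K).2 (x : c.K).2, div_ne_zero hy0 hx0, ?_, ?_⟩
  · intro κ S hS
    rw [map_div₀, W_div]
    have h2 := hxy (c.wv (P κ) S) (c.wv_na (P κ) S)
    rw [wv_apply, wv_apply] at h2
    rw [h2, Finset.prod_eq_single κ]
    · rw [hBC κ S hS, ← zpow_mul, fw_inter (h0 κ) (h1 κ)]
    · intro l _ hl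
      have h3 : P l ≠ P κ := fun h => hl (hinj h)
      rw [(hoff l (P κ) h3 S).1, (hoff l (P κ) h3 S).2, div_one, one_zpow]
    · intro h; exact absurd (Finset.mem_univ κ) h
  · intro p _ hp S _
    rw [map_div₀, W_div]
    have h2 := hxy (c.wv p S) (c.wv_na p S)
    rw [wv_apply, wv_apply] at h2
    rw [h2]
    apply Finset.prod_eq_one
    intro l _
    rw [(hoff l p (hp l) S).1, (hoff l p (hp l) S).2, div_one, one_zpow]

variable (c) in
/-- the alternating products -/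
noncomputable def xx (z : A) (T : Finset (Fin n)) (u v : Fin j → Fin n) : A :=
  ∏ E : Finset (Fin j), (c.s (T ∪ wt u v E) z) ^ ((-1 : ℤ) ^ E.card)

theorem adm_act {T : Finset (Fin n)} {u v : Fin j → Fin n} (h : Adm k T u v) (τ : A ≃ₐ[ℚ] A) :
    Adm k (c.im τ T) (fun i => c.pm τ (u i)) (fun i => c.pm τ (v i)) where
  cT := by rw [c.card_im, h.cT]
  ui := fun x y hxy => h.ui (c.pm_inj τ hxy)
  vi := fun x y hxy => h.vi (c.pm_inj τ hxy)
  uv := fun i l hil => h.uv i l (c.pm_inj τ hil)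
  uT := fun i => by rw [c.mem_im]; exact h.uT i
  vT := fun i => by rw [c.mem_im]; exact h.vT i

theorem im_wt (τ : A ≃ₐ[ℚ] A) (T : Finset (Fin n)) (u v : Fin j → Fin n) (E : Finset (Fin j)) :
    c.im τ (T ∪ wt u v E) = c.im τ T ∪ wt (fun i => c.pm τ (u i)) (fun i => c.pm τ (v i)) E := by
  unfold im wt
  rw [Finset.image_union, Finset.image_image]
  congr 1
  refine Finset.image_congr fun i _ => ?_
  simp only [Function.comp]
  split_ifs <;> rfl

theorem xx_act {z : A} (hz : z ∈ c.K) {T : Finset (Fin n)} {u v : Fin j → Fin n} (h : Adm k T u v) (τ : A ≃ₐ[ℚ] A) :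
    τ (c.xx z T u v) = c.xx z (c.im τ T) (fun i => c.pm τ (u i)) (fun i => c.pm τ (v i)) := by
  unfold xx
  rw [map_prod]
  refine Finset.prod_congr rfl fun E _ => ?_
  rw [map_zpow₀, c.act_s τ (wt_card h E) hz, im_wt]

theorem xx_ne {z : A} (hz : z ≠ 0) (T : Finset (Fin n)) (u v : Fin j → Fin n) : c.xx z T u v ≠ 0 :=
  Finset.prod_ne_zero_iff.2 fun E _ => zpow_ne_zero _ (c.s_ne_zero hz _)

theorem xx_div (z z' : A) (T : Finset (Fin n)) (u v : Fin j → Fin n) :
    c.xx (z' / z) T u v = c.xx z' T u v / c.xx z T u v := by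
  unfold xx
  rw [← Finset.prod_div_distrib]
  refine Finset.prod_congr rfl fun E _ => ?_
  rw [map_div₀, div_zpow]

theorem xx_mem {z : A} (hz : z ∈ c.K) (T : Finset (Fin n)) (u v : Fin j → Fin n) : c.xx z T u v ∈ c.L :=
  prod_mem fun E _ => zpow_mem (c.s_mem hz _) _

theorem Rel.W_xx {z : A} {w : Fin N → ℤ} (h : Rel c M σ P al bl z w) (κ : Fin N) {T : Finset (Fin n)}
    {u v : Fin j → Fin n} (hA : Adm k T u v) :
    W (P κ) (c.xx z T u v) = rho M (P κ) ^ (σ * aw (al κ) (bl κ) T u v * w κ) := by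
  have hr := (rho_pos M (P κ)).ne'
  unfold xx aw
  rw [W_prod, Finset.mul_sum, Finset.sum_mul]
  have key : ∀ s : Finset (Finset (Fin j)), ∏ E ∈ s, W (P κ) ((c.s (T ∪ wt u v E) z) ^ ((-1 : ℤ) ^ E.card)) =
      rho M (P κ) ^ (∑ E ∈ s, σ * ((-1 : ℤ) ^ E.card * fw (al κ) (bl κ) (T ∪ wt u v E)) * w κ) := by
    intro s
    classical
    induction s using Finset.induction_on with
    | empty => simp
    | insert E s hE ih =>
      rw [Finset.prod_insert hE, Finset.sum_insert hE, zpow_add₀ hr, ih, W_zpow, h.at_P κ _ (wt_card hA E),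
        ← zpow_mul]
      congr 2
      ring
  exact key _

theorem Rel.W_xx_off {z : A} {w : Fin N → ℤ} (h : Rel c M σ P al bl z w) (p : ℕ) [Fact p.Prime]
    (hp : ∀ κ, P κ ≠ p) {T : Finset (Fin n)} {u v : Fin j → Fin n} (hA : Adm k T u v) :
    W p (c.xx z T u v) = 1 := by
  unfold xx
  rw [W_prod]
  apply Finset.prod_eq_one
  intro E _
  rw [W_zpow, h.off p hp _ (wt_card hA E), one_zpow]

/-- the units attached to a relation -/
theorem Rel.unit {z : A} {w : Fin N → ℤ} (h : Rel c M σ P al bl z w) {T U : Finset (Fin n)} {u v : Fin j → Fin n}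
    (hA : Adm k T u v) (hB : Adm k U u v) :
    ∃ e : (𝓞 c.L)ˣ, ((((e : 𝓞 c.L) : c.L) : A)) = c.xx z T u v / c.xx z U u v := by
  set e := c.xx z T u v / c.xx z U u v with he
  have hmem : e ∈ c.L := div_mem (xx_mem h.mem T u v) (xx_mem h.mem U u v)
  have hne : e ≠ 0 := div_ne_zero (xx_ne h.ne T u v) (xx_ne h.ne U u v)
  have hWτ : ∀ (p : ℕ) [Fact p.Prime] (τ : A ≃ₐ[ℚ] A), W p (τ e) = 1 := by
    intro p _ τ
    rw [he, map_div₀, xx_act h.mem hA, xx_act h.mem hB, W_div]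
    have hA' := adm_act (c := c) hA τ
    have hB' := adm_act (c := c) hB τ
    by_cases hp : ∃ κ, P κ = p
    · obtain ⟨κ, rfl⟩ := hp
      have e0 : ∀ inst : Fact (P κ).Prime, inst = hP κ := fun _ => rfl
      rw [h.W_xx κ hA', h.W_xx κ hB', aw_indep _ _ hA' hB', div_self]
      exact zpow_ne_zero _ (rho_pos M (P κ)).ne'
    · push Not at hp
      rw [h.W_xx_off p hp hA', h.W_xx_off p hp hB', div_one]
  have h1 : IsIntegral ℤ e := integral_of_W fun p _ τ => (hWτ p τ).le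
  have h2 : IsIntegral ℤ e⁻¹ := integral_of_W fun p _ τ => by
    rw [map_inv₀, W_inv, hWτ p τ, inv_one]
  let e1 : 𝓞 c.L := ⟨⟨e, hmem⟩, of_int h1⟩
  let e2 : 𝓞 c.L := ⟨⟨e⁻¹, inv_mem hmem⟩, of_int h2⟩
  have h3 : e1 * e2 = 1 := by
    apply RingOfIntegers.ext
    apply Subtype.ext
    show e * e⁻¹ = 1
    exact mul_inv_cancel₀ hne
  exact ⟨⟨e1, e2, h3, by rw [mul_comm]; exact h3⟩, rfl⟩

/-- The main divisibility. -/
theorem Rel.dvd {z : A} {w : Fin N → ℤ} (h : Rel c M σ P al bl z w)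
    (hpow : ∀ T U (u v : Fin j → Fin n), Adm k T u v → Adm k U u v →
      ∃ e ∈ c.L, c.xx z T u v / c.xx z U u v = e ^ M) (κ : Fin N) (τ : A ≃ₐ[ℚ] A)
    {u v : Fin j → Fin n} (hτu : ∀ i, c.pm τ (u i) = u i) (hτv : ∀ i, c.pm τ (v i) = v i)
    (hu : Function.Injective u) (hv : Function.Injective v) (huv : ∀ i l, u i ≠ v l) (hjk : j ≤ k) (hkn : k + j ≤ n)
    (hτ : ∀ x ∈ c.L, x ≠ 0 → ∀ e ∈ c.L, τ x / x = e ^ M → ∀ m : ℤ, W (P κ) x = rho M (P κ) ^ m → (M : ℤ) ∣ m) :
    (M : ℤ) ∣ σ * aw (al κ) (bl κ) ∅ u v * w κ := by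
  classical
  obtain ⟨T, hT1, hT2⟩ : ∃ T : Finset (Fin n), T ⊆ Finset.univ \ (Finset.univ.image u ∪ Finset.univ.image v) ∧
      T.card = k - j := by
    apply Finset.exists_subset_card_eq
    rw [Finset.card_sdiff, Finset.inter_univ, Finset.card_univ, Fintype.card_fin]
    have h1 := Finset.card_union_le (Finset.univ.image u) (Finset.univ.image v)
    have h2 := Finset.card_image_le (s := Finset.univ) (f := u)
    have h3 := Finset.card_image_le (s := Finset.univ) (f := v)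
    rw [Finset.card_univ, Fintype.card_fin] at h2 h3
    omega
  have huT : ∀ i, u i ∉ T := fun i hi => by
    have := hT1 hi
    simp at this
  have hvT : ∀ i, v i ∉ T := fun i hi => by
    have := hT1 hi
    simp at this
  have hA : Adm k T u v := ⟨by omega, hu, hv, huv, huT, hvT⟩
  have hA' := adm_act (c := c) hA τ
  have hu' : (fun i => c.pm τ (u i)) = u := funext hτu
  have hv' : (fun i => c.pm τ (v i)) = v := funext hτv
  rw [hu', hv'] at hA'
  obtain ⟨e, he, hcr⟩ := hpow _ _ _ _ hA' hA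
  have h3 : τ (c.xx z T u v) / c.xx z T u v = e ^ M := by
    rw [← hcr, xx_act h.mem hA, hu', hv']
  have h4 := h.W_xx κ hA
  rw [aw_empty _ _ hA] at h4
  exact hτ _ (xx_mem h.mem T u v) (xx_ne h.ne T u v) e he h3 _ h4

/-- The rank of the class group. -/
theorem rank_of_cf {μ : ℕ} [NeZero μ] {φ : ℕ} {a : Fin N → Fin φ → Fin n} (hM : M ≠ 0) (hinj : Function.Injective P)
    (hA : ∀ κ, Ty c M φ (P κ) (a κ)) (α β : Fin j → Fin φ) (hα : Function.Injective α) (hβ : Function.Injective β)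
    (hαβ : ∀ i l, α i ≠ β l) (γ : Fin j → Fin φ) (hγ : Function.Injective γ) (hαγ : ∀ i l, α i ≠ γ l)
    (δ : ℤ) (hδ : ∀ κ, aw (fun i => a κ (α i)) (fun i => a κ (β i)) ∅ (fun i => a κ (α i)) (fun i => a κ (γ i)) = δ)
    (hjk : j ≤ k) (hkn : k + j ≤ n)
    (hσ : ∀ s, j ≤ s → s + j ≤ φ → s ≤ k → (Nat.gcd M (k - s) : ℤ) ∣ σ)
    (hτ : ∀ κ, ∃ τ : A ≃ₐ[ℚ] A, (∀ i, c.pm τ (a κ i) = a κ i) ∧
      ∀ x ∈ c.L, x ≠ 0 → ∀ e ∈ c.L, τ x / x = e ^ M → ∀ m : ℤ, W (P κ) x = rho M (P κ) ^ m → (M : ℤ) ∣ m)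
    (hμ : ∀ t : ℤ, (M : ℤ) ∣ σ * δ * t → (μ : ℤ) ∣ t) :
    ∃ f : Multiplicative (Fin (N - (M ^ (n ^ n)) ^ (2 ^ n * 2 ^ n * (n ^ j * n ^ j))) → ZMod μ) →* ClassGroup (𝓞 c.K),
      Function.Injective f := by
  classical
  have : NeZero M := ⟨hM⟩
  have hG : ∀ κ, ∀ F, F ⊆ fx (a κ) → F.card ≤ k →
      (Nat.gcd M (k - F.card) : ℤ) ∣ σ * fw (fun i => a κ (α i)) (fun i => a κ (β i)) F := by
    intro κ F hF hFk
    by_cases hex : ∀ l, (a κ (α l) ∈ F ∧ a κ (β l) ∉ F) ∨ (a κ (α l) ∉ F ∧ a κ (β l) ∈ F)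
    · apply Dvd.dvd.mul_right
      apply hσ _ _ _ hFk
      · -- `j ≤ |F|`
        let g : Fin j → Fin n := fun l => if a κ (α l) ∈ F then a κ (α l) else a κ (β l)
        have hgF : ∀ l, g l ∈ F := by
          intro l
          simp only [g]
          split_ifs with h1
          · exact h1
          · rcases hex l with h2 | h2
            · exact absurd h2.1 h1
            · exact h2.2
        have hg : Function.Injective g := by
          intro x y hxy
          simp only [g] at hxy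
          split_ifs at hxy
          · exact hα ((hA κ).inj hxy)
          · exact absurd ((hA κ).inj hxy) (hαβ x y)
          · exact absurd ((hA κ).inj hxy).symm (hαβ y x)
          · exact hβ ((hA κ).inj hxy)
        have h1 : (Finset.univ.image g).card = j := by
          rw [Finset.card_image_of_injective _ hg, Finset.card_univ, Fintype.card_fin]
        rw [← h1]
        apply Finset.card_le_card
        intro x hx
        obtain ⟨l, -, rfl⟩ := Finset.mem_image.1 hx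
        exact hgF l
      · -- `|F| + j ≤ φ`
        let g : Fin j → Fin n := fun l => if a κ (α l) ∈ F then a κ (β l) else a κ (α l)
        have hgF : ∀ l, g l ∈ fx (a κ) \ F := by
          intro l
          rw [Finset.mem_sdiff]
          simp only [g]
          split_ifs with h1
          · rcases hex l with h2 | h2
            · exact ⟨mem_fx.2 ⟨_, rfl⟩, h2.2⟩
            · exact absurd h1 h2.1
          · exact ⟨mem_fx.2 ⟨_, rfl⟩, h1⟩
        have hg : Function.Injective g := by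
          intro x y hxy
          simp only [g] at hxy
          split_ifs at hxy
          · exact hβ ((hA κ).inj hxy)
          · exact absurd ((hA κ).inj hxy).symm (hαβ y x)
          · exact absurd ((hA κ).inj hxy) (hαβ x y)
          · exact hα ((hA κ).inj hxy)
        have h1 : (Finset.univ.image g).card = j := by
          rw [Finset.card_image_of_injective _ hg, Finset.card_univ, Fintype.card_fin]
        have h2 : (Finset.univ.image g) ⊆ fx (a κ) \ F := by
          intro x hx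
          obtain ⟨l, -, rfl⟩ := Finset.mem_image.1 hx
          exact hgF l
        have h3 := Finset.card_le_card h2
        have h4 : (fx (a κ)).card = φ := by
          unfold fx
          rw [Finset.card_image_of_injective _ (hA κ).inj, Finset.card_univ, Fintype.card_fin]
        rw [h1, Finset.card_sdiff, Finset.inter_eq_left.2 hF, h4] at h3
        have h5 := Finset.card_le_card hF
        omega
    · push Not at hex
      obtain ⟨l, h1, h2⟩ := hex
      have h3 : fw (fun i => a κ (α i)) (fun i => a κ (β i)) F = 0 := by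
        unfold fw
        apply Finset.prod_eq_zero (Finset.mem_univ l)
        by_cases h4 : a κ (α l) ∈ F
        · simp [h4, h1 h4]
        · simp [h4, h2 h4]
      rw [h3, mul_zero]
      exact dvd_zero _
  have hBC := fun κ => exists_ideals (hA κ) hM
    (fun F => σ * fw (fun i => a κ (α i)) (fun i => a κ (β i)) F) (hG κ)
  choose B C hBC1 hBC2 using hBC
  obtain ⟨T, hT, U, hTc, hU⟩ := Pool.Agent.R493.CR.unit_classes c.L M
  let x : Fin N → ClassGroup (𝓞 c.K) := fun κ => ClassGroup.mk0 (B κ) * (ClassGroup.mk0 (C κ))⁻¹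
  have hz : ∀ v : {v : Fin N → ℤ // ∏ κ, x κ ^ v κ = 1},
      ∃ z, Rel c M σ P (fun κ i => a κ (α i)) (fun κ i => a κ (β i)) z v.1 := fun v =>
    rel_of_class hinj (fun κ l => mem_fx.2 ⟨α l, rfl⟩) (fun κ l => mem_fx.2 ⟨β l, rfl⟩) B C hBC1
      (fun κ q _ h S => hBC2 κ q h S) v.1 v.2
  choose z hz using hz
  have hu : ∀ (v : {v : Fin N → ℤ // ∏ κ, x κ ^ v κ = 1})
      (t : (Finset (Fin n) × Finset (Fin n)) × ((Fin j → Fin n) × (Fin j → Fin n))),
      ∃ u : (𝓞 c.L)ˣ, Adm k t.1.1 t.2.1 t.2.2 → Adm k t.1.2 t.2.1 t.2.2 →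
        ((((u : 𝓞 c.L) : c.L) : A)) = c.xx (z v) t.1.1 t.2.1 t.2.2 / c.xx (z v) t.1.2 t.2.1 t.2.2 := by
    intro v t
    by_cases h : Adm k t.1.1 t.2.1 t.2.2 ∧ Adm k t.1.2 t.2.1 t.2.2
    · obtain ⟨u, hu⟩ := (hz v).unit h.1 h.2
      exact ⟨u, fun _ _ => hu⟩
    · exact ⟨1, fun h1 h2 => absurd ⟨h1, h2⟩ h⟩
  choose u hu using hu
  apply rank_of_relations (ClassGroup (𝓞 c.K)) μ N _ x
    ((Finset (Fin n) × Finset (Fin n)) × ((Fin j → Fin n) × (Fin j → Fin n)) → T) ?_ (fun v t => U (u v t))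
  · intro v v' h κ
    apply hμ
    obtain ⟨τ, hτ1, hτ2⟩ := hτ κ
    have hrel := (hz v).div (hz v')
    have hfin := hrel.dvd (κ := κ) (τ := τ) (u := fun i => a κ (α i)) (v := fun i => a κ (γ i)) ?_
      (fun i => hτ1 _) (fun i => hτ1 _) (fun x y hxy => hα ((hA κ).inj hxy)) (fun x y hxy => hγ ((hA κ).inj hxy))
      (fun i l hil => hαγ i l ((hA κ).inj hil)) hjk hkn hτ2
    · rw [hδ κ] at hfin
      exact hfin
    · intro T' U' u₁ v₁ hadm hadm'
      obtain ⟨e, he⟩ := hU _ _ (congrFun h ((T', U'), (u₁, v₁)))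
      have h1 := congrArg (fun t : (𝓞 c.L)ˣ => ((((t : 𝓞 c.L) : c.L) : A))) he
      simp only [Units.val_mul, Units.val_pow_eq_pow_val] at h1
      push_cast at h1
      rw [hu v ((T', U'), (u₁, v₁)) hadm hadm', hu v' ((T', U'), (u₁, v₁)) hadm hadm'] at h1
      refine ⟨((((e : 𝓞 c.L) : c.L) : A)), SetLike.coe_mem _, ?_⟩
      rw [xx_div, xx_div, div_div_div_comm, h1]
      have := xx_ne (c := c) (hz v).ne T' u₁ v₁
      have := xx_ne (c := c) (hz v).ne U' u₁ v₁
      field_simp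
  · rw [Nat.card_eq_fintype_card, Fintype.card_fun]
    have h1 : Fintype.card ((Finset (Fin n) × Finset (Fin n)) × ((Fin j → Fin n) × (Fin j → Fin n))) =
        2 ^ n * 2 ^ n * (n ^ j * n ^ j) := by
      simp
    rw [h1]
    calc Fintype.card T ^ (2 ^ n * 2 ^ n * (n ^ j * n ^ j)) ≤ (M ^ (n ^ n)) ^ (2 ^ n * 2 ^ n * (n ^ j * n ^ j)) := by
          apply Nat.pow_le_pow_left
          exact hTc.trans (Nat.pow_le_pow_right (Nat.pos_of_ne_zero hM) c.finrank_L_le)
      _ ≤ 2 ^ ((M ^ (n ^ n)) ^ (2 ^ n * 2 ^ n * (n ^ j * n ^ j))) := Nat.lt_two_pow_self.le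

end

end Cf

end Pool.Agent.H515.KS
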