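import Pool.Agent.H515.KS.Poly
import Pool.Agent.H515.KS.Rel2
import Pool.Agent.H515.KS.Ev
import Pool.Agent.H450.GG.Fin

set_option autoImplicit false
set_option linter.unusedSectionVars false

namespace Pool.Agent.H515.KS

open Polynomial Module NumberField Pool.Agent.H450.GG
open Pool.Agent.R493.CR (S)

/-- the arithmetic progression `1 + M mod M ^ 2` -/
theorem infinite_primes (M B : ℕ) (hM : M ≠ 0) :
    Set.Infinite {p : ℕ | p.Prime ∧ B < p ∧ M ∣ p - 1 ∧ Nat.Coprime M ((p - 1) / M)} := by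
  have hne : NeZero (M ^ 2) := ⟨pow_ne_zero _ hM⟩
  have hunit : IsUnit ((1 + M : ℕ) : ZMod (M ^ 2)) := by
    have h1 : ((1 + M : ℕ) : ZMod (M ^ 2)) * (1 - (M : ZMod (M ^ 2))) = 1 := by
      have h2 : ((M : ℕ) : ZMod (M ^ 2)) ^ 2 = 0 := by
        have := ZMod.natCast_self (M ^ 2)
        push_cast at this
        exact this
      push_cast
      linear_combination -h2
    exact IsUnit.of_mul_eq_one _ h1
  apply Set.infinite_of_forall_exists_gt
  intro a
  obtain ⟨p, h1, h2, h3⟩ := Nat.forall_exists_prime_gt_and_eq_mod hunit (a + B + M + 1)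
  refine ⟨p, ⟨h2, by omega, ?_⟩, by omega⟩
  rw [ZMod.natCast_eq_natCast_iff] at h3
  obtain ⟨s, hs⟩ : ∃ s, p = 1 + M + M ^ 2 * s := by
    obtain ⟨s, hs⟩ := (Nat.modEq_iff_dvd' (by omega : 1 + M ≤ p)).1 h3.symm
    exact ⟨s, by omega⟩
  have h4 : p - 1 = M * (1 + M * s) := by
    rw [hs]
    have : M * (1 + M * s) = M + M ^ 2 * s := by ring
    omega
  refine ⟨⟨_, h4⟩, ?_⟩
  rw [h4, Nat.mul_div_cancel_left _ (Nat.pos_of_ne_zero hM)]
  simp

/-- distinct elements of infinite sets -/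
theorem exists_distinct {ι : Type} [Fintype ι] (T : ι → Set ℕ) (hT : ∀ x, (T x).Infinite) :
    ∃ f : ι → ℕ, Function.Injective f ∧ ∀ x, f x ∈ T x := by
  classical
  have key : ∀ s : Finset ι, ∃ f : ι → ℕ, (∀ x ∈ s, ∀ y ∈ s, f x = f y → x = y) ∧ ∀ x ∈ s, f x ∈ T x := by
    intro s
    induction s using Finset.induction_on with
    | empty => exact ⟨fun _ => 0, by simp, by simp⟩
    | insert a s ha ih =>
      obtain ⟨f, h1, h2⟩ := ih
      obtain ⟨y, hy, hy'⟩ := (hT a).exists_notMem_finset (s.image f)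
      have hf : ∀ x ∈ s, Function.update f a y x = f x := by
        intro x hx
        have hxa : x ≠ a := by
          rintro rfl
          exact ha hx
        exact Function.update_of_ne hxa _ _
      refine ⟨Function.update f a y, ?_, ?_⟩
      · intro x hx z hz hxz
        rcases Finset.mem_insert.1 hx with hx | hx <;> rcases Finset.mem_insert.1 hz with hz | hz
        · rw [hx, hz]
        · rw [hx, Function.update_self, hf z hz] at hxz
          exact absurd (Finset.mem_image.2 ⟨z, hz, hxz.symm⟩) hy'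
        · rw [hz, Function.update_self, hf x hx] at hxz
          exact absurd (Finset.mem_image.2 ⟨x, hx, hxz⟩) hy'
        · rw [hf x hx, hf z hz] at hxz
          exact h1 x hx z hz hxz
      · intro x hx
        rcases Finset.mem_insert.1 hx with rfl | hx
        · rw [Function.update_self]
          exact hy
        · rw [hf x hx]
          exact h2 x hx
  obtain ⟨f, h1, h2⟩ := key Finset.univ
  exact ⟨f, fun x y h => h1 x (Finset.mem_univ _) y (Finset.mem_univ _) h, fun x => h2 x (Finset.mem_univ _)⟩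

/-- the configurations of places -/
theorem exists_gamma (j φ n : ℕ) (hφ : 2 * j ≤ φ) : ∃ α β γ : Fin j → Fin φ, Function.Injective α ∧
    Function.Injective β ∧ Function.Injective γ ∧ (∀ i l, α i ≠ β l) ∧ (∀ i l, α i ≠ γ l) ∧
    ∀ b : Fin φ → Fin n, Function.Injective b → aw (fun i => b (α i)) (fun i => b (β i)) ∅ (fun i => b (α i))
      (fun i => b (γ i)) = if φ = 2 * j ∧ j ≠ 0 then 2 else 1 := by
  rcases j with _ | j'
  · refine ⟨Fin.elim0, Fin.elim0, Fin.elim0, fun x => x.elim0, fun x => x.elim0, fun x => x.elim0,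
      fun x => x.elim0, fun x => x.elim0, ?_⟩
    intro b _
    rw [if_neg (fun h => h.2 rfl)]
    unfold aw fw
    simp only [Finset.univ_eq_empty, Finset.prod_empty, mul_one]
    rw [Finset.sum_eq_single ∅]
    · simp
    · intro E _ hE
      exact absurd (Finset.eq_empty_of_isEmpty E) hE
    · intro h
      exact absurd (Finset.mem_univ _) h
  let α : Fin (j' + 1) → Fin φ := fun l => ⟨l, by omega⟩
  let β : Fin (j' + 1) → Fin φ := fun l => ⟨j' + 1 + l, by omega⟩
  have hα : Function.Injective α := by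
    intro x y h
    have := congrArg Fin.val h
    exact Fin.ext this
  have hβ : Function.Injective β := by
    intro x y h
    have : j' + 1 + (x : ℕ) = j' + 1 + y := congrArg Fin.val h
    exact Fin.ext (by omega)
  have hαβ : ∀ i l, α i ≠ β l := by
    intro i l h
    have : (i : ℕ) = j' + 1 + l := congrArg Fin.val h
    omega
  by_cases h2 : φ = 2 * (j' + 1)
  · refine ⟨α, β, fun m => β (m - 1), hα, hβ, ?_, hαβ, fun i l => hαβ _ _, ?_⟩
    · intro x y h
      exact sub_left_injective (hβ h)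
    · intro b hb
      rw [if_pos ⟨h2, by omega⟩]
      exact aw_cycle (hb.comp hα) (hb.comp hβ) (fun i l h => hαβ i l (hb h))
  · have hφ' : 2 * (j' + 1) < φ := by omega
    let cc : Fin φ := ⟨2 * (j' + 1), hφ'⟩
    have hca : ∀ i, cc ≠ α i := by
      intro i h
      have : 2 * (j' + 1) = (i : ℕ) := congrArg Fin.val h
      omega
    have hcb : ∀ i, cc ≠ β i := by
      intro i h
      have : 2 * (j' + 1) = j' + 1 + (i : ℕ) := congrArg Fin.val h
      omega
    refine ⟨α, β, fun m => if m = 0 then cc else β (m - 1), hα, hβ, ?_, hαβ, ?_, ?_⟩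
    · intro x y h
      dsimp only at h
      split_ifs at h with h1 h3 h3
      · rw [h1, h3]
      · exact absurd h (hcb _)
      · exact absurd h.symm (hcb _)
      · exact sub_left_injective (hβ h)
    · intro i l
      dsimp only
      split_ifs with h1
      · exact (hca i).symm
      · exact hαβ _ _
    · intro b hb
      rw [if_neg (fun h => h2 h.1)]
      have h3 := aw_path (hb.comp hα) (hb.comp hβ) (fun i l h => hαβ i l (hb h)) (b cc)
        (fun i h => hca i (hb h)) (fun i h => hcb i (hb h))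
      have h4 : (fun i => b (if i = 0 then cc else β (i - 1))) =
          (fun m : Fin (j' + 1) => if m = 0 then b cc else (b ∘ β) (m - 1)) := by
        funext i
        split_ifs
        · rfl
        · rfl
      rw [h4]
      exact h3

/-- **Main theorem.** Several ramification types in one field. -/
theorem family {I : Type} [Fintype I] (n k : ℕ) (M φ j μ : I → ℕ) (σ : I → ℤ) (hn : 1 ≤ n) (hkn : k ≤ n)
    (hM : ∀ i, M i ≠ 0) (hMφ : ∀ i, n = M i + φ i) (hφ : ∀ i, 2 * j i ≤ φ i) (hjk : ∀ i, j i ≤ k)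
    (hkj : ∀ i, k + j i ≤ n)
    (hσ : ∀ i s, j i ≤ s → s + j i ≤ φ i → s ≤ k → (Nat.gcd (M i) (k - s) : ℤ) ∣ σ i) (hμ0 : ∀ i, μ i ≠ 0)
    (hμ : ∀ i, ∀ t : ℤ, (M i : ℤ) ∣ σ i * (if φ i = 2 * j i ∧ j i ≠ 0 then 2 else 1) * t → (μ i : ℤ) ∣ t)
    (R : ℕ) : ∃ (K : Type) (_ : Field K) (_ : NumberField K), finrank ℚ K = n.choose k ∧
      ∀ i, ∃ f : Multiplicative (Fin R → ZMod (μ i)) →* ClassGroup (𝓞 K), Function.Injective f := by
  classical
  have := alg_closure
  obtain ⟨N, hN⟩ : ∃ N : I → ℕ, ∀ i, N i = R + (M i ^ (n ^ n)) ^ (2 ^ n * 2 ^ n * (n ^ j i * n ^ j i)) :=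
    ⟨_, fun i => rfl⟩
  -- the auxiliary primes
  let q : ℕ → ℕ := fun j => Nat.nth Nat.Prime (j + n)
  have hq : ∀ j, (q j).Prime := fun k => Nat.prime_nth_prime _
  have hqinj : Function.Injective q := by
    intro k l h
    have := (Nat.nth_strictMono Nat.infinite_setOfPred_prime).injective h
    omega
  have hqmono : ∀ i j, i ≤ j → q i ≤ q j := by
    intro i j h
    exact (Nat.nth_monotone Nat.infinite_setOfPred_prime) (by omega)
  have hqn : ∀ j, n + 1 < q j := by
    intro j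
    have := Nat.add_two_le_nth_prime (j + n)
    show n + 1 < Nat.nth Nat.Prime (j + n)
    omega
  -- the main primes
  obtain ⟨r, hrinj, hr⟩ := exists_distinct
    (fun x : (Σ i, Fin (N i)) => {p : ℕ | p.Prime ∧ q k + 2 * (n + 1) ^ (n + 1) < p ∧ M x.1 ∣ p - 1 ∧
      Nat.Coprime (M x.1) ((p - 1) / M x.1)}) (fun x => infinite_primes (M x.1) _ (hM x.1))
  let Pr : (Σ i, Fin (N i)) ⊕ Fin (k + 1) → ℕ := Sum.elim (fun i => r i) (fun j => q j)
  let G : (Σ i, Fin (N i)) ⊕ Fin (k + 1) → ℤ[X] := Sum.elim (fun x => GK (M x.1) (φ x.1))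
    (fun j => if (j : ℕ) = k then ∏ j : Fin n, (X - C ((j : ℕ) : ℤ)) else GK (n - j) j)
  have hPr : ∀ i, (Pr i).Prime := by
    rintro (i | i)
    · exact (hr i).1
    · exact hq i
  have hne : ∀ (i : Σ i, Fin (N i)) (j : Fin (k + 1)), r i ≠ q j := by
    intro i j h
    have h1 := (hr i).2.1
    have h2 := hqmono j k (by have := j.2; omega)
    omega
  have hPinj : Function.Injective Pr := by
    rintro (i | i) (j | j) h
    · have h1 : r i = r j := h
      rw [hrinj h1]
    · exact absurd h (hne i j)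
    · exact absurd h.symm (hne j i)
    · have h1 : q i = q j := h
      rw [Fin.ext (hqinj h1)]
  have hG : ∀ i, (G i).Monic ∧ (G i).natDegree = n := by
    rintro (i | i)
    · have := GK_monic (M i.1) (φ i.1)
      rw [← hMφ] at this
      exact this
    · show (if (i : ℕ) = k then _ else _ : ℤ[X]).Monic ∧ (if (i : ℕ) = k then _ else _ : ℤ[X]).natDegree = n
      split_ifs with h
      · exact monic_deg_D n
      · have h1 := GK_monic (n - i) i
        have h2 : n - (i : ℕ) + i = n := by have := i.2; omega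
        rw [h2] at h1
        exact h1
  obtain ⟨f, hfm, hfd, hf⟩ := exists_poly n hn Pr hPr hPinj G hG
  obtain ⟨θ, hθ⟩ := exists_rts (A := AlgebraicClosure ℚ) hfm hfd
  -- the roots are distinct
  have hinj : Function.Injective θ := by
    have : Fact (q k).Prime := ⟨hq k⟩
    obtain ⟨h0, hf0⟩ := hf (Sum.inr ⟨k, by omega⟩)
    have h1 : f = ∏ j : Fin n, (X - C ((j : ℕ) : ℤ)) + C (q k : ℤ) + C ((q k : ℤ) ^ 2) * h0 := by
      have h2 : G (Sum.inr ⟨k, by omega⟩) = ∏ j : Fin n, (X - C ((j : ℕ) : ℤ)) := if_pos rfl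
      rw [h2] at hf0
      exact hf0
    exact (type_D (q k) hθ (by have := hqn k; omega) h1).1
  -- transitivity
  have htr := ktrans hθ hinj k hkn q hq hqn (by
    intro j hj
    obtain ⟨h0, hf0⟩ := hf (Sum.inr ⟨j, by omega⟩)
    have h2 : G (Sum.inr ⟨j, by omega⟩) = GK (n - j) j := if_neg hj.ne
    rw [h2] at hf0
    exact ⟨h0, hf0⟩) k le_rfl
  let u0 : Fin k → Fin n := Fin.castLE hkn
  have hu0 : Function.Injective u0 := Fin.castLE_injective _
  let c : Cf (AlgebraicClosure ℚ) n k :=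
    { θ := θ
      inj := hinj
      int := hθ.integral
      perm := hθ.perm
      S0 := Finset.univ.image u0
      h0 := by rw [Finset.card_image_of_injective _ hu0, Finset.card_univ, Fintype.card_fin]
      hom := by
        intro T hT
        obtain ⟨σ', hσ'⟩ := htr u0 (T.orderEmbOfFin hT) hu0 (T.orderEmbOfFin hT).injective
        refine ⟨σ', fun i hi => ?_⟩
        obtain ⟨j, -, rfl⟩ := Finset.mem_image.1 hi
        exact ⟨_, Finset.orderEmbOfFin_mem T hT j, hσ' j⟩ }
  have hP : ∀ κ : Σ i, Fin (N i), Fact (r κ).Prime := fun κ => ⟨(hr κ).1⟩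
  have hA : ∀ κ : Σ i, Fin (N i), ∃ a : Fin (φ κ.1) → Fin n, Lt c (M κ.1) (φ κ.1) (r κ) a := by
    intro κ
    obtain ⟨h0, hf0⟩ := hf (Sum.inl κ)
    exact type_Lt c hθ (hM _) (hMφ _) (by have := (hr κ).2.1; omega) (hr κ).2.2.1 (hr κ).2.2.2 hf0
  choose a hA using hA
  refine ⟨c.K, inferInstance, c.nf, c.finrank_K, ?_⟩
  intro i
  have : NeZero (μ i) := ⟨hμ0 i⟩
  obtain ⟨α, β, γ, hα, hβ, hγ, hαβ, hαγ, hδ⟩ := exists_gamma (j i) (φ i) n (hφ i)
  have hP' : ∀ κ : Fin (N i), Fact (r ⟨i, κ⟩).Prime := fun κ => ⟨(hr ⟨i, κ⟩).1⟩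
  have hex := Cf.rank_of_cf (c := c) (M := M i) (σ := σ i) (μ := μ i) (P := fun κ : Fin (N i) => r ⟨i, κ⟩)
    (a := fun κ => a ⟨i, κ⟩) (hM i)
    (fun κ l h => by
      have := hrinj h
      simpa using this) (fun κ => (hA ⟨i, κ⟩).toTy) α β hα hβ hαβ γ hγ hαγ
    (if φ i = 2 * j i ∧ j i ≠ 0 then 2 else 1) (fun κ => hδ _ (hA ⟨i, κ⟩).toTy.inj) (hjk i) (hkj i) (hσ i)
    (fun κ => Cf.exists_tau (hA ⟨i, κ⟩) (hM i) (hMφ i)) (hμ i)
  have hR : N i - (M i ^ (n ^ n)) ^ (2 ^ n * 2 ^ n * (n ^ j i * n ^ j i)) = R := by rw [hN]; omega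
  rw [hR] at hex
  exact hex

end Pool.Agent.H515.KS
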