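import Pool.Agent.H515.KS.Tau2

set_option autoImplicit false
set_option linter.unusedSectionVars false

namespace Pool.Agent.H515.KS

open Polynomial Module Pool.Agent.H450.GG

/-- `X ^ M (X - 1) ⋯ (X - φ)` -/
noncomputable def GK (M φ : ℕ) : ℤ[X] := X ^ M * ∏ j : Fin φ, (X - C (((j : ℕ) + 1 : ℕ) : ℤ))

theorem GK_monic (M φ : ℕ) : (GK M φ).Monic ∧ (GK M φ).natDegree = M + φ := by
  have h1 : (∏ j : Fin φ, (X - C (((j : ℕ) + 1 : ℕ) : ℤ)) : ℤ[X]).Monic :=
    monic_prod_of_monic _ _ fun i _ => monic_X_sub_C _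
  refine ⟨(monic_X_pow _).mul h1, ?_⟩
  unfold GK
  rw [(monic_X_pow _).natDegree_mul h1, natDegree_X_pow,
    natDegree_prod_of_monic _ _ fun i _ => monic_X_sub_C _,
    Finset.sum_congr rfl fun i _ => natDegree_X_sub_C _]
  simp

section
variable {A : Type} [Field A] [CharZero A] [Algebra.IsAlgebraic ℚ A]

/-- the value of `(X - 1) ⋯ (X - φ)` -/
noncomputable def Pf (φ : ℕ) (x : A) : A := ∏ j : Fin φ, (x - (((j : ℕ) + 1 : ℕ) : A))

theorem GK_aeval (M φ : ℕ) (x : A) : aeval x (GK M φ) = x ^ M * Pf φ x := by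
  unfold GK Pf
  simp

variable (p : ℕ) [Fact p.Prime]

/-- The local structure of the roots. -/
theorem type_K {M φ n : ℕ} {f h' : ℤ[X]} {θ : Fin n → A} (h : Rts f θ) (hφ : φ + 1 < p)
    (hf : f = GK M φ + C (p : ℤ) + C ((p : ℤ) ^ 2) * h') :
    ∃ a : Fin φ → Fin n, Function.Injective a ∧ (∀ j, W p (θ (a j) - (((j : ℕ) + 1 : ℕ) : A)) ≤ (p : ℝ)⁻¹) ∧
      (∀ j, θ (a j) ∈ Q A p) ∧ ∀ i, (∀ j, i ≠ a j) → W p (θ i) ^ M = (p : ℝ)⁻¹ := by
  have hroot : ∀ i, W p (θ i) ^ M * ∏ j : Fin φ, W p (θ i - (((j : ℕ) + 1 : ℕ) : A)) = (p : ℝ)⁻¹ := by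
    intro i
    have h1 := (local_eq p hf (W_integral p (h.integral i))).1 (h.root i)
    rw [GK_aeval, W_mul, W_pow] at h1
    unfold Pf at h1
    rw [W_prod] at h1
    exact h1
  have hcast : ∀ j : ℕ, (((j + 1 : ℕ) : ℤ) : A) = ((j + 1 : ℕ) : A) := fun j => by push_cast; rfl
  have key : ∀ (j : Fin φ) (i : Fin n), W p (θ i - ((((j : ℕ) + 1 : ℕ) : ℤ) : A)) < 1 →
      W p (θ i) = 1 ∧ ∀ l : Fin φ, l ≠ j → W p (θ i - (((l : ℕ) + 1 : ℕ) : A)) = 1 := by
    intro j i hi
    constructor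
    · have := W_int_sub p (d := 0) hi (p_not_dvd_of_abs p (by push_cast; omega) (by have := j.2; omega))
      simpa using this
    · intro l hl
      have hlj : (l : ℕ) ≠ j := fun h => hl (Fin.ext h)
      have := W_int_sub p (d := ((((l : ℕ) + 1 : ℕ)) : ℤ)) hi (p_not_dvd_of_abs p (by omega) (by
        have := j.2
        have := l.2
        omega))
      rwa [hcast] at this
  have hsc : ∀ j : Fin φ, ∃ a, W p (θ a - ((((j : ℕ) + 1 : ℕ) : ℤ) : A)) = (p : ℝ)⁻¹ ∧
      (∀ i, i ≠ a → W p (θ i - ((((j : ℕ) + 1 : ℕ) : ℤ) : A)) = 1) ∧ θ a ∈ Q A p := by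
    intro j
    apply simple_class p h
    · intro i hi
      obtain ⟨h1, h2⟩ := key j i hi
      have h3 := hroot i
      rw [h1, one_pow, one_mul, ← Finset.mul_prod_erase _ _ (Finset.mem_univ j),
        Finset.prod_eq_one (fun l hl => h2 l (Finset.ne_of_mem_erase hl)), mul_one] at h3
      rw [hcast]
      exact h3
    · apply (local_eq p hf (W_int_le p _)).2
      rw [GK_aeval]
      unfold Pf
      rw [Finset.prod_eq_zero (Finset.mem_univ j), mul_zero]
      rw [hcast, sub_self]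
  choose a ha1 ha2 ha3 using hsc
  have hlt := inv_p_lt p
  refine ⟨a, ?_, ?_, ha3, ?_⟩
  · intro j l hjl
    by_contra hne
    have h1 := (key j (a j) (by rw [ha1 j]; exact hlt)).2 l (fun h => hne h.symm)
    rw [hjl, ← hcast, ha1 l] at h1
    linarith
  · intro j
    rw [← hcast, ha1]
  · intro i hi
    have h3 := hroot i
    rw [Finset.prod_eq_one, mul_one] at h3
    · exact h3
    · intro j _
      rw [← hcast]
      exact ha2 j i (hi j)

end

section
variable {A : Type} [Field A] [CharZero A] [Algebra.IsAlgebraic ℚ A] [IsAlgClosed A]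

/-- Multiple transitivity. -/
theorem ktrans {n : ℕ} {f : ℤ[X]} {θ : Fin n → A} (h : Rts f θ) (hinj : Function.Injective θ) (k : ℕ) (hkn : k ≤ n)
    (q : ℕ → ℕ) (hq : ∀ j, (q j).Prime) (hqn : ∀ j, n + 1 < q j)
    (hf : ∀ j, j < k → ∃ h' : ℤ[X], f = GK (n - j) j + C (q j : ℤ) + C ((q j : ℤ) ^ 2) * h') :
    ∀ j, j ≤ k → ∀ u v : Fin j → Fin n, Function.Injective u → Function.Injective v →
      ∃ σ : A ≃ₐ[ℚ] A, ∀ i, σ (θ (u i)) = θ (v i) := by
  classical
  intro j
  induction j with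
  | zero =>
    intro _ u v _ _
    exact ⟨AlgEquiv.refl, fun i => i.elim0⟩
  | succ j ih =>
    intro hj u v hu hv
    have : Fact (q j).Prime := ⟨hq j⟩
    obtain ⟨h', hf'⟩ := hf j (by omega)
    obtain ⟨a, ha1, ha2, ha3, ha4⟩ := type_K (q j) h (by have := hqn j; omega) hf'
    obtain ⟨σ₁, hσ₁⟩ := ih (by omega) (fun i => u i.castSucc) a (fun x y hxy => Fin.castSucc_injective _ (hu hxy)) ha1
    obtain ⟨σ₂, hσ₂⟩ := ih (by omega) (fun i => v i.castSucc) a (fun x y hxy => Fin.castSucc_injective _ (hv hxy)) ha1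
    obtain ⟨x, hx⟩ := h.perm σ₁ (u (Fin.last j))
    obtain ⟨y, hy⟩ := h.perm σ₂ (v (Fin.last j))
    have hxa : ∀ i, x ≠ a i := by
      rintro i rfl
      rw [← hσ₁ i] at hx
      have h1 := hu (hinj (σ₁.injective hx))
      exact absurd h1.symm (Fin.castSucc_lt_last i).ne
    have hya : ∀ i, y ≠ a i := by
      rintro i rfl
      rw [← hσ₂ i] at hy
      have h1 := hv (hinj (σ₂.injective hy))
      exact absurd h1.symm (Fin.castSucc_lt_last i).ne
    have hcard : ((Finset.univ \ fx a).image θ).card = n - j := by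
      rw [Finset.card_image_of_injective _ hinj, Finset.card_sdiff, Finset.inter_univ, Finset.card_univ,
        Fintype.card_fin]
      congr 1
      unfold fx
      rw [Finset.card_image_of_injective _ ha1, Finset.card_univ, Fintype.card_fin]
    have hmem : ∀ i, (∀ l, i ≠ a l) → θ i ∈ (Finset.univ \ fx a).image θ := by
      intro i hi
      apply Finset.mem_image_of_mem
      rw [Finset.mem_sdiff]
      exact ⟨Finset.mem_univ i, not_mem_fx.2 hi⟩
    obtain ⟨ρ, hρ1, hρ2⟩ := trans_of_val (q j) (IntermediateField.adjoin ℚ (Set.range fun i => θ (a i)))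
      (by
        rw [IntermediateField.adjoin_le_iff]
        rintro _ ⟨i, rfl⟩
        exact ha3 i)
      ((Finset.univ \ fx a).image θ)
      (by rw [hcard]; omega)
      (by
        intro r hr
        obtain ⟨i, hi, rfl⟩ := Finset.mem_image.1 hr
        rw [hcard]
        exact ha4 i (not_mem_fx.1 (Finset.mem_sdiff.1 hi).2))
      (θ x) (hmem x hxa)
      (by
        intro σ hσ
        obtain ⟨l, hl⟩ := h.perm σ x
        rw [hl]
        apply hmem
        rintro i rfl
        have h3 := hσ (θ (a i)) (IntermediateField.subset_adjoin _ _ ⟨i, rfl⟩)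
        rw [← h3] at hl
        exact hxa i (hinj (σ.injective hl)))
      (θ y) (hmem y hya)
    refine ⟨(σ₁.trans ρ).trans σ₂.symm, ?_⟩
    intro i
    rw [AlgEquiv.trans_apply, AlgEquiv.trans_apply, AlgEquiv.symm_apply_eq]
    refine Fin.lastCases ?_ (fun i => ?_) i
    · rw [hx, hρ2, hy]
    · rw [hσ₁ i, hσ₂ i, hρ1 _ (IntermediateField.subset_adjoin _ _ ⟨i, rfl⟩)]

theorem W_Pf_sub (p : ℕ) [Fact p.Prime] (φ : ℕ) {x y : A} {t : ℝ} (ht : 0 ≤ t) (hx : W p x ≤ 1) (hy : W p y ≤ 1)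
    (h : W p (x - y) ≤ t) : W p (Pf φ x - Pf φ y) ≤ t := by
  unfold Pf
  have hn : ∀ j : ℕ, W p ((j + 1 : ℕ) : A) ≤ 1 := by
    intro j
    have := W_int_le (A := A) p ((j + 1 : ℕ) : ℤ)
    simpa using this
  apply W_prod_sub p _ _ _ _ ht
  · intro i _
    exact (W_sub_le p _ _).trans (max_le hx (hn _))
  · intro i _
    exact (W_sub_le p _ _).trans (max_le hy (hn _))
  · intro i _
    rw [sub_sub_sub_cancel_right]
    exact h

/-- The primes of the second kind. -/
theorem type_Lt {M φ n k p : ℕ} [Fact p.Prime] (c : Cf A n k) {f h' : ℤ[X]} (h : Rts f c.θ) (hM : M ≠ 0)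
    (hn : n = M + φ) (hbig : 2 * (n + 1) ^ (n + 1) < p) (hd : M ∣ p - 1) (hcop : Nat.Coprime M ((p - 1) / M))
    (hf : f = GK M φ + C (p : ℤ) + C ((p : ℤ) ^ 2) * h') : ∃ a : Fin φ → Fin n, Lt c M φ p a := by
  classical
  have hnp : n + 1 < p := by
    have h2 : n + 1 ≤ (n + 1) ^ (n + 1) := Nat.le_self_pow (by omega) _
    omega
  obtain ⟨a, ha1, ha2, ha3, ha4⟩ := type_K p h (by omega) hf
  have hTy : Ty c M φ p a := ⟨hbig, ha1, ha2, ha3, ha4⟩
  refine ⟨a, { toTy := hTy, dvd := hd, cop := hcop, root := ?_, pw := ?_ }⟩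
  · intro g hg x hx
    by_contra hcon
    push Not at hcon
    set θ := c.θ x with hθ
    have hρ := rho_pos M p
    have hρ1 := rho_lt hM p
    have hWx : W p θ = rho M p := Cf.W_small hTy hM hx
    have hWx1 : W p θ ≤ 1 := by rw [hWx]; exact hρ1.le
    have hgx : W p ((g : A) * θ) ≤ rho M p := by
      rw [W_mul, hWx]
      have := W_int_le (A := A) p g
      nlinarith
    have hgx1 : W p ((g : A) * θ) ≤ 1 := hgx.trans hρ1.le
    have hval : W p (aeval ((g : A) * θ) f) = (p : ℝ)⁻¹ := by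
      rw [h.aeval, W_prod]
      have hsplit : ∏ i, W p ((g : A) * θ - c.θ i) =
          (∏ i ∈ fx a, W p ((g : A) * θ - c.θ i)) * ∏ i ∈ Finset.univ \ fx a, W p ((g : A) * θ - c.θ i) := by
        rw [← Finset.prod_inter_mul_prod_sdiff Finset.univ (fx a), Finset.univ_inter]
      rw [hsplit]
      have h1 : ∏ i ∈ fx a, W p ((g : A) * θ - c.θ i) = 1 := by
        apply Finset.prod_eq_one
        intro i hi
        rw [W_sub_comm]
        have h2 := Cf.W_fix hTy hi
        have h3 : c.θ i - (g : A) * θ = c.θ i + -((g : A) * θ) := sub_eq_add_neg _ _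
        rw [h3, W_add_eq p, h2]
        rw [W_neg, h2]
        exact lt_of_le_of_lt hgx hρ1
      have h2 : ∏ i ∈ Finset.univ \ fx a, W p ((g : A) * θ - c.θ i) = rho M p ^ M := by
        rw [Finset.prod_congr rfl (g := fun _ => rho M p), Finset.prod_const]
        · congr 1
          rw [Finset.card_sdiff, Finset.inter_univ, Finset.card_univ, Fintype.card_fin, Cf.card_fx hTy, hn]
          omega
        · intro i hi
          have hi' := (Finset.mem_sdiff.1 hi).2
          apply le_antisymm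
          · exact (W_sub_le p _ _).trans (max_le hgx (Cf.W_small hTy hM hi').le)
          · rw [W_sub_comm]
            exact hcon i hi'
      rw [h1, h2, one_mul, rho_pow hM]
    have hlt : W p (aeval ((g : A) * θ) f) < (p : ℝ)⁻¹ := by
      have e1 : ∀ z : A, aeval z f = z ^ M * Pf φ z + (p : A) + (p : A) ^ 2 * aeval z h' := by
        intro z
        rw [hf]
        simp only [map_add, map_mul, map_pow, map_natCast, GK_aeval]
      have e2 : aeval θ f = 0 := h.root x
      have e3 : aeval ((g : A) * θ) f = θ ^ M * (((g ^ M - 1 : ℤ) : A) * Pf φ ((g : A) * θ) +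
          (Pf φ ((g : A) * θ) - Pf φ θ)) + (p : A) ^ 2 * (aeval ((g : A) * θ) h' - aeval θ h') := by
        have e4 := e1 θ
        rw [e2] at e4
        rw [e1]
        push_cast
        linear_combination -e4
      have hp := inv_p_pos p
      have hplt := inv_p_lt p
      have hple := le_rho hM p
      have hPf1 : W p (Pf φ ((g : A) * θ)) ≤ 1 := by
        unfold Pf
        rw [W_prod]
        apply Finset.prod_le_one
        · intro i _; exact W_nonneg p _
        · intro i _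
          refine (W_sub_le p _ _).trans (max_le hgx1 ?_)
          have := W_int_le (A := A) p (((i : ℕ) + 1 : ℕ) : ℤ)
          simpa using this
      have f1 : W p (((g ^ M - 1 : ℤ) : A) * Pf φ ((g : A) * θ)) ≤ rho M p := by
        rw [W_mul]
        have := W_int_lt (A := A) p hg
        have h0 := W_nonneg p (Pf φ ((g : A) * θ))
        nlinarith
      have f2 : W p (Pf φ ((g : A) * θ) - Pf φ θ) ≤ rho M p := by
        apply W_Pf_sub p φ hρ.le hgx1 hWx1
        exact (W_sub_le p _ _).trans (max_le hgx hWx.le)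
      have f3 : W p (θ ^ M * (((g ^ M - 1 : ℤ) : A) * Pf φ ((g : A) * θ) + (Pf φ ((g : A) * θ) - Pf φ θ))) <
          (p : ℝ)⁻¹ := by
        rw [W_mul, W_pow, hWx, rho_pow hM]
        have f4 := (W_add_le p (((g ^ M - 1 : ℤ) : A) * Pf φ ((g : A) * θ)) (Pf φ ((g : A) * θ) - Pf φ θ)).trans
          (max_le f1 f2)
        calc _ ≤ (p : ℝ)⁻¹ * rho M p := mul_le_mul_of_nonneg_left f4 hp.le
          _ < (p : ℝ)⁻¹ * 1 := mul_lt_mul_of_pos_left hρ1 hp
          _ = _ := mul_one _
      have f5 : W p ((p : A) ^ 2 * (aeval ((g : A) * θ) h' - aeval θ h')) < (p : ℝ)⁻¹ := by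
        rw [W_mul, W_pow, W_p]
        have f6 : W p (aeval ((g : A) * θ) h' - aeval θ h') ≤ 1 :=
          (W_sub_le p _ _).trans (max_le (W_aeval_int_le p h' hgx1) (W_aeval_int_le p h' hWx1))
        have f7 := W_nonneg p (aeval ((g : A) * θ) h' - aeval θ h')
        nlinarith [mul_pos hp hp, mul_lt_mul_of_pos_left hplt hp]
      rw [e3]
      exact (W_add_le p _ _).trans_lt (max_lt f3 f5)
    rw [hval] at hlt
    exact lt_irrefl _ hlt
  · have hw0 : ¬ (p : ℤ) ∣ ∏ j : Fin φ, (0 - (((j : ℕ) + 1 : ℕ) : ℤ)) := by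
      have hpp : Prime (p : ℤ) := Nat.prime_iff_prime_int.1 Fact.out
      rw [hpp.dvd_finsetProd_iff]
      rintro ⟨j, -, hj⟩
      exact p_not_dvd_of_abs p (by push_cast; omega) (by have := j.2; omega) hj
    set w0 := ∏ j : Fin φ, (0 - (((j : ℕ) + 1 : ℕ) : ℤ)) with hw
    obtain ⟨y, hy1, hy2⟩ := int_inv hw0
    refine ⟨-y, by rwa [dvd_neg], ?_⟩
    intro x hx
    set θ := c.θ x with hθ
    have hρ := rho_pos M p
    have hρ1 := rho_lt hM p
    have hWx : W p θ = rho M p := Cf.W_small hTy hM hx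
    have hWx1 : W p θ ≤ 1 := by rw [hWx]; exact hρ1.le
    have hp := inv_p_pos p
    have hplt := inv_p_lt p
    have e1 : aeval θ f = θ ^ M * Pf φ θ + (p : A) + (p : A) ^ 2 * aeval θ h' := by
      rw [hf]
      simp only [map_add, map_mul, map_pow, map_natCast, GK_aeval]
    have e2 : aeval θ f = 0 := h.root x
    rw [e2] at e1
    have hPf0 : Pf φ (0 : A) = (w0 : A) := by
      unfold Pf
      rw [hw]
      push_cast
      rfl
    have e3 : (w0 : A) * (θ ^ M - ((-y : ℤ) : A) * (p : A)) = θ ^ M * (Pf φ 0 - Pf φ θ) +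
        ((p : A) * ((w0 * y - 1 : ℤ) : A) + (p : A) ^ 2 * (-aeval θ h')) := by
      rw [hPf0]
      push_cast
      linear_combination -e1
    have f1 : W p (θ ^ M * (Pf φ 0 - Pf φ θ)) < (p : ℝ)⁻¹ := by
      rw [W_mul, W_pow, hWx, rho_pow hM]
      have f4 : W p (Pf φ (0 : A) - Pf φ θ) ≤ rho M p := by
        apply W_Pf_sub p φ hρ.le (by rw [W_zero]; exact zero_le_one) hWx1
        rw [zero_sub, W_neg, hWx]
      calc _ ≤ (p : ℝ)⁻¹ * rho M p := mul_le_mul_of_nonneg_left f4 hp.le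
        _ < (p : ℝ)⁻¹ * 1 := mul_lt_mul_of_pos_left hρ1 hp
        _ = _ := mul_one _
    have f2 : W p ((p : A) * ((w0 * y - 1 : ℤ) : A)) < (p : ℝ)⁻¹ := by
      rw [W_mul, W_p]
      have := W_int_lt (A := A) p hy1
      nlinarith [mul_lt_mul_of_pos_left hplt hp]
    have f3 : W p ((p : A) ^ 2 * (-aeval θ h')) < (p : ℝ)⁻¹ := by
      rw [W_mul, W_pow, W_p, W_neg]
      have f6 := W_aeval_int_le p h' hWx1
      have f7 := W_nonneg p (aeval θ h')
      nlinarith [mul_pos hp hp, mul_lt_mul_of_pos_left hplt hp]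
    have f4 : W p ((w0 : A) * (θ ^ M - ((-y : ℤ) : A) * (p : A))) < (p : ℝ)⁻¹ := by
      rw [e3]
      exact (W_add_le p _ _).trans_lt (max_lt f1 ((W_add_le p _ _).trans_lt (max_lt f2 f3)))
    rw [W_mul, W_int_eq p hw0, one_mul] at f4
    exact f4

end

end Pool.Agent.H515.KS
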