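import Pool.Agent.H515.KS.Loc

set_option autoImplicit false
set_option linter.unusedSectionVars false

namespace Pool.Agent.H515.KS

open Polynomial Module Pool.Agent.H450.GG

/-- the arithmetic of the residues -/
theorem dvd_of_U1 (p M : ℕ) [Fact p.Prime] (hM : M ≠ 0) (hd : M ∣ p - 1) (hcop : Nat.Coprime M ((p - 1) / M))
    (g : ℤ) (hg : orderOf ((g : ZMod p)) = M) (hgp : ¬ (p : ℤ) ∣ g) (c : ℤ) (hc : ¬ (p : ℤ) ∣ c) (m : ℤ)
    (h : U1 p (((c : PadicAlgCl p)) ^ M / (g : PadicAlgCl p) ^ m)) : (M : ℤ) ∣ m := by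
  have hg0 : (g : PadicAlgCl p) ≠ 0 := int_ne hgp
  have hgM : (g : ZMod p) ^ M = 1 := by rw [← hg]; exact pow_orderOf_eq_one _
  have hgM' : (p : ℤ) ∣ g ^ M - 1 := by
    rw [← ZMod.intCast_zmod_eq_zero_iff_dvd]
    push_cast
    rw [hgM, sub_self]
  obtain ⟨r, hr⟩ : ∃ r : ℕ, (r : ℤ) = m % M := ⟨(m % M).toNat, Int.toNat_of_nonneg (Int.emod_nonneg _ (by exact_mod_cast hM))⟩
  have hrM : r < M := by
    have := Int.emod_lt_of_pos m (by exact_mod_cast Nat.pos_of_ne_zero hM : (0 : ℤ) < M)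
    omega
  obtain ⟨t, hm⟩ : ∃ t : ℤ, m = M * t + r := ⟨m / M, by rw [hr]; exact (Int.mul_ediv_add_emod m M).symm⟩
  have hgm : (g : PadicAlgCl p) ^ m = (((g ^ M : ℤ) : PadicAlgCl p)) ^ t * (g : PadicAlgCl p) ^ r := by
    rw [hm, zpow_add₀ hg0, zpow_mul, zpow_natCast, zpow_natCast]
    push_cast
    rfl
  have h1 : U1 p (((c : PadicAlgCl p)) ^ M / (g : PadicAlgCl p) ^ r) := by
    have h2 : ((c : PadicAlgCl p)) ^ M / (g : PadicAlgCl p) ^ r =
        ((c : PadicAlgCl p)) ^ M / (g : PadicAlgCl p) ^ m * (((g ^ M : ℤ) : PadicAlgCl p)) ^ t := by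
      rw [hgm]
      have e1 : (((g ^ M : ℤ) : PadicAlgCl p)) ^ t ≠ 0 := zpow_ne_zero _ (U1_int hgM').ne
      have e2 : (g : PadicAlgCl p) ^ r ≠ 0 := pow_ne_zero _ hg0
      field_simp
    rw [h2]
    exact h.mul ((U1_int hgM').zpow _)
  have h3 : (p : ℤ) ∣ c ^ M - g ^ r := by
    rw [← norm_int_lt (p := p)]
    push_cast
    have h4 : ((c : PadicAlgCl p)) ^ M - (g : PadicAlgCl p) ^ r =
        (((c : PadicAlgCl p)) ^ M / (g : PadicAlgCl p) ^ r - 1) * (g : PadicAlgCl p) ^ r := by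
      field_simp
    rw [h4, norm_mul, norm_pow, norm_int_eq hgp, one_pow, mul_one]
    exact h1
  have h5 : (c : ZMod p) ^ M = (g : ZMod p) ^ r := by
    rw [← sub_eq_zero]
    have := (ZMod.intCast_zmod_eq_zero_iff_dvd _ _).2 h3
    push_cast at this
    exact this
  have hc0 : (c : ZMod p) ≠ 0 := by
    intro h0
    exact hc ((ZMod.intCast_zmod_eq_zero_iff_dvd _ _).1 h0)
  have h6 : (g : ZMod p) ^ (r * ((p - 1) / M)) = 1 := by
    rw [pow_mul, ← h5, ← pow_mul, Nat.mul_div_cancel' hd]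
    exact ZMod.pow_card_sub_one_eq_one hc0
  have h7 := orderOf_dvd_of_pow_eq_one h6
  rw [hg] at h7
  have h8 := hcop.dvd_of_dvd_mul_right h7
  have h9 : r = 0 := Nat.eq_zero_of_dvd_of_lt h8 hrM
  rw [h9, Nat.cast_zero, add_zero] at hm
  exact ⟨t, hm⟩

/-- The prime `p` has type `(M, φ)` and the local field at `p` is a tame cyclic extension. -/
structure Lt {A : Type} [Field A] [CharZero A] [Algebra.IsAlgebraic ℚ A] {n k : ℕ} (c : Cf A n k) (M φ : ℕ)
    (p : ℕ) [Fact p.Prime] (a : Fin φ → Fin n) : Prop extends Ty c M φ p a where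
  dvd : M ∣ p - 1
  cop : Nat.Coprime M ((p - 1) / M)
  root : ∀ g : ℤ, (p : ℤ) ∣ g ^ M - 1 → ∀ x, x ∉ fx a → ∃ y, y ∉ fx a ∧ W p (c.θ y - g * c.θ x) < rho M p
  pw : ∃ u : ℤ, ¬ (p : ℤ) ∣ u ∧ ∀ x, x ∉ fx a → W p (c.θ x ^ M - u * p) < (p : ℝ)⁻¹

/-- a primitive root of order `M` -/
theorem exists_prim (p M : ℕ) [Fact p.Prime] (hd : M ∣ p - 1) :
    ∃ g : ℤ, orderOf (g : ZMod p) = M ∧ ¬ (p : ℤ) ∣ g := by
  have hp : p.Prime := Fact.out
  have hp1 : 0 < p - 1 := by have := hp.one_lt; omega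
  obtain ⟨ω, hω⟩ := IsCyclic.exists_ofOrder_eq_natCard (α := (ZMod p)ˣ)
  have hcard : orderOf ω = p - 1 := by
    rw [hω, Nat.card_eq_fintype_card, ZMod.card_units p]
  have hM0 : 0 < M := Nat.pos_of_dvd_of_pos hd hp1
  have hq : (p - 1) / M ∣ p - 1 := Nat.div_dvd_of_dvd hd
  have hq0 : (p - 1) / M ≠ 0 := by
    intro h0
    rw [h0, zero_dvd_iff] at hq
    omega
  have h1 : orderOf (ω ^ ((p - 1) / M)) = M := by
    rw [orderOf_pow_of_dvd hq0 (by rw [hcard]; exact hq), hcard, Nat.div_div_self hd hp1.ne']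
  refine ⟨(((ω ^ ((p - 1) / M) : (ZMod p)ˣ) : ZMod p).val : ℤ), ?_, ?_⟩
  · rw [Int.cast_natCast, ZMod.natCast_zmod_val, orderOf_units, h1]
  · intro h
    rw [← ZMod.intCast_zmod_eq_zero_iff_dvd, Int.cast_natCast, ZMod.natCast_zmod_val] at h
    exact (ω ^ ((p - 1) / M)).ne_zero h

namespace Cf

section
variable {A : Type} [Field A] [CharZero A] [Algebra.IsAlgebraic ℚ A] [IsAlgClosed A] {n k : ℕ} {c : Cf A n k}
variable {M φ p : ℕ} [Fact p.Prime] {a : Fin φ → Fin n}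

theorem card_fx (hA : Ty c M φ p a) : (fx a).card = φ := by
  unfold fx
  rw [Finset.card_image_of_injective _ hA.inj, Finset.card_univ, Fintype.card_fin]

theorem small_iff (hA : Ty c M φ p a) (hM : M ≠ 0) {i : Fin n} : i ∉ fx a ↔ W p (c.θ i) = rho M p := by
  constructor
  · exact W_small hA hM
  · intro h hi
    rw [W_fix hA hi] at h
    exact absurd h (rho_lt hM p).ne'

/-- the residues of the small roots -/
theorem near_class (hA : Lt c M φ p a) (hM : M ≠ 0) (hn : n = M + φ) (g : ℤ) (hg : orderOf (g : ZMod p) = M)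
    {x0 : Fin n} (hx0 : x0 ∉ fx a) :
    ∃ y : Fin M → Fin n, (∀ j, y j ∉ fx a ∧ W p (c.θ (y j) - ((g ^ (j : ℕ) : ℤ) : A) * c.θ x0) < rho M p) ∧
      (∀ x, x ∉ fx a → ∃ j, y j = x) ∧
      ∀ x j, x ∉ fx a → W p (c.θ x - ((g ^ (j : ℕ) : ℤ) : A) * c.θ x0) < rho M p → j < M → ∃ h : j < M, x = y ⟨j, h⟩ := by
  classical
  have hgM : (p : ℤ) ∣ g ^ M - 1 := by
    rw [← ZMod.intCast_zmod_eq_zero_iff_dvd]
    push_cast
    have : (g : ZMod p) ^ M = 1 := by rw [← hg]; exact pow_orderOf_eq_one _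
    rw [this, sub_self]
  have hex : ∀ j : Fin M, ∃ y, y ∉ fx a ∧ W p (c.θ y - ((g ^ (j : ℕ) : ℤ) : A) * c.θ x0) < rho M p := by
    intro j
    apply hA.root (g ^ (j : ℕ)) _ x0 hx0
    rw [← pow_mul, mul_comm, pow_mul]
    exact (hgM.trans (sub_one_dvd_pow_sub_one _ _))
  choose y hy using hex
  have hW0 := W_small hA.toTy hM hx0
  -- a root near two classes
  have huniq : ∀ (x : Fin n) (i j : ℕ), i < M → j < M → W p (c.θ x - ((g ^ i : ℤ) : A) * c.θ x0) < rho M p →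
      W p (c.θ x - ((g ^ j : ℤ) : A) * c.θ x0) < rho M p → i = j := by
    intro x i j hi hj h1 h2
    have h3 : W p (((g ^ i - g ^ j : ℤ) : A) * c.θ x0) < rho M p := by
      have h4 : ((g ^ i - g ^ j : ℤ) : A) * c.θ x0 =
          (c.θ x - ((g ^ j : ℤ) : A) * c.θ x0) - (c.θ x - ((g ^ i : ℤ) : A) * c.θ x0) := by
        push_cast
        ring
      rw [h4]
      exact (W_sub_le p _ _).trans_lt (max_lt h2 h1)
    rw [W_mul, hW0] at h3
    have h5 : W p ((g ^ i - g ^ j : ℤ) : A) < 1 := by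
      by_contra hcon
      push Not at hcon
      have := mul_le_mul_of_nonneg_right hcon (rho_pos M p).le
      linarith
    have h6 : (p : ℤ) ∣ g ^ i - g ^ j := by
      by_contra hcon
      rw [W_int_eq p hcon] at h5
      exact lt_irrefl _ h5
    have h7 : (g : ZMod p) ^ i = (g : ZMod p) ^ j := by
      rw [← sub_eq_zero]
      have := (ZMod.intCast_zmod_eq_zero_iff_dvd _ _).2 h6
      push_cast at this
      exact this
    exact pow_injOn_Iio_orderOf (by rw [Set.mem_Iio, hg]; exact hi) (by rw [Set.mem_Iio, hg]; exact hj) h7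
  let Y : Fin M → {i : Fin n // i ∉ fx a} := fun j => ⟨y j, (hy j).1⟩
  have hYinj : Function.Injective Y := by
    intro i j h
    have h1 : y i = y j := congrArg Subtype.val h
    apply Fin.ext
    apply huniq (y i) i j i.2 j.2 (hy i).2
    rw [h1]
    exact (hy j).2
  have hcard : Fintype.card (Fin M) = Fintype.card {i : Fin n // i ∉ fx a} := by
    rw [Fintype.card_fin, Fintype.card_subtype_compl, Fintype.card_fin, Fintype.card_coe, card_fx hA.toTy, hn]
    omega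
  have hYsurj := ((Fintype.bijective_iff_injective_and_card Y).2 ⟨hYinj, hcard⟩).2
  refine ⟨y, hy, ?_, ?_⟩
  · intro x hx
    obtain ⟨j, hj⟩ := hYsurj ⟨x, hx⟩
    exact ⟨j, congrArg Subtype.val hj⟩
  · intro x j hx h1 hj
    refine ⟨hj, ?_⟩
    obtain ⟨i, hi⟩ := hYsurj ⟨x, hx⟩
    have hi' : y i = x := congrArg Subtype.val hi
    have h2 := (hy i).2
    rw [hi'] at h2
    have h3 := huniq x i j i.2 hj h2 h1
    rw [← hi']
    congr 1
    exact Fin.ext h3

end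

end Cf

end Pool.Agent.H515.KS
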