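import Pool.Agent.H515.KS.Tau

set_option autoImplicit false
set_option linter.unusedSectionVars false

namespace Pool.Agent.H515.KS

open Polynomial Module Pool.Agent.H450.GG

namespace Cf

section
variable {A : Type} [Field A] [CharZero A] [Algebra.IsAlgebraic ℚ A] [IsAlgClosed A] {n k : ℕ} {c : Cf A n k}
variable {M φ p : ℕ} [Fact p.Prime] {a : Fin φ → Fin n}

theorem W_restrict {τ : PadicAlgCl p ≃ₐ[ℚ_[p]] PadicAlgCl p} {t : A ≃ₐ[ℚ] A}
    (h : ∀ x, psi p (t x) = τ (psi p x)) (x : A) : W p (t x) = W p x := by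
  unfold W
  rw [h, norm_aut]

/-- The fixed roots are fixed. -/
theorem pm_fix {τ : PadicAlgCl p ≃ₐ[ℚ_[p]] PadicAlgCl p} {t : A ≃ₐ[ℚ] A}
    (h : ∀ x, psi p (t x) = τ (psi p x)) {i : Fin n} (hi : c.θ i ∈ Q A p) : c.pm t i = i := by
  apply c.pm_eq
  apply (psi (A := A) p).injective
  show psi p (t (c.θ i)) = psi p (c.θ i)
  obtain ⟨y, hy⟩ := (mem_Q p).1 hi
  rw [h, ← hy, AlgEquiv.commutes]

theorem not_mem_fx_pm (hA : Ty c M φ p a) (hM : M ≠ 0) {τ : PadicAlgCl p ≃ₐ[ℚ_[p]] PadicAlgCl p} {t : A ≃ₐ[ℚ] A}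
    (h : ∀ x, psi p (t x) = τ (psi p x)) {x : Fin n} (hx : x ∉ fx a) : c.pm t x ∉ fx a := by
  rw [small_iff hA hM, ← c.pm_spec, W_restrict h]
  exact W_small hA hM hx

/-- All roots are in `ℚ_p(θ)`. -/
theorem mem_adjoin (hA : Lt c M φ p a) (hM : M ≠ 0) (hn : n = M + φ) (g : ℤ) (hg : orderOf (g : ZMod p) = M)
    {x0 : Fin n} (hx0 : x0 ∉ fx a) (i : Fin n) :
    psi p (c.θ i) ∈ IntermediateField.adjoin ℚ_[p] {psi (A := A) p (c.θ x0)} := by
  apply mem_of_fixed_padic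
  intro τ hτ
  obtain ⟨t, ht⟩ := exists_restrict (A := A) p τ
  have hπ : τ (psi p (c.θ x0)) = psi p (c.θ x0) := hτ _ (IntermediateField.mem_adjoin_simple_self _ _)
  have ht0 : t (c.θ x0) = c.θ x0 := by
    apply (psi (A := A) p).injective
    show psi p (t (c.θ x0)) = psi p (c.θ x0)
    rw [ht, hπ]
  by_cases hi : i ∈ fx a
  · obtain ⟨j, rfl⟩ := mem_fx.1 hi
    obtain ⟨y, hy⟩ := (mem_Q p).1 (hA.qa j)
    rw [← hy, AlgEquiv.commutes]
  · obtain ⟨y, hy1, hy2, hy3⟩ := near_class hA hM hn g hg hx0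
    obtain ⟨j, hj⟩ := hy2 i hi
    have h1 : W p (c.θ (c.pm t i) - ((g ^ (j : ℕ) : ℤ) : A) * c.θ x0) < rho M p := by
      have h2 : c.θ (c.pm t i) - ((g ^ (j : ℕ) : ℤ) : A) * c.θ x0 = t (c.θ i - ((g ^ (j : ℕ) : ℤ) : A) * c.θ x0) := by
        rw [map_sub, map_mul, ht0, c.pm_spec, map_intCast]
      rw [h2, W_restrict ht, ← hj]
      exact (hy1 j).2
    obtain ⟨h2, h3⟩ := hy3 _ j (not_mem_fx_pm hA.toTy hM ht hi) h1 j.2
    have h4 : c.pm t i = i := by rw [h3, ← hj]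
    rw [← ht, c.pm_spec, h4]

theorem L_le (hA : Lt c M φ p a) (hM : M ≠ 0) (hn : n = M + φ) (g : ℤ) (hg : orderOf (g : ZMod p) = M)
    {x0 : Fin n} (hx0 : x0 ∉ fx a) {x : A} (hx : x ∈ c.L) :
    psi p x ∈ IntermediateField.adjoin ℚ_[p] {psi (A := A) p (c.θ x0)} := by
  have h1 : c.L ≤ ((IntermediateField.adjoin ℚ_[p] {psi (A := A) p (c.θ x0)}).restrictScalars ℚ).comap (psi p) := by
    unfold L
    rw [IntermediateField.adjoin_le_iff]
    rintro _ ⟨i, rfl⟩
    exact mem_adjoin hA hM hn g hg hx0 i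
  exact h1 hx

/-- `p` is, up to one-units, an integer times a power of the small root. -/
theorem good_p (hA : Lt c M φ p a) {x0 : Fin n} (hx0 : x0 ∉ fx a) :
    Good (psi (A := A) p (c.θ x0)) (p : PadicAlgCl p) := by
  obtain ⟨u, hu, hpw⟩ := hA.pw
  have h1 := hpw x0 hx0
  have hpΩ : (p : PadicAlgCl p) ≠ 0 := by exact_mod_cast (Fact.out : p.Prime).ne_zero
  have hup : (u : PadicAlgCl p) * p ≠ 0 := mul_ne_zero (int_ne hu) hpΩ
  have h2 : U1 p (psi p (c.θ x0) ^ M / ((u : PadicAlgCl p) * p)) := by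
    apply U1_of hup
    rw [norm_mul, norm_int_eq hu, one_mul, norm_p]
    have h3 : psi p (c.θ x0) ^ M - (u : PadicAlgCl p) * p = psi p (c.θ x0 ^ M - u * p) := by
      rw [map_sub, map_pow, map_mul, map_intCast, map_natCast]
    rw [h3]
    exact h1
  obtain ⟨c', hc1, hc2⟩ := int_inv hu
  refine ⟨M, c', hc2, ?_⟩
  have h3 : (p : PadicAlgCl p) / ((c' : PadicAlgCl p) * psi p (c.θ x0) ^ (M : ℤ)) =
      (psi p (c.θ x0) ^ M / ((u : PadicAlgCl p) * p))⁻¹ * (((u * c' : ℤ) : PadicAlgCl p))⁻¹ := by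
    rw [zpow_natCast, inv_div]
    push_cast
    have := int_ne hu
    have := int_ne hc2
    field_simp
  rw [h3]
  exact h2.inv.mul (U1_int hc1).inv

/-- the minimal polynomial of a small root over `ℚ_p` -/
theorem minpoly_small (hA : Lt c M φ p a) (hM : M ≠ 0) (hn : n = M + φ) {x0 : Fin n} (hx0 : x0 ∉ fx a) :
    (minpoly ℚ_[p] (psi (A := A) p (c.θ x0))).natDegree ≤ M ∧
    ∀ x, x ∉ fx a → ∃ τ : PadicAlgCl p ≃ₐ[ℚ_[p]] PadicAlgCl p, τ (psi p (c.θ x0)) = psi p (c.θ x) := by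
  classical
  set π := psi (A := A) p (c.θ x0) with hπ
  have hxi : IsIntegral ℚ_[p] π := Algebra.IsIntegral.isIntegral π
  have hmon := minpoly.monic hxi
  set g := (minpoly ℚ_[p] π).map (algebraMap ℚ_[p] (PadicAlgCl p)) with hg
  have hgm : g.Monic := hmon.map _
  have hsp := IsAlgClosed.splits g
  have hsep0 : (minpoly ℚ_[p] π).Separable := Algebra.IsSeparable.isSeparable ℚ_[p] π
  have hnodup : g.roots.Nodup := nodup_roots hsep0.map
  have hconj : ∀ r ∈ g.roots, ∃ τ : PadicAlgCl p ≃ₐ[ℚ_[p]] PadicAlgCl p, τ π = r := by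
    intro r hr
    rw [mem_roots hgm.ne_zero, IsRoot, hg, Polynomial.eval_map_algebraMap] at hr
    have h4 : IsConjRoot ℚ_[p] π r := by
      rw [isConjRoot_iff_aeval_eq_zero hxi]
      exact hr
    obtain ⟨τ, hτ⟩ := isConjRoot_iff_exists_algEquiv.1 h4.symm
    exact ⟨τ, hτ⟩
  set R : Finset (PadicAlgCl p) := (Finset.univ \ fx a).image (fun i => psi (A := A) p (c.θ i)) with hR
  have hinj : Function.Injective (fun i => psi (A := A) p (c.θ i)) :=
    fun i j h => c.inj ((psi (A := A) p).injective h)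
  have hRcard : R.card = M := by
    rw [hR, Finset.card_image_of_injective _ hinj, Finset.card_sdiff,
      Finset.inter_univ, Finset.card_univ, Fintype.card_fin, card_fx hA.toTy, hn]
    omega
  have hroots : ∀ r ∈ g.roots, r ∈ R := by
    intro r hr
    obtain ⟨τ, hτ⟩ := hconj r hr
    obtain ⟨t, ht⟩ := exists_restrict (A := A) p τ
    rw [hR, Finset.mem_image]
    refine ⟨c.pm t x0, ?_, ?_⟩
    · rw [Finset.mem_sdiff]
      exact ⟨Finset.mem_univ _, not_mem_fx_pm hA.toTy hM ht hx0⟩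
    · rw [← c.pm_spec, ht, ← hτ]
  have hcard : Multiset.card g.roots = g.natDegree := hsp.natDegree_eq_card_roots.symm
  have hdeg : g.natDegree = (minpoly ℚ_[p] π).natDegree := hmon.natDegree_map _
  have h12 : g.roots.toFinset ⊆ R := by
    intro r hr
    exact hroots r (Multiset.mem_toFinset.1 hr)
  have hle : g.natDegree ≤ M := by
    rw [← hcard, ← Multiset.toFinset_card_of_nodup hnodup, ← hRcard]
    exact Finset.card_le_card h12
  have hπn : ‖π‖ = rho M p := W_small hA.toTy hM hx0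
  have hπr : ∀ r ∈ R, ‖r‖ = rho M p := by
    intro r hr
    rw [hR, Finset.mem_image] at hr
    obtain ⟨i, hi, rfl⟩ := hr
    exact W_small hA.toTy hM (Finset.mem_sdiff.1 hi).2
  have hprod : ∀ s : Multiset (PadicAlgCl p), (∀ r ∈ s, r ∈ R) → ‖s.prod‖ = rho M p ^ (Multiset.card s) := by
    intro s
    induction s using Multiset.induction_on with
    | empty => intro _; simp
    | cons b s ih =>
      intro hs
      rw [Multiset.prod_cons, norm_mul, ih (fun r hr => hs r (Multiset.mem_cons_of_mem hr)),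
        hπr b (hs b (Multiset.mem_cons_self b s)), Multiset.card_cons, pow_succ, mul_comm]
  have hc0 : ‖g.coeff 0‖ = rho M p ^ g.natDegree := by
    rw [hsp.coeff_zero_eq_prod_roots_of_monic hgm, norm_mul, norm_pow, norm_neg, norm_one, one_pow, one_mul,
      hprod _ hroots, hcard]
  have hρ := rho_pos M p
  have hρ1 := rho_lt hM p
  have hco : (minpoly ℚ_[p] π).coeff 0 ≠ 0 := by
    intro h0
    rw [hg, coeff_map, h0, map_zero, norm_zero] at hc0
    exact (pow_pos hρ _).ne hc0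
  have h5 : rho M p ^ (g.natDegree : ℤ) = rho M p ^ ((M : ℤ) * ((minpoly ℚ_[p] π).coeff 0).valuation) := by
    rw [zpow_natCast, ← hc0, hg, coeff_map]
    have h6 : ‖(algebraMap ℚ_[p] (PadicAlgCl p)) ((minpoly ℚ_[p] π).coeff 0)‖ = ‖(minpoly ℚ_[p] π).coeff 0‖ :=
      PadicAlgCl.norm_extends p _
    rw [h6, Padic.norm_eq_zpow_neg_valuation hco, zpow_mul, zpow_natCast, rho_pow hM, inv_zpow']
  have h7 := zpow_right_injective₀ hρ hρ1.ne h5
  have h8 : (M : ℤ) ∣ (g.natDegree : ℤ) := ⟨_, h7⟩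
  have h9 : M ∣ g.natDegree := by exact_mod_cast h8
  have hpos : 0 < g.natDegree := by
    rw [hdeg]
    exact minpoly.natDegree_pos hxi
  have hge := Nat.le_of_dvd hpos h9
  have h13 : g.roots.toFinset = R := by
    apply Finset.eq_of_subset_of_card_le h12
    rw [Multiset.toFinset_card_of_nodup hnodup, hcard, hRcard]
    exact hge
  refine ⟨by rw [← hdeg]; exact hle, ?_⟩
  intro x hx
  apply hconj
  rw [← Multiset.mem_toFinset, h13, hR, Finset.mem_image]
  exact ⟨x, Finset.mem_sdiff.2 ⟨Finset.mem_univ x, hx⟩, rfl⟩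

/-- **The local theorem.** -/
theorem exists_tau (hA : Lt c M φ p a) (hM : M ≠ 0) (hn : n = M + φ) :
    ∃ τ : A ≃ₐ[ℚ] A, (∀ j, c.pm τ (a j) = a j) ∧
      ∀ x ∈ c.L, x ≠ 0 → ∀ e ∈ c.L, τ x / x = e ^ M → ∀ m : ℤ, W p x = rho M p ^ m → (M : ℤ) ∣ m := by
  classical
  obtain ⟨g, hg, hgp⟩ := exists_prim p M hA.dvd
  obtain ⟨x0, hx0⟩ : ∃ x0, x0 ∉ fx a := by
    by_contra hcon
    push Not at hcon
    have h1 : (Finset.univ : Finset (Fin n)) ⊆ fx a := fun i _ => hcon i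
    have h2 := Finset.card_le_card h1
    rw [Finset.card_univ, Fintype.card_fin, card_fx hA.toTy] at h2
    omega
  have hgM : (p : ℤ) ∣ g ^ M - 1 := by
    rw [← ZMod.intCast_zmod_eq_zero_iff_dvd]
    push_cast
    have : (g : ZMod p) ^ M = 1 := by rw [← hg]; exact pow_orderOf_eq_one _
    rw [this, sub_self]
  obtain ⟨x1, hx1, hx1'⟩ := hA.root g hgM x0 hx0
  obtain ⟨hdeg, hconj⟩ := minpoly_small hA hM hn hx0
  obtain ⟨τ, hτ⟩ := hconj x1 hx1
  obtain ⟨t, ht⟩ := exists_restrict (A := A) p τ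
  refine ⟨t, fun j => pm_fix ht (hA.qa j), ?_⟩
  set π := psi (A := A) p (c.θ x0) with hπ
  have hρ := rho_pos M p
  have hρ1 := rho_lt hM p
  have hπn : ‖π‖ = rho M p := W_small hA.toTy hM hx0
  have hπ0 : π ≠ 0 := by
    intro h
    rw [h, norm_zero] at hπn
    exact hρ.ne hπn
  have hgΩ : (g : PadicAlgCl p) ≠ 0 := int_ne hgp
  have hU : U1 p (τ π / ((g : PadicAlgCl p) * π)) := by
    apply U1_of (mul_ne_zero hgΩ hπ0)
    rw [norm_mul, norm_int_eq hgp, one_mul, hπn, hτ]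
    have h3 : psi p (c.θ x1) - (g : PadicAlgCl p) * π = psi p (c.θ x1 - g * c.θ x0) := by
      rw [map_sub, map_mul, map_intCast, hπ]
    rw [h3]
    exact hx1'
  have hgood : ∀ x ∈ c.L, x ≠ 0 → Good π (psi p x) := by
    intro x hx hx0'
    apply good_adjoin hM _ (good_p hA hx0) hdeg (L_le hA hM hn g hg hx0 hx)
    · exact (map_ne_zero_iff _ (psi (A := A) p).injective).2 hx0'
    · rw [← hπ, hπn, rho_pow hM]
  intro x hx hx0' e he hex m hm
  have he0 : e ≠ 0 := by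
    rintro rfl
    rw [zero_pow hM] at hex
    exact div_ne_zero ((_root_.map_ne_zero _).2 hx0') hx0' hex
  obtain ⟨m1, c1, hc1, hU1⟩ := hgood x hx hx0'
  obtain ⟨m2, c2, hc2, hU2⟩ := hgood e he he0
  -- the exponents
  have hm1 : m = m1 := by
    have h1 := hU1.norm
    rw [norm_div, norm_mul, norm_int_eq hc1, one_mul, norm_zpow, hπn] at h1
    have h2 : ‖psi p x‖ = rho M p ^ m := hm
    rw [h2, div_eq_one_iff_eq (zpow_ne_zero _ hρ.ne')] at h1
    exact zpow_right_injective₀ hρ hρ1.ne h1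
  have hexΩ : τ (psi p x) / psi p x = psi p e ^ M := by
    rw [← ht, ← map_div₀, hex, map_pow]
  have hψx : psi p x ≠ 0 := (map_ne_zero_iff _ (psi (A := A) p).injective).2 hx0'
  have hm2 : m2 = 0 := by
    have h1 := congrArg norm hexΩ
    rw [norm_div, norm_aut, div_self (norm_ne_zero_iff.2 hψx), norm_pow] at h1
    have h2 : ‖psi p e‖ = 1 := (pow_eq_one_iff_of_nonneg (norm_nonneg _) hM).1 h1.symm
    have h3 := hU2.norm
    rw [norm_div, norm_mul, norm_int_eq hc2, one_mul, norm_zpow, hπn, h2,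
      div_eq_one_iff_eq (zpow_ne_zero _ hρ.ne')] at h3
    have h4 : rho M p ^ (0 : ℤ) = rho M p ^ m2 := by rw [zpow_zero]; exact h3
    exact (zpow_right_injective₀ hρ hρ1.ne h4).symm
  rw [hm2, zpow_zero, mul_one] at hU2
  -- the residues
  set w := psi p x / ((c1 : PadicAlgCl p) * π ^ m1) with hw
  have hwx : psi p x = w * ((c1 : PadicAlgCl p) * π ^ m1) := by
    rw [hw, div_mul_cancel₀]
    exact mul_ne_zero (int_ne hc1) (zpow_ne_zero _ hπ0)
  have hτw : U1 p (τ w) := hU1.aut τ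
  have hτπ0 : τ π ≠ 0 := (_root_.map_ne_zero _).2 hπ0
  have key : U1 p (((c2 : PadicAlgCl p)) ^ M / (g : PadicAlgCl p) ^ m1) := by
    have h1 : ((c2 : PadicAlgCl p)) ^ M / (g : PadicAlgCl p) ^ m1 =
        (τ w / w) * (τ π / ((g : PadicAlgCl p) * π)) ^ m1 / (psi p e / (c2 : PadicAlgCl p)) ^ M := by
      have h2 : psi p e ^ M = (τ w / w) * (τ π / π) ^ m1 := by
        rw [← hexΩ, hwx, map_mul, map_mul, map_intCast, map_zpow₀, div_zpow]
        have e1 := hU1.ne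
        have e2 := int_ne hc1
        have e3 := zpow_ne_zero m1 hπ0
        field_simp
      rw [div_pow, h2, div_zpow, div_zpow, mul_zpow]
      have e1 := hU1.ne
      have e2 := int_ne hc2
      have e3 := zpow_ne_zero m1 hπ0
      have e4 := zpow_ne_zero m1 hτπ0
      have e5 := zpow_ne_zero m1 hgΩ
      have e6 := hτw.ne
      field_simp
    rw [h1]
    exact ((hτw.div hU1).mul (hU.zpow m1)).div (hU2.pow M)
  rw [hm1]
  exact dvd_of_U1 p M hM hA.dvd hA.cop g hg hgp c2 hc2 m1 key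

end

end Cf

end Pool.Agent.H515.KS
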