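import Mathlib

set_option autoImplicit false
set_option linter.unusedSectionVars false

namespace Pool.Agent.H515.KS

/-- alternating sums of products of affine functions -/
def AD {ι κ : Type} [DecidableEq κ] (P : ι → κ → ℤ) (I : Finset ι) (J : Finset κ) (C : ι → ℤ) : ℤ :=
  ∑ E ∈ J.powerset, (-1) ^ E.card * ∏ l ∈ I, (C l + ∑ m ∈ E, P l m)

theorem AD_insert {ι κ : Type} [DecidableEq ι] [DecidableEq κ] (P : ι → κ → ℤ) (I : Finset ι) (J : Finset κ)
    (C : ι → ℤ) {m : κ} (hm : m ∉ J) : AD P I (insert m J) C = AD P I J C - AD P I J (fun l => C l + P l m) := by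
  unfold AD
  rw [Finset.sum_powerset_insert hm, sub_eq_add_neg, ← Finset.sum_neg_distrib]
  congr 1
  refine Finset.sum_congr rfl fun E hE => ?_
  have hmE : m ∉ E := fun h => hm (Finset.mem_powerset.1 hE h)
  rw [Finset.card_insert_of_notMem hmE, pow_succ]
  have h1 : ∀ l ∈ I, C l + ∑ m' ∈ insert m E, P l m' = C l + P l m + ∑ m' ∈ E, P l m' := by
    intro l _
    rw [Finset.sum_insert hmE]
    ring
  rw [Finset.prod_congr rfl h1]
  ring

theorem AD_add {ι κ : Type} [DecidableEq ι] [DecidableEq κ] (P : ι → κ → ℤ) (I : Finset ι) (J : Finset κ)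
    (C δ : ι → ℤ) : AD P I J (fun l => C l + δ l) = ∑ K ∈ I.powerset, (∏ l ∈ I \ K, δ l) * AD P K J C := by
  unfold AD
  have h1 : ∀ E : Finset κ, ∏ l ∈ I, (C l + δ l + ∑ m ∈ E, P l m) =
      ∑ K ∈ I.powerset, (∏ l ∈ K, (C l + ∑ m ∈ E, P l m)) * ∏ l ∈ I \ K, δ l := by
    intro E
    rw [← Finset.prod_add]
    refine Finset.prod_congr rfl fun l _ => ?_
    ring
  simp only [h1, Finset.mul_sum]
  rw [Finset.sum_comm]
  refine Finset.sum_congr rfl fun K _ => Finset.sum_congr rfl fun E _ => ?_
  ring

theorem AD_main {ι κ : Type} [DecidableEq ι] [DecidableEq κ] (P : ι → κ → ℤ) (J : Finset κ) :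
    ∀ I : Finset ι, (I.card < J.card → ∀ C, AD P I J C = 0) ∧
      (I.card = J.card → ∀ C C', AD P I J C = AD P I J C') := by
  induction J using Finset.induction_on with
  | empty =>
    intro I
    refine ⟨fun h => absurd h (by simp), fun h C C' => ?_⟩
    rw [Finset.card_empty, Finset.card_eq_zero] at h
    subst h
    simp [AD]
  | insert m J hm ih =>
    intro I
    have key : ∀ C, AD P I (insert m J) C = -∑ K ∈ I.powerset.erase I, (∏ l ∈ I \ K, P l m) * AD P K J C := by
      intro C
      rw [AD_insert P I J C hm, AD_add P I J C (fun l => P l m),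
        ← Finset.add_sum_erase _ _ (Finset.mem_powerset_self I)]
      simp
    have hlt : ∀ K ∈ I.powerset.erase I, K.card < I.card := by
      intro K hK
      rw [Finset.mem_erase, Finset.mem_powerset] at hK
      exact Finset.card_lt_card (Finset.ssubset_iff_subset_ne.2 ⟨hK.2, hK.1⟩)
    rw [Finset.card_insert_of_notMem hm]
    constructor
    · intro h C
      rw [key, neg_eq_zero]
      apply Finset.sum_eq_zero
      intro K hK
      have := hlt K hK
      rw [(ih K).1 (by omega) C, mul_zero]
    · intro h C C'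
      rw [key, key]
      congr 1
      refine Finset.sum_congr rfl fun K hK => ?_
      have := hlt K hK
      rcases Nat.lt_or_ge K.card J.card with h1 | h1
      · rw [(ih K).1 h1 C, (ih K).1 h1 C']
      · rw [(ih K).2 (by omega) C C']

/-- the set of the chosen elements: `v i` for `i` in `E` and `u i` for the other `i` -/
def wt {n j : ℕ} (u v : Fin j → Fin n) (E : Finset (Fin j)) : Finset (Fin n) :=
  Finset.univ.image fun i => if i ∈ E then v i else u i

/-- admissible configurations -/
structure Adm {n j : ℕ} (k : ℕ) (T : Finset (Fin n)) (u v : Fin j → Fin n) : Prop where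
  cT : T.card + j = k
  ui : Function.Injective u
  vi : Function.Injective v
  uv : ∀ i l, u i ≠ v l
  uT : ∀ i, u i ∉ T
  vT : ∀ i, v i ∉ T

theorem wt_inj {n j k : ℕ} {T : Finset (Fin n)} {u v : Fin j → Fin n} (h : Adm k T u v) (E : Finset (Fin j)) :
    Function.Injective fun i => if i ∈ E then v i else u i := by
  intro i l hil
  simp only at hil
  split_ifs at hil with h1 h2 h2
  · exact h.vi hil
  · exact absurd hil.symm (h.uv l i)
  · exact absurd hil (h.uv i l)
  · exact h.ui hil

theorem wt_disj {n j k : ℕ} {T : Finset (Fin n)} {u v : Fin j → Fin n} (h : Adm k T u v) (E : Finset (Fin j)) :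
    Disjoint T (wt u v E) := by
  rw [Finset.disjoint_right]
  intro x hx
  obtain ⟨i, -, rfl⟩ := Finset.mem_image.1 hx
  split_ifs
  · exact h.vT i
  · exact h.uT i

theorem wt_card {n j k : ℕ} {T : Finset (Fin n)} {u v : Fin j → Fin n} (h : Adm k T u v) (E : Finset (Fin j)) :
    (T ∪ wt u v E).card = k := by
  rw [Finset.card_union_of_disjoint (wt_disj h E)]
  unfold wt
  rw [Finset.card_image_of_injective _ (wt_inj h E), Finset.card_univ, Fintype.card_fin, h.cT]

/-- the weight of a set: a product of differences of indicator functions -/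
def fw {n j : ℕ} (a b : Fin j → Fin n) (S : Finset (Fin n)) : ℤ :=
  ∏ l, ((if a l ∈ S then 1 else 0) - (if b l ∈ S then 1 else 0))

/-- the alternating sum of the weights -/
def aw {n j : ℕ} (a b : Fin j → Fin n) (T : Finset (Fin n)) (u v : Fin j → Fin n) : ℤ :=
  ∑ E : Finset (Fin j), (-1) ^ E.card * fw a b (T ∪ wt u v E)

theorem ind_sum {n : ℕ} (x : Fin n) (S : Finset (Fin n)) :
    (if x ∈ S then (1 : ℤ) else 0) = ∑ i ∈ S, (if i = x then 1 else 0) := by
  rw [Finset.sum_ite_eq' S x (fun _ => (1 : ℤ))]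

theorem aw_eq {n j k : ℕ} (a b : Fin j → Fin n) {T : Finset (Fin n)} {u v : Fin j → Fin n} (h : Adm k T u v) :
    aw a b T u v = AD (fun l m => ((if v m = a l then 1 else 0) - (if v m = b l then 1 else 0)) -
        ((if u m = a l then 1 else 0) - (if u m = b l then 1 else 0))) Finset.univ Finset.univ
      (fun l => ((if a l ∈ T then 1 else 0) - (if b l ∈ T then 1 else 0)) +
        ∑ m, ((if u m = a l then 1 else 0) - (if u m = b l then 1 else 0))) := by
  unfold aw AD fw
  rw [Finset.powerset_univ]
  refine Finset.sum_congr rfl fun E _ => ?_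
  congr 1
  refine Finset.prod_congr rfl fun l _ => ?_
  have h1 : ∀ x : Fin n, (if x ∈ T ∪ wt u v E then (1 : ℤ) else 0) = (if x ∈ T then 1 else 0) +
      ∑ m, (if m ∈ E then (if v m = x then 1 else 0) else (if u m = x then 1 else 0)) := by
    intro x
    rw [ind_sum, Finset.sum_union (wt_disj h E), ← ind_sum]
    congr 1
    unfold wt
    rw [Finset.sum_image (fun i _ l _ hil => wt_inj h E hil)]
    refine Finset.sum_congr rfl fun m _ => ?_
    by_cases hm : m ∈ E <;> simp [hm]
  rw [h1, h1]
  have h2 : ∀ x : Fin n, ∑ m, (if m ∈ E then (if v m = x then (1 : ℤ) else 0) else (if u m = x then 1 else 0)) =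
      ∑ m, (if u m = x then 1 else 0) + ∑ m ∈ E, ((if v m = x then 1 else 0) - (if u m = x then 1 else 0)) := by
    intro x
    rw [← Finset.sum_filter_add_sum_filter_not Finset.univ (fun m => m ∈ E)
      (fun m => (if m ∈ E then (if v m = x then (1 : ℤ) else 0) else (if u m = x then 1 else 0))),
      ← Finset.sum_filter_add_sum_filter_not Finset.univ (fun m => m ∈ E) (fun m => (if u m = x then (1 : ℤ) else 0))]
    have e1 : Finset.univ.filter (fun m => m ∈ E) = E := by ext; simp
    rw [e1, Finset.sum_sub_distrib]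
    have e2 : ∑ m ∈ E, (if m ∈ E then (if v m = x then (1 : ℤ) else 0) else (if u m = x then 1 else 0)) =
        ∑ m ∈ E, (if v m = x then (1 : ℤ) else 0) :=
      Finset.sum_congr rfl fun m hm => by rw [if_pos hm]
    have e3 : ∑ m ∈ Finset.univ.filter (fun m => ¬ m ∈ E),
        (if m ∈ E then (if v m = x then (1 : ℤ) else 0) else (if u m = x then 1 else 0)) =
        ∑ m ∈ Finset.univ.filter (fun m => ¬ m ∈ E), (if u m = x then (1 : ℤ) else 0) :=
      Finset.sum_congr rfl fun m hm => by rw [if_neg (Finset.mem_filter.1 hm).2]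
    rw [e2, e3]
    ring
  rw [h2, h2]
  simp only [Finset.sum_sub_distrib]
  ring

/-- The alternating sum does not depend on `T`. -/
theorem aw_indep {n j k : ℕ} (a b : Fin j → Fin n) {T U : Finset (Fin n)} {u v : Fin j → Fin n}
    (h : Adm k T u v) (h' : Adm k U u v) : aw a b T u v = aw a b U u v := by
  rw [aw_eq a b h, aw_eq a b h']
  exact (AD_main _ _ _).2 rfl _ _

theorem aw_empty {n j k : ℕ} (a b : Fin j → Fin n) {T : Finset (Fin n)} {u v : Fin j → Fin n}
    (h : Adm k T u v) : aw a b T u v = aw a b ∅ u v := by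
  have h' : Adm j ∅ u v := ⟨by simp, h.ui, h.vi, h.uv, by simp, by simp⟩
  rw [aw_eq a b h, aw_eq a b h']
  exact (AD_main _ _ _).2 rfl _ _

end Pool.Agent.H515.KS
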